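import Mathlib

/-!
Coefficients of `(1 - X)^x (1 + X)^y` (symmetric Krawtchouk numbers) and a few sums of them.
-/

set_option autoImplicit false

open Polynomial Finset

namespace Pool.Agent.R181.Kraw

/-- The polynomial `(1 - X)^x (1 + X)^y`. -/
noncomputable def P (x y : ℕ) : ℤ[X] := (1 - X) ^ x * (1 + X) ^ y

/-- Its coefficient at `X^k`. -/
noncomputable def C (x y k : ℕ) : ℤ := (P x y).coeff k

lemma P_right (x y : ℕ) : P x (y + 1) = P x y + P x y * X := by
  unfold P; ring

lemma P_left (x y : ℕ) : P (x + 1) y = P x y - P x y * X := by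
  unfold P; ring

lemma C_right_zero (x y : ℕ) : C x (y + 1) 0 = C x y 0 := by
  simp [C, P_right]

lemma C_right_succ (x y k : ℕ) : C x (y + 1) (k + 1) = C x y (k + 1) + C x y k := by
  simp [C, P_right, coeff_mul_X]

lemma C_left_zero (x y : ℕ) : C (x + 1) y 0 = C x y 0 := by
  simp [C, P_left]

lemma C_left_succ (x y k : ℕ) : C (x + 1) y (k + 1) = C x y (k + 1) - C x y k := by
  simp [C, P_left, coeff_mul_X]

lemma C_sum (x y k : ℕ) : C x (y + 1) k + C (x + 1) y k = 2 * C x y k := by
  cases k with
  | zero => rw [C_right_zero, C_left_zero]; ring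
  | succ k => rw [C_right_succ, C_left_succ]; ring

lemma C_diff_succ (x y k : ℕ) : C x (y + 1) (k + 1) - C (x + 1) y (k + 1) = 2 * C x y k := by
  rw [C_right_succ, C_left_succ]; ring

lemma C_diff_zero (x y : ℕ) : C x (y + 1) 0 - C (x + 1) y 0 = 0 := by
  rw [C_right_zero, C_left_zero]; ring

lemma C_zero_zero (k : ℕ) : C 0 0 k = if k = 0 then 1 else 0 := by
  simp [C, P, coeff_one]

lemma C_high (x y : ℕ) : ∀ k, x + y < k → C x y k = 0 := by
  induction x with
  | zero =>
    induction y with
    | zero => intro k hk; rw [C_zero_zero, if_neg (by omega)]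
    | succ y ih =>
      intro k hk
      obtain ⟨k, rfl⟩ : ∃ j, k = j + 1 := ⟨k - 1, by omega⟩
      rw [C_right_succ, ih _ (by omega), ih _ (by omega)]; ring
  | succ x ih =>
    intro k hk
    obtain ⟨k, rfl⟩ : ∃ j, k = j + 1 := ⟨k - 1, by omega⟩
    rw [C_left_succ, ih _ (by omega), ih _ (by omega)]; ring

/-- Reflection. -/
lemma C_refl (x y : ℕ) : ∀ k l, k + l = x + y → C x y k = (-1) ^ x * C x y l := by
  induction x with
  | zero =>
    induction y with
    | zero =>
      intro k l h
      obtain ⟨rfl, rfl⟩ : k = 0 ∧ l = 0 := by omega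
      simp
    | succ y ih =>
      intro k l h
      rcases k with _ | k
      · obtain rfl : l = y + 1 := by omega
        rw [C_right_zero, C_right_succ, C_high 0 y (y + 1) (by omega), ih 0 y (by omega)]; ring
      · rcases l with _ | l
        · obtain rfl : k = y := by omega
          rw [C_right_zero, C_right_succ, C_high 0 k (k + 1) (by omega), ih k 0 (by omega)]; ring
        · rw [C_right_succ, C_right_succ, ih (k + 1) l (by omega), ih k (l + 1) (by omega)]; ring
  | succ x ih =>
    intro k l h
    rcases k with _ | k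
    · obtain rfl : l = x + y + 1 := by omega
      rw [C_left_zero, C_left_succ, C_high x y (x + y + 1) (by omega), ih 0 (x + y) (by omega)]
      ring
    · rcases l with _ | l
      · obtain rfl : k = x + y := by omega
        rw [C_left_zero, C_left_succ, C_high x y (x + y + 1) (by omega), ih (x + y) 0 (by omega)]
        ring
      · rw [C_left_succ, C_left_succ, ih (k + 1) l (by omega), ih k (l + 1) (by omega)]; ring

/-- Homogenisation. -/
lemma homog {R : Type*} [CommRing R] (a b : R) (x y : ℕ) :
    ∑ l ∈ range (x + y + 1), (C x y l : R) * (a ^ l * b ^ (x + y - l)) = (b - a) ^ x * (b + a) ^ y := by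
  -- a general step
  have step : ∀ (f g : ℕ → ℤ) (e : ℤ) (N : ℕ), f (N + 1) = 0 → g 0 = f 0 →
      (∀ l, g (l + 1) = f (l + 1) + e * f l) →
      ∑ l ∈ range (N + 1 + 1), (g l : R) * (a ^ l * b ^ (N + 1 - l)) =
        (b + e * a) * ∑ l ∈ range (N + 1), (f l : R) * (a ^ l * b ^ (N - l)) := by
    intro f g e N h0 h1 h2
    have e1 : ∑ l ∈ range (N + 1 + 1), (g l : R) * (a ^ l * b ^ (N + 1 - l)) =
        ∑ l ∈ range (N + 1 + 1), (f l : R) * (a ^ l * b ^ (N + 1 - l)) +
        e * a * ∑ l ∈ range (N + 1), (f l : R) * (a ^ l * b ^ (N - l)) := by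
      rw [Finset.sum_range_succ' _ (N + 1), Finset.sum_range_succ' _ (N + 1), h1, Finset.mul_sum]
      have : ∀ l ∈ range (N + 1), (g (l + 1) : R) * (a ^ (l + 1) * b ^ (N + 1 - (l + 1))) =
          (f (l + 1) : R) * (a ^ (l + 1) * b ^ (N + 1 - (l + 1))) +
          e * a * ((f l : R) * (a ^ l * b ^ (N - l))) := by
        intro l _
        rw [h2, Nat.add_sub_add_right]
        push_cast
        ring
      rw [Finset.sum_congr rfl this, Finset.sum_add_distrib]
      ring
    have e2 : ∑ l ∈ range (N + 1 + 1), (f l : R) * (a ^ l * b ^ (N + 1 - l)) =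
        b * ∑ l ∈ range (N + 1), (f l : R) * (a ^ l * b ^ (N - l)) := by
      rw [Finset.sum_range_succ, h0, Finset.mul_sum]
      simp only [Int.cast_zero, zero_mul, add_zero]
      refine Finset.sum_congr rfl fun l hl => ?_
      rw [Finset.mem_range] at hl
      rw [show N + 1 - l = (N - l) + 1 by omega, pow_succ]
      ring
    rw [e1, e2]; ring
  induction x with
  | zero =>
    induction y with
    | zero => simp [C_zero_zero]
    | succ y ih =>
      have := step (C 0 y) (C 0 (y + 1)) 1 (0 + y) (C_high 0 y _ (by omega)) (C_right_zero 0 y)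
        (fun l => by rw [C_right_succ]; ring)
      rw [ih] at this
      rw [show (0 + (y + 1)) = 0 + y + 1 by omega, this]
      push_cast
      ring
  | succ x ih =>
    have := step (C x y) (C (x + 1) y) (-1) (x + y) (C_high x y _ (by omega)) (C_left_zero x y)
      (fun l => by rw [C_left_succ]; ring)
    rw [ih] at this
    rw [show (x + 1 + y) = x + y + 1 by omega, this]
    push_cast
    ring

/-- The Krawtchouk matrix is an involution up to scaling. -/
lemma invol (x y z : ℕ) :
    ∑ l ∈ range (x + y + 1), C x y l * C l (x + y - l) z = if z = x then 2 ^ (x + y) else 0 := by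
  have h := homog (R := ℤ[X]) (1 - X) (1 + X) x y
  have h2 : ((1 + X : ℤ[X]) - (1 - X)) ^ x * ((1 + X) + (1 - X)) ^ y =
      Polynomial.C (2 ^ (x + y)) * X ^ x := by
    have : ((1 + X : ℤ[X]) - (1 - X)) = Polynomial.C 2 * X := by
      rw [show (Polynomial.C (2 : ℤ)) = 2 from rfl]; ring
    rw [this, show ((1 + X : ℤ[X]) + (1 - X)) = Polynomial.C 2 by
      rw [show (Polynomial.C (2 : ℤ)) = 2 from rfl]; ring]
    rw [map_pow]
    ring
  rw [h2] at h
  have h3 := congrArg (fun p => Polynomial.coeff p z) h
  simp only [finset_sum_coeff, coeff_C_mul_X_pow] at h3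
  rw [← h3]
  refine Finset.sum_congr rfl fun l _ => ?_
  rw [show ((C x y l : ℤ) : ℤ[X]) = Polynomial.C (C x y l) from rfl, coeff_C_mul]
  rfl

lemma C_zero_left (y k : ℕ) : C 0 y k = (y.choose k : ℤ) := by
  simp [C, P, coeff_one_add_X_pow]

/-- three-term relation in `x` -/
lemma C_rec_x (x y k : ℕ) :
    ((y : ℤ) + 1) * C (x + 2) y k + (x + 1) * C x (y + 2) k =
      (x + y + 2 - 2 * k) * C (x + 1) (y + 1) k := by
  have h : Polynomial.C ((y : ℤ) + 1) * P (x + 2) y + Polynomial.C ((x : ℤ) + 1) * P x (y + 2) =
      Polynomial.C ((x : ℤ) + y + 2) * P (x + 1) (y + 1) -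
      Polynomial.C 2 * (derivative (P (x + 1) (y + 1)) * X) := by
    unfold P
    simp only [derivative_mul, derivative_pow, derivative_sub, derivative_add, derivative_one,
      derivative_X, map_add, map_natCast, map_one, Nat.cast_add, Nat.cast_one, add_tsub_cancel_right]
    rw [show (Polynomial.C (2 : ℤ)) = 2 from rfl]
    ring
  have h2 := congrArg (fun p => Polynomial.coeff p k) h
  simp only [coeff_add, coeff_sub, coeff_C_mul] at h2
  unfold C
  rw [h2]
  cases k with
  | zero => simp
  | succ k =>
    rw [coeff_mul_X, coeff_derivative]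
    push_cast
    ring

/-- three-term relation in `k` -/
lemma C_rec_k (x y k : ℕ) :
    ((k : ℤ) + 2) * C x y (k + 2) - k * C x y k =
      ((y : ℤ) - x) * C x y (k + 1) - (x + y) * C x y k := by
  have h : derivative (P x y) - derivative (P x y) * X * X =
      Polynomial.C ((y : ℤ) - x) * P x y - Polynomial.C ((x : ℤ) + y) * (P x y * X) := by
    unfold P
    rcases x with _ | x <;> rcases y with _ | y <;>
    simp only [derivative_mul, derivative_pow, derivative_sub, derivative_add, derivative_one,
      derivative_X, map_add, map_sub, map_natCast, map_one, Nat.cast_add, Nat.cast_one,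
      add_tsub_cancel_right, pow_zero, Nat.cast_zero, map_zero] <;>
    ring
  have h2 := congrArg (fun p => Polynomial.coeff p (k + 1)) h
  simp only [coeff_sub, coeff_C_mul, coeff_mul_X] at h2
  have h3 : (derivative (P x y) * X).coeff k = k * C x y k := by
    cases k with
    | zero => simp
    | succ k => rw [coeff_mul_X, coeff_derivative]; unfold C; push_cast; ring
  rw [h3, coeff_derivative] at h2
  unfold C at *
  push_cast at h2 ⊢
  linarith

end Pool.Agent.R181.Kraw
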