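import Mathlib
import Pool.Agent.R181.Kraw

/-!
Sums of products of central binomial coefficients over one half of the index range.
-/

set_option autoImplicit false

open Finset

namespace Pool.Agent.R181.Kraw

/-- central values of the symmetric Krawtchouk numbers -/
lemma C_central (i : ℕ) : ∀ j, (-1 : ℤ) ^ i * ((i + j).choose i : ℤ) * C (2 * i) (2 * j) (i + j) =
    (i.centralBinom : ℤ) * (j.centralBinom : ℤ) := by
  induction i with
  | zero =>
    intro j
    simp [C_zero_left, Nat.centralBinom]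
  | succ i ih =>
    intro j
    have h1 := C_rec_x (2 * i) (2 * j) (i + j + 1)
    have h2 := ih (j + 1)
    have h3 := Nat.choose_succ_right_eq (i + j + 1) i
    have h4 := Nat.succ_mul_centralBinom_succ i
    have h5 := Nat.succ_mul_centralBinom_succ j
    rw [show i + j + 1 - i = j + 1 by omega] at h3
    have h3' : ((i + j + 1).choose (i + 1) : ℤ) * (i + 1) = (i + j + 1).choose i * (j + 1) := by
      exact_mod_cast h3
    have h4' : ((i : ℤ) + 1) * (i + 1).centralBinom = 2 * (2 * i + 1) * i.centralBinom := by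
      exact_mod_cast h4
    have h5' : ((j : ℤ) + 1) * (j + 1).centralBinom = 2 * (2 * j + 1) * j.centralBinom := by
      exact_mod_cast h5
    rw [show 2 * (i + 1) = 2 * i + 2 by ring, show i + 1 + j = i + j + 1 by ring]
    rw [show 2 * (j + 1) = 2 * j + 2 by ring, show i + (j + 1) = i + j + 1 by ring] at h2
    push_cast at h1
    have h1' : (2 * (j : ℤ) + 1) * C (2 * i + 2) (2 * j) (i + j + 1) =
        - ((2 * i + 1) * C (2 * i) (2 * j + 2) (i + j + 1)) := by
      linear_combination h1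
    have hne : ((i : ℤ) + 1) * (2 * j + 1) ≠ 0 := by positivity
    apply mul_left_cancel₀ hne
    calc ((i : ℤ) + 1) * (2 * j + 1) * ((-1) ^ (i + 1) * ((i + j + 1).choose (i + 1) : ℤ) *
          C (2 * i + 2) (2 * j) (i + j + 1))
        = (-1) ^ (i + 1) * (((i + j + 1).choose (i + 1) : ℤ) * (i + 1)) *
          ((2 * (j : ℤ) + 1) * C (2 * i + 2) (2 * j) (i + j + 1)) := by ring
      _ = (-1) ^ (i + 1) * (((i + j + 1).choose i : ℤ) * (j + 1)) *
          (- ((2 * i + 1) * C (2 * i) (2 * j + 2) (i + j + 1))) := by rw [h3', h1']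
      _ = (j + 1) * (2 * i + 1) * ((-1) ^ i * ((i + j + 1).choose i : ℤ) *
            C (2 * i) (2 * j + 2) (i + j + 1)) := by ring
      _ = (j + 1) * (2 * i + 1) * ((i.centralBinom : ℤ) * ((j + 1).centralBinom : ℤ)) := by rw [h2]
      _ = (2 * i + 1) * (i.centralBinom : ℤ) * (((j : ℤ) + 1) * (j + 1).centralBinom) := by ring
      _ = (2 * i + 1) * (i.centralBinom : ℤ) * (2 * (2 * j + 1) * j.centralBinom) := by rw [h5']
      _ = (2 * (2 * i + 1) * i.centralBinom) * ((2 * j + 1) * j.centralBinom) := by ring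
      _ = (((i : ℤ) + 1) * (i + 1).centralBinom) * ((2 * j + 1) * j.centralBinom) := by rw [h4']
      _ = _ := by ring

lemma C_even_odd (i j : ℕ) :
    2 * C (2 * i) (2 * j + 1) (i + j) = C (2 * i) (2 * j + 2) (i + j + 1) ∧
    2 * C (2 * i) (2 * j + 1) (i + j + 1) = C (2 * i) (2 * j + 2) (i + j + 1) := by
  have h1 := C_right_succ (2 * i) (2 * j + 1) (i + j)
  have h2 := C_refl (2 * i) (2 * j + 1) (i + j) (i + j + 1) (by ring)
  rw [pow_mul, neg_one_sq, one_pow, one_mul] at h2
  constructor <;> linarith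

lemma C_odd_even (i j : ℕ) :
    2 * C (2 * i + 1) (2 * j) (i + j) = - C (2 * i + 2) (2 * j) (i + j + 1) ∧
    2 * C (2 * i + 1) (2 * j) (i + j + 1) = C (2 * i + 2) (2 * j) (i + j + 1) := by
  have h1 := C_left_succ (2 * i + 1) (2 * j) (i + j)
  have h2 := C_refl (2 * i + 1) (2 * j) (i + j) (i + j + 1) (by ring)
  rw [pow_succ, pow_mul, neg_one_sq, one_pow, one_mul] at h2
  constructor <;> linarith

lemma C_even_even_next (i j : ℕ) :
    ((i : ℤ) + j + 1) * C (2 * i) (2 * j) (i + j + 1) = ((j : ℤ) - i) * C (2 * i) (2 * j) (i + j) := by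
  rcases Nat.eq_zero_or_pos (i + j) with h | h
  · obtain ⟨rfl, rfl⟩ : i = 0 ∧ j = 0 := by omega
    simp [C_zero_zero]
  · obtain ⟨k, hk⟩ : ∃ k, i + j = k + 1 := ⟨i + j - 1, by omega⟩
    have h1 := C_rec_k (2 * i) (2 * j) k
    have h2 := C_refl (2 * i) (2 * j) (k + 2) k (by omega)
    rw [pow_mul, neg_one_sq, one_pow, one_mul] at h2
    have h3 : (i : ℤ) + j = k + 1 := by exact_mod_cast hk
    rw [hk, show k + 1 + 1 = k + 2 by ring]
    push_cast at h1
    rw [h2] at h1 ⊢
    have h5 : 2 * (((i : ℤ) + j + 1) * C (2 * i) (2 * j) k) =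
        2 * (((j : ℤ) - i) * C (2 * i) (2 * j) (k + 1)) := by
      linear_combination h1
    linarith

lemma C_odd_odd_next (i j : ℕ) :
    ((i : ℤ) + j + 2) * C (2 * i + 1) (2 * j + 1) (i + j + 2) =
      (2 * (j : ℤ) + 1) * C (2 * i + 2) (2 * j) (i + j + 1) := by
  have h1 := C_diff_succ (2 * i + 1) (2 * j) (i + j + 1)
  have h2 := (C_odd_even i j).2
  have h3 := C_even_even_next (i + 1) j
  rw [show 2 * (i + 1) = 2 * i + 2 by ring, show i + 1 + j = i + j + 1 by ring] at h3
  rw [show i + j + 1 + 1 = i + j + 2 by ring, show 2 * i + 1 + 1 = 2 * i + 2 by ring] at *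
  push_cast at h3
  have h4 : C (2 * i + 1) (2 * j + 1) (i + j + 2) =
    C (2 * i + 2) (2 * j) (i + j + 2) + C (2 * i + 2) (2 * j) (i + j + 1) := by linarith
  rw [h4]
  linear_combination h3

lemma C_odd_odd (i j : ℕ) : C (2 * i + 1) (2 * j + 1) (i + j + 1) = 0 := by
  have h2 := C_refl (2 * i + 1) (2 * j + 1) (i + j + 1) (i + j + 1) (by ring)
  rw [pow_succ, pow_mul, neg_one_sq, one_pow, one_mul] at h2
  linarith

/-- the middle rows -/
lemma C_mid (m : ℕ) : ∀ i, C m m (2 * i) = (-1) ^ i * (m.choose i : ℤ) ∧ C m m (2 * i + 1) = 0 := by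
  induction m with
  | zero =>
    intro i
    rw [C_zero_zero, C_zero_zero]
    rcases i with _ | i
    · simp
    · simp
  | succ m ih =>
    have key : ∀ k, C (m + 1) (m + 1) (k + 2) = C m m (k + 2) - C m m k := by
      intro k
      rw [C_right_succ, C_left_succ, C_left_succ]; ring
    intro i
    rcases i with _ | i
    · constructor
      · rw [mul_zero, C_right_zero, C_left_zero]
        have := (ih 0).1
        simpa using this
      · rw [mul_zero, C_right_succ, C_left_succ, C_left_zero]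
        have := (ih 0).2
        rw [mul_zero] at this
        rw [this]; ring
    · constructor
      · rw [show 2 * (i + 1) = 2 * i + 2 by ring, key, (ih i).1]
        have := (ih (i + 1)).1
        rw [show 2 * (i + 1) = 2 * i + 2 by ring] at this
        rw [this, Nat.choose_succ_succ]
        push_cast
        ring
      · rw [show 2 * (i + 1) + 1 = 2 * i + 1 + 2 by ring, key, (ih i).2]
        have := (ih (i + 1)).2
        rw [show 2 * (i + 1) + 1 = 2 * i + 1 + 2 by ring] at this
        rw [this]; ring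

lemma C_mid_right (m i : ℕ) : C m (m + 1) (2 * i) = (-1) ^ i * (m.choose i : ℤ) ∧
    C m (m + 1) (2 * i + 1) = (-1) ^ i * (m.choose i : ℤ) := by
  constructor
  · rcases i with _ | i
    · rw [mul_zero, C_right_zero]; simpa using (C_mid m 0).1
    · rw [show 2 * (i + 1) = 2 * i + 1 + 1 by ring, C_right_succ, (C_mid m i).2,
        show 2 * i + 1 + 1 = 2 * (i + 1) by ring, (C_mid m (i + 1)).1]; ring
  · rw [C_right_succ, (C_mid m i).1, (C_mid m i).2]; ring

lemma C_mid_left (m i : ℕ) : C (m + 1) m (2 * i) = (-1) ^ i * (m.choose i : ℤ) ∧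
    C (m + 1) m (2 * i + 1) = - ((-1) ^ i * (m.choose i : ℤ)) := by
  constructor
  · rcases i with _ | i
    · rw [mul_zero, C_left_zero]; simpa using (C_mid m 0).1
    · rw [show 2 * (i + 1) = 2 * i + 1 + 1 by ring, C_left_succ, (C_mid m i).2,
        show 2 * i + 1 + 1 = 2 * (i + 1) by ring, (C_mid m (i + 1)).1]; ring
  · rw [C_left_succ, (C_mid m i).1, (C_mid m i).2]; ring

/-! ### half sums -/

/-- the products of central binomial coefficients -/
def t (m i : ℕ) : ℚ := (i.centralBinom : ℚ) * ((m - i).centralBinom : ℚ)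

/-- `t` through the Krawtchouk numbers -/
lemma t_eq (m i : ℕ) (h : i ≤ m) :
    t m i = (-1) ^ i * (m.choose i : ℚ) * (C (2 * i) (2 * (m - i)) m : ℚ) := by
  obtain ⟨j, rfl⟩ := Nat.exists_eq_add_of_le h
  have := C_central i j
  rw [Nat.add_sub_cancel_left, t, Nat.add_sub_cancel_left]
  exact_mod_cast this.symm

lemma t_symm (m i : ℕ) (h : i ≤ m) : t m (m - i) = t m i := by
  unfold t; rw [Nat.sub_sub_self h]; ring

lemma t_rec (m i : ℕ) (h : i < m) :
    ((i : ℚ) + 1) * (2 * m - 2 * i - 1) * t m (i + 1) = (2 * i + 1) * (m - i) * t m i := by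
  obtain ⟨j, rfl⟩ : ∃ j, m = i + 1 + j := ⟨m - i - 1, by omega⟩
  have h4 := Nat.succ_mul_centralBinom_succ i
  have h5 := Nat.succ_mul_centralBinom_succ j
  have h4' : ((i : ℚ) + 1) * (i + 1).centralBinom = 2 * (2 * i + 1) * i.centralBinom := by
    exact_mod_cast h4
  have h5' : ((j : ℚ) + 1) * (j + 1).centralBinom = 2 * (2 * j + 1) * j.centralBinom := by
    exact_mod_cast h5
  unfold t
  rw [Nat.add_sub_cancel_left, show i + 1 + j - i = j + 1 by omega]
  push_cast
  linear_combination (2 * (j : ℚ) + 1) * (j.centralBinom : ℚ) * h4' -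
    (2 * (i : ℚ) + 1) * (i.centralBinom : ℚ) * h5'

lemma sum_even_odd {M : Type*} [AddCommMonoid M] (f : ℕ → M) (k : ℕ) :
    ∑ l ∈ range (2 * k), f l = ∑ i ∈ range k, f (2 * i) + ∑ i ∈ range k, f (2 * i + 1) := by
  induction k with
  | zero => simp
  | succ k ih =>
    rw [show 2 * (k + 1) = 2 * k + 1 + 1 by ring, Finset.sum_range_succ, Finset.sum_range_succ, ih,
      Finset.sum_range_succ, Finset.sum_range_succ]
    abel

lemma sum_even_odd' {M : Type*} [AddCommMonoid M] (f : ℕ → M) (k : ℕ) :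
    ∑ l ∈ range (2 * k + 1), f l =
      ∑ i ∈ range (k + 1), f (2 * i) + ∑ i ∈ range k, f (2 * i + 1) := by
  rw [Finset.sum_range_succ, sum_even_odd, Finset.sum_range_succ _ k]
  abel

lemma t_total (m : ℕ) : ∑ i ∈ range (m + 1), t m i = 4 ^ m := by
  have h := invol m m m
  rw [if_pos rfl, show m + m = 2 * m by ring, sum_even_odd'] at h
  have h2 : ∑ i ∈ range m, C m m (2 * i + 1) * C (2 * i + 1) (2 * m - (2 * i + 1)) m = 0 := by
    refine Finset.sum_eq_zero fun i _ => ?_
    rw [(C_mid m i).2, zero_mul]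
  rw [h2, add_zero] at h
  have h3 : ((∑ i ∈ range (m + 1), C m m (2 * i) * C (2 * i) (2 * m - 2 * i) m : ℤ) : ℚ) =
      ((2 ^ (2 * m) : ℤ) : ℚ) := by rw [h]
  push_cast at h3
  rw [show (4 : ℚ) ^ m = 2 ^ (2 * m) by rw [pow_mul]; norm_num, ← h3]
  refine Finset.sum_congr rfl fun i hi => ?_
  rw [Finset.mem_range] at hi
  rw [t_eq m i (by omega), (C_mid m i).1, Nat.mul_sub]
  push_cast
  ring

/-- upper half sum -/
def S (m : ℕ) : ℚ := ∑ i ∈ range (m + 1), if m < 2 * i then t m i else 0
/-- middle term -/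
def Ev (m : ℕ) : ℚ := ∑ i ∈ range (m + 1), if m = 2 * i then t m i else 0
/-- first moment of the upper half -/
def W (m : ℕ) : ℚ := ∑ i ∈ range (m + 1), if m < 2 * i then (2 * (i : ℚ) - m) * t m i else 0

lemma two_S (m : ℕ) : 2 * S m + Ev m = 4 ^ m := by
  have h1 : S m = ∑ i ∈ range (m + 1), if 2 * i < m then t m i else 0 := by
    unfold S
    rw [← Finset.sum_range_reflect]
    refine Finset.sum_congr rfl fun i hi => ?_
    rw [Finset.mem_range] at hi
    rw [show m + 1 - 1 - i = m - i by omega, t_symm m i (by omega)]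
    by_cases h : 2 * i < m
    · rw [if_pos (by omega), if_pos h]
    · rw [if_neg (by omega), if_neg h]
  rw [two_mul]
  nth_rewrite 1 [h1]
  unfold S Ev
  rw [← t_total, ← Finset.sum_add_distrib, ← Finset.sum_add_distrib]
  refine Finset.sum_congr rfl fun i _ => ?_
  rcases lt_trichotomy m (2 * i) with h | h | h
  · rw [if_neg (by omega), if_pos h, if_neg (by omega)]; ring
  · rw [if_neg (by omega), if_neg (by omega), if_pos h]; ring
  · rw [if_pos h, if_neg (by omega), if_neg (by omega)]; ring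

lemma Ev_even (p : ℕ) : Ev (2 * p) = (p.centralBinom : ℚ) ^ 2 := by
  unfold Ev
  rw [Finset.sum_eq_single p]
  · rw [if_pos rfl, t, show 2 * p - p = p by omega]; ring
  · intro b _ hb
    rw [if_neg (by omega)]
  · intro h
    exact absurd (Finset.mem_range.mpr (by omega)) h

lemma Ev_odd (p : ℕ) : Ev (2 * p + 1) = 0 := by
  unfold Ev
  refine Finset.sum_eq_zero fun i _ => ?_
  rw [if_neg (by omega)]

lemma tele (m i0 : ℕ) : ∀ k, i0 ≤ k → k ≤ m →
    ∑ i ∈ range (k + 1), (if i0 ≤ i then (2 * (i : ℚ) - m) * t m i else 0) =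
      i0 * (2 * m - 2 * i0 + 1) * t m i0 - (2 * k + 1) * (m - k) * t m k := by
  intro k hk
  induction k, hk using Nat.le_induction with
  | base =>
    intro _
    rw [Finset.sum_range_succ, if_pos le_rfl, Finset.sum_eq_zero]
    · ring
    · intro i hi
      rw [Finset.mem_range] at hi
      rw [if_neg (by omega)]
  | succ k hk ih =>
    intro hkm
    rw [Finset.sum_range_succ, ih (by omega), if_pos (by omega)]
    have := t_rec m k (by omega)
    push_cast
    linear_combination this

lemma W_eq (m i0 : ℕ) (h : i0 ≤ m) (h0 : ∀ i, i0 ≤ i ↔ m < 2 * i ∨ (m = 2 * i)) :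
    W m = i0 * (2 * m - 2 * i0 + 1) * t m i0 := by
  have h1 := tele m i0 m h le_rfl
  unfold W
  rw [sub_self, mul_zero, zero_mul, sub_zero] at h1
  rw [← h1]
  refine Finset.sum_congr rfl fun i _ => ?_
  rcases lt_trichotomy m (2 * i) with h | h | h
  · rw [if_pos h, if_pos ((h0 i).2 (Or.inl h))]
  · rw [if_neg (by omega), if_pos ((h0 i).2 (Or.inr h)), h]; push_cast; ring
  · rw [if_neg (by omega), if_neg (by rw [h0 i]; omega)]

lemma W_even (p : ℕ) : W (2 * p) = p * (2 * p + 1) * (p.centralBinom : ℚ) ^ 2 := by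
  rw [W_eq (2 * p) p (by omega) (by intro i; omega), t, show 2 * p - p = p by omega]
  push_cast; ring

lemma W_odd (p : ℕ) : W (2 * p + 1) =
    (p + 1) * (2 * p + 1) * ((p.centralBinom : ℚ) * ((p + 1).centralBinom : ℚ)) := by
  rw [W_eq (2 * p + 1) (p + 1) (by omega) (by intro i; omega), t,
    show 2 * p + 1 - (p + 1) = p by omega]
  push_cast; ring

end Pool.Agent.R181.Kraw
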