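import Mathlib
import Pool.Agent.R181.KrawSum

/-!
Evaluation of the central truncated Krawtchouk sums.
-/

set_option autoImplicit false

open Finset

namespace Pool.Agent.R181.Kraw

/-- truncated sum of products of Krawtchouk numbers -/
noncomputable def gs (n q c d : ℕ) : ℚ :=
  ∑ l ∈ range n, if n ≤ q + 1 + l then (C c (n - c) (l + 1) : ℚ) * (C l (n - 1 - l) d : ℚ) else 0

lemma S_shift (m : ℕ) : S m = ∑ i ∈ range m, if m ≤ 2 * i + 1 then t m (i + 1) else 0 := by
  unfold S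
  rw [Finset.sum_range_succ', if_neg (by omega), add_zero]
  refine Finset.sum_congr rfl fun i _ => ?_
  by_cases h : m ≤ 2 * i + 1
  · rw [if_pos h, if_pos (by omega)]
  · rw [if_neg h, if_neg (by omega)]

lemma W_shift (m : ℕ) : W m = ∑ i ∈ range m,
    if m ≤ 2 * i + 1 then (2 * ((i : ℚ) + 1) - m) * t m (i + 1) else 0 := by
  unfold W
  rw [Finset.sum_range_succ', if_neg (by omega), add_zero]
  refine Finset.sum_congr rfl fun i _ => ?_
  by_cases h : m ≤ 2 * i + 1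
  · rw [if_pos h, if_pos (by omega)]; push_cast; ring
  · rw [if_neg h, if_neg (by omega)]

lemma SE (m : ℕ) : S m + Ev m = ∑ i ∈ range (m + 1), if m ≤ 2 * i then t m i else 0 := by
  unfold S Ev
  rw [← Finset.sum_add_distrib]
  refine Finset.sum_congr rfl fun i _ => ?_
  rcases lt_trichotomy m (2 * i) with h | h | h
  · rw [if_pos h, if_neg (by omega), if_pos (by omega)]; ring
  · rw [if_neg (by omega), if_pos h, if_pos (by omega)]; ring
  · rw [if_neg (by omega), if_neg (by omega), if_neg (by omega)]; ring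

lemma W_full (m : ℕ) : W m = ∑ i ∈ range (m + 1), if m ≤ 2 * i then (2 * (i : ℚ) - m) * t m i else 0 := by
  unfold W
  refine Finset.sum_congr rfl fun i _ => ?_
  rcases lt_trichotomy m (2 * i) with h | h | h
  · rw [if_pos h, if_pos (by omega)]
  · rw [if_neg (by omega), if_pos (by omega), h]; push_cast; ring
  · rw [if_neg (by omega), if_neg (by omega)]

lemma A1 (m i : ℕ) (h : i ≤ m) : ((m : ℚ) + 1) * (C (2 * i) (2 * (m - i)) (m + 1) : ℚ) =
    (m - 2 * i) * (C (2 * i) (2 * (m - i)) m : ℚ) := by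
  obtain ⟨j, rfl⟩ := Nat.exists_eq_add_of_le h
  have := C_even_even_next i j
  rw [Nat.add_sub_cancel_left]
  have h2 : ((i : ℚ) + j + 1) * (C (2 * i) (2 * j) (i + j + 1) : ℚ) =
    ((j : ℚ) - i) * (C (2 * i) (2 * j) (i + j) : ℚ) := by exact_mod_cast this
  push_cast
  linear_combination h2

lemma A2 (m i : ℕ) (h : i < m) : C (2 * i + 1) (2 * (m - i - 1) + 1) m = 0 := by
  obtain ⟨j, rfl⟩ : ∃ j, m = i + j + 1 := ⟨m - i - 1, by omega⟩
  rw [show i + j + 1 - i - 1 = j by omega]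
  exact C_odd_odd i j

lemma A3 (m i : ℕ) (h : i < m) :
    ((m : ℚ) + 1) * (C (2 * i + 1) (2 * (m - i - 1) + 1) (m + 1) : ℚ) =
    (2 * m - 2 * i - 1) * (C (2 * (i + 1)) (2 * (m - (i + 1))) m : ℚ) := by
  obtain ⟨j, rfl⟩ : ∃ j, m = i + j + 1 := ⟨m - i - 1, by omega⟩
  rw [show i + j + 1 - i - 1 = j by omega, show i + j + 1 - (i + 1) = j by omega]
  have := C_odd_odd_next i j
  have h2 : ((i : ℚ) + j + 2) * (C (2 * i + 1) (2 * j + 1) (i + j + 2) : ℚ) =
      (2 * (j : ℚ) + 1) * (C (2 * i + 2) (2 * j) (i + j + 1) : ℚ) := by exact_mod_cast this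
  rw [show 2 * (i + 1) = 2 * i + 2 by ring, show i + j + 1 + 1 = i + j + 2 by ring]
  push_cast
  linear_combination h2

/-! odd order -/

lemma gs_odd_ul (m : ℕ) : gs (2 * m + 1) m m m = S m + Ev m := by
  unfold gs
  rw [sum_even_odd', SE]
  have h2 : ∀ i ∈ range m, (if 2 * m + 1 ≤ m + 1 + (2 * i + 1) then
      (C m (2 * m + 1 - m) (2 * i + 1 + 1) : ℚ) *
        (C (2 * i + 1) (2 * m + 1 - 1 - (2 * i + 1)) m : ℚ) else 0) = 0 := by
    intro i hi
    rw [Finset.mem_range] at hi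
    rw [show 2 * m + 1 - 1 - (2 * i + 1) = 2 * (m - i - 1) + 1 by omega, A2 m i hi]
    simp
  rw [Finset.sum_eq_zero h2, add_zero]
  refine Finset.sum_congr rfl fun i hi => ?_
  rw [Finset.mem_range] at hi
  by_cases h : m ≤ 2 * i
  · rw [if_pos h, if_pos (by omega), show 2 * m + 1 - m = m + 1 by omega, (C_mid_right m i).2,
      show 2 * m + 1 - 1 - 2 * i = 2 * (m - i) by omega, t_eq m i (by omega)]
    push_cast; ring
  · rw [if_neg h, if_neg (by omega)]

lemma gs_odd_ll (m : ℕ) : gs (2 * m + 1) m (m + 1) m = - (S m + Ev m) := by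
  unfold gs
  rw [sum_even_odd', SE]
  have h2 : ∀ i ∈ range m, (if 2 * m + 1 ≤ m + 1 + (2 * i + 1) then
      (C (m + 1) (2 * m + 1 - (m + 1)) (2 * i + 1 + 1) : ℚ) *
        (C (2 * i + 1) (2 * m + 1 - 1 - (2 * i + 1)) m : ℚ) else 0) = 0 := by
    intro i hi
    rw [Finset.mem_range] at hi
    rw [show 2 * m + 1 - 1 - (2 * i + 1) = 2 * (m - i - 1) + 1 by omega, A2 m i hi]
    simp
  rw [Finset.sum_eq_zero h2, add_zero, ← Finset.sum_neg_distrib]
  refine Finset.sum_congr rfl fun i hi => ?_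
  rw [Finset.mem_range] at hi
  by_cases h : m ≤ 2 * i
  · rw [if_pos h, if_pos (by omega), show 2 * m + 1 - (m + 1) = m by omega, (C_mid_left m i).2,
      show 2 * m + 1 - 1 - 2 * i = 2 * (m - i) by omega, t_eq m i (by omega)]
    push_cast; ring
  · rw [if_neg h, if_neg (by omega), neg_zero]

lemma gs_odd_lr (m : ℕ) : gs (2 * m + 1) m (m + 1) (m + 1) = S m := by
  have hm : (m : ℚ) + 1 ≠ 0 := by positivity
  apply mul_left_cancel₀ hm
  unfold gs
  rw [sum_even_odd', mul_add, Finset.mul_sum, Finset.mul_sum]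
  have e1 : ∀ i ∈ range (m + 1), ((m : ℚ) + 1) * (if 2 * m + 1 ≤ m + 1 + 2 * i then
      (C (m + 1) (2 * m + 1 - (m + 1)) (2 * i + 1) : ℚ) *
        (C (2 * i) (2 * m + 1 - 1 - 2 * i) (m + 1) : ℚ) else 0) =
      if m ≤ 2 * i then (2 * (i : ℚ) - m) * t m i else 0 := by
    intro i hi
    rw [Finset.mem_range] at hi
    by_cases h : m ≤ 2 * i
    · rw [if_pos h, if_pos (by omega), show 2 * m + 1 - (m + 1) = m by omega, (C_mid_left m i).2,
        show 2 * m + 1 - 1 - 2 * i = 2 * (m - i) by omega, t_eq m i (by omega)]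
      have := A1 m i (by omega)
      push_cast
      linear_combination (- ((-1) ^ i * (m.choose i : ℚ))) * this
    · rw [if_neg h, if_neg (by omega), mul_zero]
  have e2 : ∀ i ∈ range m, ((m : ℚ) + 1) * (if 2 * m + 1 ≤ m + 1 + (2 * i + 1) then
      (C (m + 1) (2 * m + 1 - (m + 1)) (2 * i + 1 + 1) : ℚ) *
        (C (2 * i + 1) (2 * m + 1 - 1 - (2 * i + 1)) (m + 1) : ℚ) else 0) =
      if m ≤ 2 * i + 1 then (2 * (m : ℚ) - 2 * i - 1) * t m (i + 1) else 0 := by
    intro i hi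
    rw [Finset.mem_range] at hi
    by_cases h : m ≤ 2 * i + 1
    · rw [if_pos h, if_pos (by omega), show 2 * m + 1 - (m + 1) = m by omega,
        show 2 * i + 1 + 1 = 2 * (i + 1) by ring, (C_mid_left m (i + 1)).1,
        show 2 * m + 1 - 1 - (2 * i + 1) = 2 * (m - i - 1) + 1 by omega, t_eq m (i + 1) (by omega)]
      have := A3 m i hi
      push_cast
      linear_combination (((-1) ^ (i + 1) * (m.choose (i + 1) : ℚ))) * this
    · rw [if_neg h, if_neg (by omega), mul_zero]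
  rw [Finset.sum_congr rfl e1, Finset.sum_congr rfl e2, ← W_full, W_shift, S_shift,
    Finset.mul_sum, ← Finset.sum_add_distrib]
  refine Finset.sum_congr rfl fun i _ => ?_
  by_cases h : m ≤ 2 * i + 1
  · rw [if_pos h, if_pos h, if_pos h]; ring
  · rw [if_neg h, if_neg h, if_neg h]; ring

lemma gs_odd_ur (m : ℕ) : gs (2 * m + 1) m m (m + 1) = S m - 2 * W m / (m + 1) := by
  have hm : (m : ℚ) + 1 ≠ 0 := by positivity
  apply mul_left_cancel₀ hm
  rw [mul_sub, mul_div_cancel₀ _ hm]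
  unfold gs
  rw [sum_even_odd', mul_add, Finset.mul_sum, Finset.mul_sum]
  have e1 : ∀ i ∈ range (m + 1), ((m : ℚ) + 1) * (if 2 * m + 1 ≤ m + 1 + 2 * i then
      (C m (2 * m + 1 - m) (2 * i + 1) : ℚ) *
        (C (2 * i) (2 * m + 1 - 1 - 2 * i) (m + 1) : ℚ) else 0) =
      - (if m ≤ 2 * i then (2 * (i : ℚ) - m) * t m i else 0) := by
    intro i hi
    rw [Finset.mem_range] at hi
    by_cases h : m ≤ 2 * i
    · rw [if_pos h, if_pos (by omega), show 2 * m + 1 - m = m + 1 by omega, (C_mid_right m i).2,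
        show 2 * m + 1 - 1 - 2 * i = 2 * (m - i) by omega, t_eq m i (by omega)]
      have := A1 m i (by omega)
      push_cast
      linear_combination (((-1) ^ i * (m.choose i : ℚ))) * this
    · rw [if_neg h, if_neg (by omega), mul_zero, neg_zero]
  have e2 : ∀ i ∈ range m, ((m : ℚ) + 1) * (if 2 * m + 1 ≤ m + 1 + (2 * i + 1) then
      (C m (2 * m + 1 - m) (2 * i + 1 + 1) : ℚ) *
        (C (2 * i + 1) (2 * m + 1 - 1 - (2 * i + 1)) (m + 1) : ℚ) else 0) =
      if m ≤ 2 * i + 1 then (2 * (m : ℚ) - 2 * i - 1) * t m (i + 1) else 0 := by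
    intro i hi
    rw [Finset.mem_range] at hi
    by_cases h : m ≤ 2 * i + 1
    · rw [if_pos h, if_pos (by omega), show 2 * m + 1 - m = m + 1 by omega,
        show 2 * i + 1 + 1 = 2 * (i + 1) by ring, (C_mid_right m (i + 1)).1,
        show 2 * m + 1 - 1 - (2 * i + 1) = 2 * (m - i - 1) + 1 by omega, t_eq m (i + 1) (by omega)]
      have := A3 m i hi
      push_cast
      linear_combination (((-1) ^ (i + 1) * (m.choose (i + 1) : ℚ))) * this
    · rw [if_neg h, if_neg (by omega), mul_zero]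
  rw [Finset.sum_congr rfl e1, Finset.sum_congr rfl e2, Finset.sum_neg_distrib, ← W_full, W_shift,
    S_shift, Finset.mul_sum, Finset.mul_sum, ← Finset.sum_neg_distrib, ← Finset.sum_add_distrib,
    ← Finset.sum_sub_distrib]
  refine Finset.sum_congr rfl fun i _ => ?_
  by_cases h : m ≤ 2 * i + 1
  · rw [if_pos h, if_pos h, if_pos h]; ring
  · rw [if_neg h, if_neg h, if_neg h]; ring

/-! even order `2 u + 2`, `m = u + 1` -/

lemma B1 (u i : ℕ) (h : i ≤ u) :
    2 * (C (2 * i) (2 * (u - i) + 1) u : ℚ) = (C (2 * i) (2 * (u + 1 - i)) (u + 1) : ℚ) ∧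
    2 * (C (2 * i) (2 * (u - i) + 1) (u + 1) : ℚ) = (C (2 * i) (2 * (u + 1 - i)) (u + 1) : ℚ) := by
  obtain ⟨j, rfl⟩ := Nat.exists_eq_add_of_le h
  rw [Nat.add_sub_cancel_left, show i + j + 1 - i = j + 1 by omega,
    show 2 * (j + 1) = 2 * j + 2 by ring]
  constructor
  · exact_mod_cast (C_even_odd i j).1
  · exact_mod_cast (C_even_odd i j).2

lemma B2 (u i : ℕ) (h : i ≤ u) :
    2 * (C (2 * i + 1) (2 * (u - i)) u : ℚ) = - (C (2 * (i + 1)) (2 * (u - i)) (u + 1) : ℚ) ∧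
    2 * (C (2 * i + 1) (2 * (u - i)) (u + 1) : ℚ) =
      (C (2 * (i + 1)) (2 * (u - i)) (u + 1) : ℚ) := by
  obtain ⟨j, rfl⟩ := Nat.exists_eq_add_of_le h
  rw [Nat.add_sub_cancel_left, show 2 * (i + 1) = 2 * i + 2 by ring]
  constructor
  · exact_mod_cast (C_odd_even i j).1
  · exact_mod_cast (C_odd_even i j).2

lemma ch1 (u i : ℕ) (h : i ≤ u) : ((u : ℚ) + 1) * (u.choose i : ℚ) = (u + 1 - i) * ((u + 1).choose i : ℚ) := by
  have h1 := Nat.choose_mul_succ_eq u i
  have h2 : ((u.choose i * (u + 1) : ℕ) : ℚ) = (((u + 1).choose i * (u + 1 - i) : ℕ) : ℚ) := by rw [h1]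
  rw [Nat.cast_mul, Nat.cast_mul, Nat.cast_sub (by omega)] at h2
  push_cast at h2
  linear_combination h2

lemma ch2 (u i : ℕ) : ((u : ℚ) + 1) * (u.choose i : ℚ) = (i + 1) * ((u + 1).choose (i + 1) : ℚ) := by
  have h1 := Nat.add_one_mul_choose_eq u i
  have h2 : (((u + 1) * u.choose i : ℕ) : ℚ) = (((u + 1).choose (i + 1) * (i + 1) : ℕ) : ℚ) := by rw [h1]
  push_cast at h2
  linear_combination h2

lemma gs_even_ll (u : ℕ) : gs (2 * u + 2) u (u + 1) u = - (S (u + 1) / 2) := by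
  unfold gs
  rw [show 2 * u + 2 = 2 * (u + 1) by ring, sum_even_odd, S_shift]
  have h2 : ∀ i ∈ range (u + 1), (if 2 * (u + 1) ≤ u + 1 + 2 * i then
      (C (u + 1) (2 * (u + 1) - (u + 1)) (2 * i + 1) : ℚ) *
        (C (2 * i) (2 * (u + 1) - 1 - 2 * i) u : ℚ) else 0) = 0 := by
    intro i hi
    rw [show 2 * (u + 1) - (u + 1) = u + 1 by omega, (C_mid (u + 1) i).2]
    simp
  rw [Finset.sum_eq_zero h2, zero_add, Finset.sum_div, ← Finset.sum_neg_distrib]
  refine Finset.sum_congr rfl fun i hi => ?_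
  rw [Finset.mem_range] at hi
  by_cases h : u + 1 ≤ 2 * i + 1
  · rw [if_pos h, if_pos (by omega), show 2 * (u + 1) - (u + 1) = u + 1 by omega,
      show 2 * i + 1 + 1 = 2 * (i + 1) by ring, (C_mid (u + 1) (i + 1)).1,
      show 2 * (u + 1) - 1 - (2 * i + 1) = 2 * (u - i) by omega, t_eq (u + 1) (i + 1) (by omega), Nat.add_sub_add_right]
    have := (B2 u i (by omega)).1
    push_cast
    linear_combination (((-1) ^ (i + 1) * ((u + 1).choose (i + 1) : ℚ))) / 2 * this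
  · rw [if_neg h, if_neg (by omega)]; ring

lemma gs_even_lr (u : ℕ) : gs (2 * u + 2) u (u + 1) (u + 1) = S (u + 1) / 2 := by
  unfold gs
  rw [show 2 * u + 2 = 2 * (u + 1) by ring, sum_even_odd, S_shift]
  have h2 : ∀ i ∈ range (u + 1), (if 2 * (u + 1) ≤ u + 1 + 2 * i then
      (C (u + 1) (2 * (u + 1) - (u + 1)) (2 * i + 1) : ℚ) *
        (C (2 * i) (2 * (u + 1) - 1 - 2 * i) (u + 1) : ℚ) else 0) = 0 := by
    intro i hi
    rw [show 2 * (u + 1) - (u + 1) = u + 1 by omega, (C_mid (u + 1) i).2]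
    simp
  rw [Finset.sum_eq_zero h2, zero_add, Finset.sum_div]
  refine Finset.sum_congr rfl fun i hi => ?_
  rw [Finset.mem_range] at hi
  by_cases h : u + 1 ≤ 2 * i + 1
  · rw [if_pos h, if_pos (by omega), show 2 * (u + 1) - (u + 1) = u + 1 by omega,
      show 2 * i + 1 + 1 = 2 * (i + 1) by ring, (C_mid (u + 1) (i + 1)).1,
      show 2 * (u + 1) - 1 - (2 * i + 1) = 2 * (u - i) by omega, t_eq (u + 1) (i + 1) (by omega), Nat.add_sub_add_right]
    have := (B2 u i (by omega)).2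
    push_cast
    linear_combination (((-1) ^ (i + 1) * ((u + 1).choose (i + 1) : ℚ))) / 2 * this
  · rw [if_neg h, if_neg (by omega)]; ring

/-- the column just left of the middle, as a rational identity -/
lemma C_left_col (u l : ℕ) : (C u (u + 2) (l + 1) : ℚ) = C (u + 1) (u + 1) (l + 1) + 2 * C u (u + 1) l := by
  have := C_diff_succ u (u + 1) l
  have h : C u (u + 2) (l + 1) = C (u + 1) (u + 1) (l + 1) + 2 * C u (u + 1) l := by
    rw [show u + 1 + 1 = u + 2 by ring] at this; linarith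
  exact_mod_cast h

lemma even_aux (u d : ℕ) (e : ℚ)
    (hB1 : ∀ i, i ≤ u → 2 * (C (2 * i) (2 * (u - i) + 1) d : ℚ) =
      (C (2 * i) (2 * (u + 1 - i)) (u + 1) : ℚ))
    (hB2 : ∀ i, i ≤ u → 2 * (C (2 * i + 1) (2 * (u - i)) d : ℚ) =
      e * (C (2 * (i + 1)) (2 * (u - i)) (u + 1) : ℚ)) :
    2 * ((u : ℚ) + 1) * gs (2 * u + 2) u u d =
      ((u + 1) * (S (u + 1) + Ev (u + 1)) - W (u + 1)) - e * W (u + 1) := by
  unfold gs
  rw [show 2 * u + 2 = 2 * (u + 1) by ring, sum_even_odd, mul_add, Finset.mul_sum, Finset.mul_sum]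
  have e1 : ∀ i ∈ range (u + 1), 2 * ((u : ℚ) + 1) * (if 2 * (u + 1) ≤ u + 1 + 2 * i then
      (C u (2 * (u + 1) - u) (2 * i + 1) : ℚ) *
        (C (2 * i) (2 * (u + 1) - 1 - 2 * i) d : ℚ) else 0) =
      if u + 1 ≤ 2 * i then 2 * (((u : ℚ) + 1 - i) * t (u + 1) i) else 0 := by
    intro i hi
    rw [Finset.mem_range] at hi
    by_cases h : u + 1 ≤ 2 * i
    · rw [if_pos h, if_pos (by omega), show 2 * (u + 1) - u = u + 2 by omega, C_left_col,
        (C_mid (u + 1) i).2, (C_mid_right u i).1,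
        show 2 * (u + 1) - 1 - 2 * i = 2 * (u - i) + 1 by omega, t_eq (u + 1) i (by omega)]
      have h1 := hB1 i (by omega)
      have h2 := ch1 u i (by omega)
      push_cast
      linear_combination (2 * (-1) ^ i * (((u : ℚ) + 1) * (u.choose i : ℚ))) * h1 +
        (2 * (-1) ^ i * (C (2 * i) (2 * (u + 1 - i)) (u + 1) : ℚ)) * h2
    · rw [if_neg h, if_neg (by omega), mul_zero]
  have e2 : ∀ i ∈ range (u + 1), 2 * ((u : ℚ) + 1) * (if 2 * (u + 1) ≤ u + 1 + (2 * i + 1) then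
      (C u (2 * (u + 1) - u) (2 * i + 1 + 1) : ℚ) *
        (C (2 * i + 1) (2 * (u + 1) - 1 - (2 * i + 1)) d : ℚ) else 0) =
      - (e * (if u + 1 ≤ 2 * i + 1 then (2 * ((i : ℚ) + 1) - (u + 1 : ℕ)) * t (u + 1) (i + 1) else 0)) := by
    intro i hi
    rw [Finset.mem_range] at hi
    by_cases h : u + 1 ≤ 2 * i + 1
    · rw [if_pos h, if_pos (by omega), show 2 * (u + 1) - u = u + 2 by omega, C_left_col,
        (C_mid_right u i).2, show 2 * i + 1 + 1 = 2 * (i + 1) by ring, (C_mid (u + 1) (i + 1)).1,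
        show 2 * (u + 1) - 1 - (2 * i + 1) = 2 * (u - i) by omega, t_eq (u + 1) (i + 1) (by omega), Nat.add_sub_add_right]
      have h1 := hB2 i (by omega)
      have h2 := ch2 u i
      push_cast
      linear_combination (((u : ℚ) + 1) * ((-1) ^ (i + 1) * ((u + 1).choose (i + 1) : ℚ) +
          2 * ((-1) ^ i * (u.choose i : ℚ)))) * h1 +
        (2 * (-1) ^ i * e * (C (2 * (i + 1)) (2 * (u - i)) (u + 1) : ℚ)) * h2
    · rw [if_neg h, if_neg (by omega)]; ring
  rw [Finset.sum_congr rfl e1, Finset.sum_congr rfl e2, Finset.sum_neg_distrib, ← Finset.mul_sum,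
    ← W_shift]
  have e3 : ∑ i ∈ range (u + 1), (if u + 1 ≤ 2 * i then 2 * (((u : ℚ) + 1 - i) * t (u + 1) i) else 0) =
      (u + 1) * (S (u + 1) + Ev (u + 1)) - W (u + 1) := by
    rw [SE, W_full, Finset.mul_sum, ← Finset.sum_sub_distrib, Finset.sum_range_succ _ (u + 1)]
    have : ((u : ℚ) + 1) * (if u + 1 ≤ 2 * (u + 1) then t (u + 1) (u + 1) else 0) -
        (if u + 1 ≤ 2 * (u + 1) then (2 * ((u + 1 : ℕ) : ℚ) - (u + 1 : ℕ)) * t (u + 1) (u + 1) else 0)
        = 0 := by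
      rw [if_pos (by omega), if_pos (by omega)]; push_cast; ring
    rw [this, add_zero]
    refine Finset.sum_congr rfl fun i _ => ?_
    by_cases h : u + 1 ≤ 2 * i
    · rw [if_pos h, if_pos h, if_pos h]; push_cast; ring
    · rw [if_neg h, if_neg h, if_neg h]; ring
  rw [e3]
  ring

lemma gs_even_ul (u : ℕ) : gs (2 * u + 2) u u u = (S (u + 1) + Ev (u + 1)) / 2 := by
  have h := even_aux u u (-1) (fun i hi => (B1 u i hi).1)
    (fun i hi => by rw [(B2 u i hi).1]; ring)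
  have hm : 2 * ((u : ℚ) + 1) ≠ 0 := by positivity
  apply mul_left_cancel₀ hm
  rw [h]; ring

lemma gs_even_ur (u : ℕ) : gs (2 * u + 2) u u (u + 1) =
    (S (u + 1) + Ev (u + 1)) / 2 - W (u + 1) / (u + 1) := by
  have h := even_aux u (u + 1) 1 (fun i hi => (B1 u i hi).2)
    (fun i hi => by rw [(B2 u i hi).2]; ring)
  have hm : 2 * ((u : ℚ) + 1) ≠ 0 := by positivity
  apply mul_left_cancel₀ hm
  rw [h]
  have hm2 : ((u : ℚ) + 1) ≠ 0 := by positivity
  field_simp
  ring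

end Pool.Agent.R181.Kraw
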