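import Mathlib
import Pool.Agent.R181.KrawG

/-!
The signed adjacency matrix of the Aztec diamond graph, diagonalised by Krawtchouk numbers.
-/

set_option autoImplicit false

open Finset Matrix

namespace Pool.Agent.R181.Aztec

open Pool.Agent.R181.Kraw (C)

/-- one colour class: rows `0..n`, places `0..n-1` -/
abbrev E (n : ℕ) := Fin (n + 1) × Fin n
/-- the other colour class: rows `0..n-1`, places `0..n` -/
abbrev O (n : ℕ) := Fin n × Fin (n + 1)

section ring
variable {R : Type*} [CommRing R]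

def alpha (η : R) (j i : ℕ) : R := (if j = i then 1 else 0) + η * (if j = i + 1 then 1 else 0)
def beta (η : R) (j i : ℕ) : R := (if j = i then 1 else 0) - η * (if j = i + 1 then 1 else 0)

def kf (η : R) (j d i c : ℕ) : R :=
  (if c = d then alpha η j i else 0) + (if c = d + 1 then beta η j i else 0)

def mf (η : R) (j l i k : ℕ) : R :=
  (if i = j then (if k = l then 1 else 0) else 0) +
    (if i + 1 = j then (if k = l + 1 then η else 0) else 0)

def yf (n : ℕ) (η : R) (i k j l : ℕ) : R :=
  if i + k = j + l then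
    (if j + l < n then (if j ≤ i then (-η) ^ (i - j) else 0)
      else (if i < j then η * (-η) ^ (j - 1 - i) else 0))
  else 0

/-- the signed adjacency matrix -/
def K (n : ℕ) (η : R) : Matrix (E n) (O n) R := fun e o => kf η e.1 e.2 o.1 o.2
def M (n : ℕ) (η : R) : Matrix (E n) (O n) R := fun e o => mf η e.1 e.2 o.1 o.2
def Y (n : ℕ) (η : R) : Matrix (O n) (E n) R := fun o e => yf n η o.1 o.2 e.1 e.2
noncomputable def U (n : ℕ) : Matrix (O n) (O n) R :=
  fun o o' => if o'.1 = o.1 then ((C o.2 (n - o.2) o'.2 : ℤ) : R) else 0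
noncomputable def V (n : ℕ) : Matrix (E n) (E n) R :=
  fun e e' => if e'.1 = e.1 then ((C e.2 (n - 1 - e.2) e'.2 : ℤ) : R) else 0

lemma sum_fin_ite (m a : ℕ) (f : ℕ → R) :
    ∑ c : Fin m, (if (c : ℕ) = a then f c else 0) = if a < m then f a else 0 := by
  rw [Fin.sum_univ_eq_sum_range (fun c => if c = a then f c else 0) m, Finset.sum_ite_eq']
  simp only [Finset.mem_range]

lemma KU (n : ℕ) (η : R) : (K n η * (U n : Matrix (O n) (O n) R) : Matrix (E n) (O n) R) =
    (2 : R) • ((V n : Matrix (E n) (E n) R) * M n η) := by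
  apply Matrix.ext
  rintro ⟨j, d⟩ ⟨i', k⟩
  have hd := d.isLt
  have hk := k.isLt
  have hi := i'.isLt
  simp only [Matrix.mul_apply, Fintype.sum_prod_type, Matrix.smul_apply, smul_eq_mul, K, U, V, M]
  have hL : ∑ x : Fin n, ∑ x_1 : Fin (n + 1), kf η (j : ℕ) d x x_1 *
      (if i' = x then ((C x_1 (n - x_1) k : ℤ) : R) else 0) =
      ∑ c : Fin (n + 1), kf η (j : ℕ) d i' c * ((C c (n - c) k : ℤ) : R) := by
    rw [Finset.sum_eq_single i']
    · simp only [if_true]
    · intro b _ hb
      refine Finset.sum_eq_zero fun c _ => ?_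
      rw [if_neg (fun h => hb h.symm), mul_zero]
    · intro h; exact absurd (Finset.mem_univ _) h
  have hR : ∑ x : Fin (n + 1), ∑ x_1 : Fin n,
      (if x = j then ((C d (n - 1 - d) x_1 : ℤ) : R) else 0) * mf η x x_1 i' k =
      ∑ l : Fin n, ((C d (n - 1 - d) l : ℤ) : R) * mf η j l i' k := by
    rw [Finset.sum_eq_single j]
    · simp only [if_true]
    · intro b _ hb
      refine Finset.sum_eq_zero fun c _ => ?_
      rw [if_neg hb, zero_mul]
    · intro h; exact absurd (Finset.mem_univ _) h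
  rw [hL, hR]
  have e1 : ∀ c : Fin (n + 1), kf η (j : ℕ) d i' c * ((C c (n - c) k : ℤ) : R) =
      (if (c : ℕ) = d then (fun c : ℕ => alpha η j i' * ((C c (n - c) k : ℤ) : R)) c else 0) +
      (if (c : ℕ) = d + 1 then (fun c : ℕ => beta η j i' * ((C c (n - c) k : ℤ) : R)) c else 0) := by
    intro c
    rw [kf]
    by_cases h1 : (c : ℕ) = d
    · rw [if_pos h1, if_neg (by omega), if_pos h1, if_neg (by omega)]; ring
    · by_cases h2 : (c : ℕ) = d + 1
      · rw [if_neg h1, if_pos h2, if_neg h1, if_pos h2]; ring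
      · rw [if_neg h1, if_neg h2, if_neg h1, if_neg h2]; ring
  rw [Finset.sum_congr rfl (fun c _ => e1 c), Finset.sum_add_distrib,
    sum_fin_ite (n + 1) d (fun c : ℕ => alpha η (j : ℕ) i' * ((C c (n - c) k : ℤ) : R)),
    sum_fin_ite (n + 1) (d + 1) (fun c : ℕ => beta η (j : ℕ) i' * ((C c (n - c) k : ℤ) : R)),
    if_pos (show (d : ℕ) < n + 1 by omega), if_pos (show (d : ℕ) + 1 < n + 1 by omega)]
  have e2 : ∀ l : Fin n, ((C d (n - 1 - d) l : ℤ) : R) * mf η (j : ℕ) l i' k =
      (if (l : ℕ) = k then (fun l : ℕ => (if (i' : ℕ) = j then ((C d (n - 1 - d) l : ℤ) : R) else 0)) l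
        else 0) +
      (if (l : ℕ) + 1 = k then (if (i' : ℕ) + 1 = j then η * ((C d (n - 1 - d) l : ℤ) : R) else 0)
        else 0) := by
    intro l
    unfold mf
    beta_reduce
    split_ifs <;> first | (exfalso; omega) | ring
  rw [Finset.sum_congr rfl (fun c _ => e2 c), Finset.sum_add_distrib,
    sum_fin_ite n k (fun l : ℕ => (if (i' : ℕ) = j then ((C d (n - 1 - d) l : ℤ) : R) else 0))]
  simp only [alpha, beta]
  have hnd : n - (d : ℕ) = (n - 1 - d) + 1 := by omega
  have hnd' : n - ((d : ℕ) + 1) = n - 1 - d := by omega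
  rw [hnd, hnd']
  have hs : ((C d (n - 1 - d + 1) k : ℤ) : R) + ((C (d + 1) (n - 1 - d) k : ℤ) : R) =
      2 * ((C d (n - 1 - d) k : ℤ) : R) := by
    exact_mod_cast congrArg (Int.cast : ℤ → R) (Pool.Agent.R181.Kraw.C_sum d (n - 1 - d) k)
  rcases hk0 : (k : ℕ) with _ | k'
  · -- k = 0
    rw [hk0] at hs
    have hdiff : ((C d (n - 1 - d + 1) 0 : ℤ) : R) - ((C (d + 1) (n - 1 - d) 0 : ℤ) : R) = 0 := by
      exact_mod_cast congrArg (Int.cast : ℤ → R) (Pool.Agent.R181.Kraw.C_diff_zero d (n - 1 - d))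
    have hz : ∑ l : Fin n, (if (l : ℕ) + 1 = 0 then
        (if (i' : ℕ) + 1 = j then η * ((C d (n - 1 - d) l : ℤ) : R) else 0) else 0) = 0 := by
      refine Finset.sum_eq_zero fun l _ => ?_
      rw [if_neg (by omega)]
    rw [hz]
    split_ifs <;> first | (exfalso; omega) | linear_combination hs |
      linear_combination η * hdiff | ring
  · rw [hk0] at hs
    have hdiff : ((C d (n - 1 - d + 1) (k' + 1) : ℤ) : R) - ((C (d + 1) (n - 1 - d) (k' + 1) : ℤ) : R) =
        2 * ((C d (n - 1 - d) k' : ℤ) : R) := by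
      exact_mod_cast congrArg (Int.cast : ℤ → R) (Pool.Agent.R181.Kraw.C_diff_succ d (n - 1 - d) k')
    have hz : ∑ l : Fin n, (if (l : ℕ) + 1 = k' + 1 then
        (if (i' : ℕ) + 1 = j then η * ((C d (n - 1 - d) l : ℤ) : R) else 0) else 0) =
        (if (i' : ℕ) + 1 = j then η * ((C d (n - 1 - d) k' : ℤ) : R) else 0) := by
      have := sum_fin_ite n k' (fun l => (if (i' : ℕ) + 1 = j then η * ((C d (n - 1 - d) l : ℤ) : R) else 0))
      rw [if_pos (by omega)] at this
      rw [← this]
      refine Finset.sum_congr rfl fun l _ => ?_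
      simp only [Nat.add_right_cancel_iff]
    rw [hz]
    have hhigh : (if k' + 1 < n then (if (i' : ℕ) = j then ((C d (n - 1 - d) (k' + 1) : ℤ) : R) else 0)
        else 0) = (if (i' : ℕ) = j then ((C d (n - 1 - d) (k' + 1) : ℤ) : R) else 0) := by
      by_cases h : k' + 1 < n
      · rw [if_pos h]
      · rw [if_neg h, Pool.Agent.R181.Kraw.C_high _ _ (k' + 1) (by omega)]; simp
    rw [hhigh]
    split_ifs <;> first | (exfalso; omega) | linear_combination hs |
      linear_combination η * hdiff | ring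

lemma sum_fin_ite2 (m m' a b : ℕ) (f : ℕ → ℕ → R) :
    ∑ i : Fin m, ∑ k : Fin m', (if (i : ℕ) = a then (if (k : ℕ) = b then f i k else 0) else 0) =
      if a < m ∧ b < m' then f a b else 0 := by
  have h : ∀ i : Fin m, ∑ k : Fin m', (if (i : ℕ) = a then (if (k : ℕ) = b then f i k else 0) else 0) =
      if (i : ℕ) = a then (fun i : ℕ => if b < m' then f i b else 0) i else 0 := by
    intro i
    by_cases hi : (i : ℕ) = a
    · simp only [if_pos hi]
      rw [sum_fin_ite m' b (f i)]
    · simp only [if_neg hi]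
      exact Finset.sum_const_zero
  rw [Finset.sum_congr rfl (fun i _ => h i),
    sum_fin_ite m a (fun i : ℕ => if b < m' then f i b else 0)]
  by_cases h1 : a < m <;> by_cases h2 : b < m' <;> simp [h1, h2]

lemma yf_ne (n : ℕ) (η : R) (i k j l : ℕ) (h : i + k ≠ j + l) : yf n η i k j l = 0 := by
  rw [yf, if_neg h]

lemma yf_a (n : ℕ) (η : R) (i k j l : ℕ) (h : i + k = j + l) (hn : j + l < n) (h2 : j ≤ i) :
    yf n η i k j l = (-η) ^ (i - j) := by
  rw [yf, if_pos h, if_pos hn, if_pos h2]

lemma yf_b (n : ℕ) (η : R) (i k j l : ℕ) (h : i + k = j + l) (hn : j + l < n) (h2 : i < j) :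
    yf n η i k j l = 0 := by
  rw [yf, if_pos h, if_pos hn, if_neg (by omega)]

lemma yf_c (n : ℕ) (η : R) (i k j l : ℕ) (h : i + k = j + l) (hn : n ≤ j + l) (h2 : i < j) :
    yf n η i k j l = η * (-η) ^ (j - 1 - i) := by
  rw [yf, if_pos h, if_neg (by omega), if_pos h2]

lemma yf_d (n : ℕ) (η : R) (i k j l : ℕ) (h : i + k = j + l) (hn : n ≤ j + l) (h2 : j ≤ i) :
    yf n η i k j l = 0 := by
  rw [yf, if_pos h, if_neg (by omega), if_neg (by omega)]

lemma MY (n : ℕ) (η : R) (hη : η * η = 1) : M n η * Y n η = 1 := by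
  apply Matrix.ext
  rintro ⟨j, l⟩ ⟨j', l'⟩
  have hj := j.isLt
  have hl := l.isLt
  have hj' := j'.isLt
  have hl' := l'.isLt
  simp only [Matrix.mul_apply, Fintype.sum_prod_type, M, Y]
  have e1 : ∀ (i : Fin n) (k : Fin (n + 1)), mf η (j : ℕ) l i k * yf n η i k j' l' =
      (if (i : ℕ) = j then (if (k : ℕ) = l then yf n η i k j' l' else 0) else 0) +
      (if (i : ℕ) + 1 = j then (if (k : ℕ) = l + 1 then η * yf n η i k j' l' else 0) else 0) := by
    intro i k
    unfold mf
    split_ifs <;> ring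
  simp only [e1, Finset.sum_add_distrib]
  rw [sum_fin_ite2 n (n + 1) j l (fun i k => yf n η i k j' l')]
  have e2 : ∑ i : Fin n, ∑ k : Fin (n + 1),
      (if (i : ℕ) + 1 = j then (if (k : ℕ) = l + 1 then η * yf n η i k j' l' else 0) else 0) =
      if 1 ≤ (j : ℕ) then η * yf n η (j - 1) (l + 1) j' l' else 0 := by
    by_cases h : 1 ≤ (j : ℕ)
    · rw [if_pos h]
      have := sum_fin_ite2 n (n + 1) (j - 1) (l + 1) (fun i k => η * yf n η i k j' l')
      rw [if_pos ⟨by omega, by omega⟩] at this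
      rw [← this]
      refine Finset.sum_congr rfl fun i _ => Finset.sum_congr rfl fun k _ => ?_
      by_cases h2 : (i : ℕ) + 1 = j
      · have h3 : (i : ℕ) = j - 1 := by omega
        rw [if_pos h2, if_pos h3]
      · have h3 : ¬ (i : ℕ) = j - 1 := by omega
        rw [if_neg h2, if_neg h3]
    · rw [if_neg h]
      refine Finset.sum_eq_zero fun i _ => Finset.sum_eq_zero fun k _ => ?_
      rw [if_neg (show ¬ (i : ℕ) + 1 = j by omega)]
  rw [e2, Matrix.one_apply]
  simp only [Prod.mk.injEq, Fin.ext_iff]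
  generalize (j : ℕ) = a at *
  generalize (l : ℕ) = b at *
  generalize (j' : ℕ) = a' at *
  generalize (l' : ℕ) = b' at *
  by_cases hs : a + b = a' + b'
  · by_cases hn : a' + b' < n
    · have hA : a < n ∧ b < n + 1 := by omega
      rw [if_pos hA]
      rcases lt_trichotomy a a' with h | h | h
      · rw [if_neg (show ¬ (a = a' ∧ b = b') by omega), yf_b n η a b a' b' hs hn h]
        by_cases h1 : 1 ≤ a
        · rw [if_pos h1, yf_b n η (a - 1) (b + 1) a' b' (by omega) hn (by omega)]
          ring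
        · rw [if_neg h1]; ring
      · rw [if_pos (show (a = a' ∧ b = b') by omega), yf_a n η a b a' b' hs hn (by omega)]
        by_cases h1 : 1 ≤ a
        · rw [if_pos h1, yf_b n η (a - 1) (b + 1) a' b' (by omega) hn (by omega), h]
          simp
        · rw [if_neg h1, h]
          simp
      · rw [if_neg (show ¬ (a = a' ∧ b = b') by omega), yf_a n η a b a' b' hs hn (by omega),
          if_pos (show 1 ≤ a by omega), yf_a n η (a - 1) (b + 1) a' b' (by omega) hn (by omega)]
        obtain ⟨r, rfl⟩ : ∃ r, a = a' + r + 1 := ⟨a - a' - 1, by omega⟩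
        rw [show a' + r + 1 - a' = r + 1 by omega, show a' + r + 1 - 1 - a' = r by omega, pow_succ]
        ring
    · have h1 : 1 ≤ a := by omega
      rw [if_pos h1]
      rcases lt_trichotomy a a' with h | h | h
      · have hA : a < n ∧ b < n + 1 := by omega
        rw [if_pos hA, if_neg (show ¬ (a = a' ∧ b = b') by omega),
          yf_c n η a b a' b' hs (by omega) h,
          yf_c n η (a - 1) (b + 1) a' b' (by omega) (by omega) (by omega)]
        obtain ⟨r, rfl⟩ : ∃ r, a' = a + r + 1 := ⟨a' - a - 1, by omega⟩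
        rw [show a + r + 1 - 1 - a = r by omega, show a + r + 1 - 1 - (a - 1) = r + 1 by omega, pow_succ]
        linear_combination (- η * (-η) ^ r) * hη
      · rw [if_pos (show (a = a' ∧ b = b') by omega), yf_d n η a b a' b' hs (by omega) (by omega),
          yf_c n η (a - 1) (b + 1) a' b' (by omega) (by omega) (by omega), h,
          show a' - 1 - (a' - 1) = 0 by omega, ite_self]
        linear_combination hη
      · rw [if_neg (show ¬ (a = a' ∧ b = b') by omega),
          yf_d n η a b a' b' hs (by omega) (by omega),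
          yf_d n η (a - 1) (b + 1) a' b' (by omega) (by omega) (by omega), ite_self]
        ring
  · rw [if_neg (show ¬ (a = a' ∧ b = b') by omega), yf_ne n η a b a' b' hs, ite_self]
    by_cases h1 : 1 ≤ a
    · rw [if_pos h1, yf_ne n η (a - 1) (b + 1) a' b' (by omega)]; ring
    · rw [if_neg h1]; ring

lemma UU (n : ℕ) : (U n * U n : Matrix (O n) (O n) R) = (2 ^ n : R) • 1 := by
  apply Matrix.ext
  rintro ⟨i, c⟩ ⟨i', c'⟩
  have hc := c.isLt
  simp only [Matrix.mul_apply, Fintype.sum_prod_type, U, Matrix.smul_apply, smul_eq_mul,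
    Matrix.one_apply, Prod.mk.injEq]
  rw [Finset.sum_eq_single i (by
      intro b _ hb
      refine Finset.sum_eq_zero fun c _ => ?_
      rw [if_neg hb, zero_mul]) (fun h => absurd (Finset.mem_univ _) h)]
  by_cases h : i' = i
  · subst h
    simp only [if_true, true_and]
    have := Pool.Agent.R181.Kraw.invol c (n - c) c'
    rw [show (c : ℕ) + (n - c) = n by omega] at this
    rw [Fin.sum_univ_eq_sum_range
      (fun k => ((C c (n - c) k : ℤ) : R) * ((C k (n - k) c' : ℤ) : R)) (n + 1)]
    have h2 : ((∑ l ∈ range (n + 1), C c (n - c) l * C l (n - l) c' : ℤ) : R) =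
        ((if (c' : ℕ) = c then 2 ^ n else 0 : ℤ) : R) := by rw [this]
    push_cast at h2
    rw [h2]
    by_cases h3 : (c' : ℕ) = c
    · rw [if_pos h3, if_pos (Fin.ext h3.symm)]; simp
    · rw [if_neg h3, if_neg (fun h => h3 (by rw [h]))]; simp
  · simp only [if_neg h, mul_zero, Finset.sum_const_zero]
    rw [if_neg (fun h2 => h h2.1.symm)]; simp

lemma VV (n : ℕ) : (V n * V n : Matrix (E n) (E n) R) = (2 ^ (n - 1) : R) • 1 := by
  apply Matrix.ext
  rintro ⟨i, c⟩ ⟨i', c'⟩
  have hc := c.isLt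
  simp only [Matrix.mul_apply, Fintype.sum_prod_type, V, Matrix.smul_apply, smul_eq_mul,
    Matrix.one_apply, Prod.mk.injEq]
  rw [Finset.sum_eq_single i (by
      intro b _ hb
      refine Finset.sum_eq_zero fun c _ => ?_
      rw [if_neg hb, zero_mul]) (fun h => absurd (Finset.mem_univ _) h)]
  by_cases h : i' = i
  · subst h
    simp only [if_true, true_and]
    have := Pool.Agent.R181.Kraw.invol c (n - 1 - c) c'
    rw [show (c : ℕ) + (n - 1 - c) = n - 1 by omega] at this
    rw [Fin.sum_univ_eq_sum_range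
      (fun k => ((C c (n - 1 - c) k : ℤ) : R) * ((C k (n - 1 - k) c' : ℤ) : R)) n]
    have h2 : ((∑ l ∈ range (n - 1 + 1), C c (n - 1 - c) l * C l (n - 1 - l) c' : ℤ) : R) =
        ((if (c' : ℕ) = c then 2 ^ (n - 1) else 0 : ℤ) : R) := by rw [this]
    rw [show n - 1 + 1 = n by omega] at h2
    push_cast at h2
    rw [h2]
    by_cases h3 : (c' : ℕ) = c
    · rw [if_pos h3, if_pos (Fin.ext h3.symm)]; simp
    · rw [if_neg h3, if_neg (fun h => h3 (by rw [h]))]; simp
  · simp only [if_neg h, mul_zero, Finset.sum_const_zero]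
    rw [if_neg (fun h2 => h h2.1.symm)]; simp

end ring

end Pool.Agent.R181.Aztec
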