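import Mathlib
import Pool.Agent.R181.AztecDet

/-!
Signs of the perfect matchings of the Aztec diamond graph with a knight's-move pair removed.
-/

set_option autoImplicit false

open Finset Matrix

namespace Pool.Agent.R181.Aztec

variable {n : ℕ}

def eE (n : ℕ) : E n ≃ Fin ((n + 1) * n) := finProdFinEquiv
def eO (n : ℕ) : O n ≃ Fin ((n + 1) * n) := finProdFinEquiv.trans (finCongr (Nat.mul_comm n (n + 1)))

lemma eE_val (e : E n) : (eE n e : ℕ) = e.2 + n * e.1 := rfl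
lemma eO_val (o : O n) : (eO n o : ℕ) = o.2 + (n + 1) * o.1 := rfl

lemma lex_lt {m a b a' b' : ℕ} (hb : b < m) (hb' : b' < m) :
    b + m * a < b' + m * a' ↔ (a < a' ∨ (a = a' ∧ b < b')) := by
  rcases lt_trichotomy a a' with h | h | h
  · have : b + m * a < b' + m * a' := by
      have h1 : m * (a + 1) ≤ m * a' := Nat.mul_le_mul_left m h
      rw [Nat.mul_add, Nat.mul_one] at h1
      omega
    exact ⟨fun _ => Or.inl h, fun _ => this⟩
  · subst h
    constructor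
    · intro h; right; exact ⟨rfl, by omega⟩
    · intro h; omega
  · have : ¬ (b + m * a < b' + m * a') := by
      have h1 : m * (a' + 1) ≤ m * a := Nat.mul_le_mul_left m h
      rw [Nat.mul_add, Nat.mul_one] at h1
      omega
    constructor
    · intro h; exact absurd h this
    · intro h; omega

/-- number of inversions -/
def inv (σ : E n ≃ O n) : ℕ :=
  ∑ e' : E n, ∑ e : E n,
    if ((e.1 : ℕ) < e'.1 ∨ ((e.1 : ℕ) = e'.1 ∧ (e.2 : ℕ) < e'.2)) ∧
      (((σ e').1 : ℕ) < (σ e).1 ∨ (((σ e').1 : ℕ) = (σ e).1 ∧ ((σ e').2 : ℕ) < (σ e).2)) then 1 else 0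

/-- the permutation attached to a bijection -/
def toPerm (σ : E n ≃ O n) : Equiv.Perm (Fin ((n + 1) * n)) := (eE n).symm.trans (σ.trans (eO n))

lemma sign_toPerm (σ : E n ≃ O n) : (Equiv.Perm.sign (toPerm σ) : ℤ) = (-1) ^ inv σ := by
  rw [Equiv.Perm.sign_eq_prod_prod_Iio]
  push_cast
  have h1 : ∀ j : Fin ((n + 1) * n), ∏ i ∈ Finset.Iio j,
      (if toPerm σ i < toPerm σ j then (1 : ℤ) else -1) =
      ∏ i : Fin ((n + 1) * n), (-1 : ℤ) ^ (if i < j ∧ toPerm σ j < toPerm σ i then 1 else 0) := by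
    intro j
    rw [← Finset.prod_subset (Finset.subset_univ (Finset.Iio j))]
    · refine Finset.prod_congr rfl fun i hi => ?_
      rw [Finset.mem_Iio] at hi
      by_cases h : toPerm σ i < toPerm σ j
      · rw [if_pos h, if_neg (fun h2 => absurd h2.2 (not_lt_of_gt h)), pow_zero]
      · have hne : toPerm σ i ≠ toPerm σ j := fun h2 => (ne_of_lt hi) ((toPerm σ).injective h2)
        rw [if_neg h, if_pos ⟨hi, lt_of_le_of_ne (not_lt.mp h) (Ne.symm hne)⟩, pow_one]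
    · intro i _ hi
      rw [Finset.mem_Iio] at hi
      rw [if_neg (fun h2 => hi h2.1), pow_zero]
  have h2 : ((∏ j : Fin ((n + 1) * n), ∏ i ∈ Finset.Iio j,
      (if toPerm σ i < toPerm σ j then (1 : ℤ) else -1))) = (-1) ^ inv σ := by
    rw [Finset.prod_congr rfl (fun j _ => h1 j)]
    simp only [Finset.prod_pow_eq_pow_sum]
    congr 1
    unfold inv
    rw [← Equiv.sum_comp (eE n)]
    refine Finset.sum_congr rfl fun e' _ => ?_
    rw [← Equiv.sum_comp (eE n)]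
    refine Finset.sum_congr rfl fun e _ => ?_
    have e1 : (eE n e < eE n e') ↔ ((e.1 : ℕ) < e'.1 ∨ ((e.1 : ℕ) = e'.1 ∧ (e.2 : ℕ) < e'.2)) := by
      rw [Fin.lt_def, eE_val, eE_val]
      exact lex_lt e.2.isLt e'.2.isLt
    have e2 : (toPerm σ (eE n e') < toPerm σ (eE n e)) ↔
        (((σ e').1 : ℕ) < (σ e).1 ∨ (((σ e').1 : ℕ) = (σ e).1 ∧ ((σ e').2 : ℕ) < (σ e).2)) := by
      rw [Fin.lt_def]
      simp only [toPerm, Equiv.trans_apply, Equiv.symm_apply_apply, eO_val]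
      exact lex_lt (σ e').2.isLt (σ e).2.isLt
    simp only [e1, e2]
  rw [← h2]
  refine Finset.prod_congr rfl fun j _ => Finset.prod_congr rfl fun i _ => ?_
  split_ifs <;> simp

section count
variable (σ : E n ≃ O n)

/-- number of pairs of same type and same row with crossing partners -/
def cross : ℕ := ∑ e' : E n, ∑ e : E n,
  if ((((σ e).1 : ℕ) + 1 = e.1) ↔ (((σ e').1 : ℕ) + 1 = e'.1)) ∧ (e.1 : ℕ) = e'.1 ∧ (e.2 : ℕ) < e'.2 ∧
    ((σ e').2 : ℕ) < (σ e).2 then 1 else 0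

lemma count_E (e' : E n) :
    (∑ e : E n, if (e.1 : ℕ) = e'.1 ∧ (e.2 : ℕ) < e'.2 then 1 else 0) = (e'.2 : ℕ) := by
  rw [Fintype.sum_prod_type, Finset.sum_eq_single e'.1]
  · rw [Finset.sum_boole, Nat.cast_id]
    have h : (Finset.univ.filter (fun d : Fin n => (e'.1 : ℕ) = e'.1 ∧ (d : ℕ) < e'.2)) =
        Finset.Iio e'.2 := by
      ext d; simp
    rw [h, Fin.card_Iio]
  · intro b _ hb
    refine Finset.sum_eq_zero fun d _ => ?_
    rw [if_neg (fun h => hb (Fin.ext h.1))]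
  · intro h; exact absurd (Finset.mem_univ _) h

lemma count_O (o' : O n) :
    (∑ o : O n, if (o.1 : ℕ) = o'.1 ∧ (o'.2 : ℕ) < o.2 then 1 else 0) = n - (o'.2 : ℕ) := by
  rw [Fintype.sum_prod_type, Finset.sum_eq_single o'.1]
  · rw [Finset.sum_boole, Nat.cast_id]
    have h : (Finset.univ.filter (fun d : Fin (n + 1) => (o'.1 : ℕ) = o'.1 ∧ (o'.2 : ℕ) < d)) =
        Finset.Ioi o'.2 := by
      ext d; simp
    rw [h, Fin.card_Ioi]
    omega
  · intro b _ hb
    refine Finset.sum_eq_zero fun d _ => ?_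
    rw [if_neg (fun h => hb (Fin.ext h.1))]
  · intro h; exact absurd (Finset.mem_univ _) h

variable (hrow : ∀ e, ((σ e).1 : ℕ) = e.1 ∨ ((σ e).1 : ℕ) + 1 = e.1)
include hrow

lemma inv_split : ∃ A : ℕ, inv σ + 2 * A =
    (∑ e' : E n, if ((σ e').1 : ℕ) + 1 = e'.1 then ((e'.2 : ℕ) + (n - ((σ e').2 : ℕ))) else 0) +
      cross σ := by
  -- the five double sums
  set S1 : ℕ := ∑ e' : E n, ∑ e : E n, if ((σ e').1 : ℕ) + 1 = e'.1 ∧ ¬ (((σ e).1 : ℕ) + 1 = e.1) ∧
    (e.1 : ℕ) = e'.1 ∧ (e.2 : ℕ) < e'.2 then 1 else 0 with hS1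
  set S2 : ℕ := ∑ e' : E n, ∑ e : E n, if ((σ e').1 : ℕ) + 1 = e'.1 ∧ ¬ (((σ e).1 : ℕ) + 1 = e.1) ∧
    (e'.1 : ℕ) = e.1 + 1 ∧ ((σ e').2 : ℕ) < (σ e).2 then 1 else 0 with hS2
  set A1 : ℕ := ∑ e' : E n, ∑ e : E n, if ((σ e').1 : ℕ) + 1 = e'.1 ∧ (((σ e).1 : ℕ) + 1 = e.1) ∧
    (e.1 : ℕ) = e'.1 ∧ (e.2 : ℕ) < e'.2 then 1 else 0 with hA1
  set A2 : ℕ := ∑ e' : E n, ∑ e : E n, if ((σ e').1 : ℕ) + 1 = e'.1 ∧ (((σ e).1 : ℕ) + 1 = e.1) ∧
    (e.1 : ℕ) = e'.1 ∧ ((σ e').2 : ℕ) < (σ e).2 then 1 else 0 with hA2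
  have h1 : inv σ = S1 + S2 + cross σ := by
    rw [hS1, hS2]
    unfold inv cross
    simp only [← Finset.sum_add_distrib]
    refine Finset.sum_congr rfl fun e' _ => Finset.sum_congr rfl fun e _ => ?_
    have r1 := hrow e
    have r2 := hrow e'
    split_ifs <;> omega
  have h2 : S1 + A1 = ∑ e' : E n, if ((σ e').1 : ℕ) + 1 = e'.1 then (e'.2 : ℕ) else 0 := by
    rw [hS1, hA1]
    simp only [← Finset.sum_add_distrib]
    refine Finset.sum_congr rfl fun e' _ => ?_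
    by_cases h : ((σ e').1 : ℕ) + 1 = e'.1
    · rw [if_pos h]
      conv_rhs => rw [← count_E e']
      refine Finset.sum_congr rfl fun e _ => ?_
      split_ifs <;> omega
    · rw [if_neg h]
      refine Finset.sum_eq_zero fun e _ => ?_
      split_ifs <;> omega
  have h3 : S2 + A2 = ∑ e' : E n, if ((σ e').1 : ℕ) + 1 = e'.1 then (n - ((σ e').2 : ℕ)) else 0 := by
    rw [hS2, hA2]
    simp only [← Finset.sum_add_distrib]
    refine Finset.sum_congr rfl fun e' _ => ?_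
    by_cases h : ((σ e').1 : ℕ) + 1 = e'.1
    · rw [if_pos h]
      conv_rhs => rw [← count_O (σ e'), ← Equiv.sum_comp σ]
      refine Finset.sum_congr rfl fun e _ => ?_
      have r1 := hrow e
      split_ifs <;> omega
    · rw [if_neg h]
      refine Finset.sum_eq_zero fun e _ => ?_
      split_ifs <;> omega
  have h4 : A1 = A2 := by
    have c1 : A1 = ∑ e' : E n, ∑ e : E n, if ((σ e').1 : ℕ) + 1 = e'.1 ∧ (((σ e).1 : ℕ) + 1 = e.1) ∧
        (e.1 : ℕ) = e'.1 ∧ (e'.2 : ℕ) < e.2 then 1 else 0 := by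
      rw [hA1, Finset.sum_comm]
      refine Finset.sum_congr rfl fun e' _ => Finset.sum_congr rfl fun e _ => ?_
      split_ifs <;> omega
    have c2 : A2 = ∑ e' : E n, ∑ e : E n, if ((σ e').1 : ℕ) + 1 = e'.1 ∧ (((σ e).1 : ℕ) + 1 = e.1) ∧
        (e.1 : ℕ) = e'.1 ∧ ((σ e).2 : ℕ) < (σ e').2 then 1 else 0 := by
      rw [hA2, Finset.sum_comm]
      refine Finset.sum_congr rfl fun e' _ => Finset.sum_congr rfl fun e _ => ?_
      split_ifs <;> omega
    have c3 : A1 + A1 = A2 + A2 := by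
      nth_rewrite 2 [c1]
      nth_rewrite 2 [c2]
      rw [hA1, hA2]
      simp only [← Finset.sum_add_distrib]
      refine Finset.sum_congr rfl fun e' _ => Finset.sum_congr rfl fun e _ => ?_
      by_cases hP : ((σ e').1 : ℕ) + 1 = e'.1 ∧ (((σ e).1 : ℕ) + 1 = e.1) ∧ (e.1 : ℕ) = e'.1
      · have key : (e.2 : ℕ) = e'.2 ↔ ((σ e).2 : ℕ) = (σ e').2 := by
          constructor
          · intro h
            have : e = e' := Prod.ext (Fin.ext hP.2.2) (Fin.ext h)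
            rw [this]
          · intro h
            have h5 : σ e = σ e' := Prod.ext (Fin.ext (by omega)) (Fin.ext h)
            rw [σ.injective h5]
        split_ifs <;> omega
      · split_ifs <;> omega
    omega
  refine ⟨A1, ?_⟩
  have h5 : (∑ e' : E n, if ((σ e').1 : ℕ) + 1 = e'.1 then ((e'.2 : ℕ) + (n - ((σ e').2 : ℕ))) else 0) =
      (∑ e' : E n, if ((σ e').1 : ℕ) + 1 = e'.1 then (e'.2 : ℕ) else 0) +
      (∑ e' : E n, if ((σ e').1 : ℕ) + 1 = e'.1 then (n - ((σ e').2 : ℕ)) else 0) := by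
    rw [← Finset.sum_add_distrib]
    refine Finset.sum_congr rfl fun e _ => ?_
    split_ifs <;> rfl
  rw [h5, ← h2, ← h3, h1, ← h4]
  ring

lemma sign_formula : (Equiv.Perm.sign (toPerm σ) : ℤ) =
    (∏ e : E n, if ((σ e).1 : ℕ) + 1 = e.1 then (-1 : ℤ) ^ ((e.2 : ℕ) + (n - ((σ e).2 : ℕ))) else 1) *
      (-1) ^ cross σ := by
  obtain ⟨A, hA⟩ := inv_split σ hrow
  rw [sign_toPerm]
  have h1 : (-1 : ℤ) ^ inv σ = (-1) ^ (inv σ + 2 * A) := by
    rw [pow_add, pow_mul, neg_one_sq, one_pow, mul_one]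
  rw [h1, hA, pow_add, ← Finset.prod_pow_eq_pow_sum]
  congr 1
  refine Finset.prod_congr rfl fun e _ => ?_
  split_ifs <;> simp

end count

end Pool.Agent.R181.Aztec
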