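import Mathlib
import Pool.Agent.R181.AztecSign

/-!
The number of perfect matchings of the Aztec diamond graph with a central knight's-move pair of
vertices removed is, up to sign, a determinant.
-/

set_option autoImplicit false

open Finset Matrix

namespace Pool.Agent.R181.Aztec

/-- adjacency of the two colour classes -/
def adj {n : ℕ} (e : E n) (o : O n) : Prop :=
  ((o.1 : ℕ) = e.1 ∨ (o.1 : ℕ) + 1 = e.1) ∧ ((o.2 : ℕ) = e.2 ∨ (o.2 : ℕ) = e.2 + 1)

instance {n : ℕ} (e : E n) (o : O n) : Decidable (adj e o) := by unfold adj; infer_instance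

section
variable {n q : ℕ} (hq : q + 1 < n)

def e0 : E n := (⟨q + 1, by omega⟩, ⟨q + 1, hq⟩)
def o0 : O n := (⟨q, by omega⟩, ⟨q, by omega⟩)
def es : E n := (⟨q + 1, by omega⟩, ⟨q, by omega⟩)
def os : O n := (⟨q, by omega⟩, ⟨q + 1, by omega⟩)

lemma e0_1 : ((e0 hq).1 : ℕ) = q + 1 := rfl
lemma e0_2 : ((e0 hq).2 : ℕ) = q + 1 := rfl
lemma o0_1 : ((o0 hq).1 : ℕ) = q := rfl
lemma o0_2 : ((o0 hq).2 : ℕ) = q := rfl
lemma es_1 : ((es hq).1 : ℕ) = q + 1 := rfl
lemma es_2 : ((es hq).2 : ℕ) = q := rfl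
lemma os_1 : ((os hq).1 : ℕ) = q := rfl
lemma os_2 : ((os hq).2 : ℕ) = q + 1 := rfl

lemma eq_e0_iff (e : E n) : e = e0 hq ↔ (e.1 : ℕ) = q + 1 ∧ (e.2 : ℕ) = q + 1 := by
  constructor
  · rintro rfl; exact ⟨rfl, rfl⟩
  · rintro ⟨h1, h2⟩; exact Prod.ext (Fin.ext h1) (Fin.ext h2)

lemma eq_es_iff (e : E n) : e = es hq ↔ (e.1 : ℕ) = q + 1 ∧ (e.2 : ℕ) = q := by
  constructor
  · rintro rfl; exact ⟨rfl, rfl⟩
  · rintro ⟨h1, h2⟩; exact Prod.ext (Fin.ext h1) (Fin.ext h2)

lemma eq_os_iff (o : O n) : o = os hq ↔ (o.1 : ℕ) = q ∧ (o.2 : ℕ) = q + 1 := by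
  constructor
  · rintro rfl; exact ⟨rfl, rfl⟩
  · rintro ⟨h1, h2⟩; exact Prod.ext (Fin.ext h1) (Fin.ext h2)

lemma es_ne_e0 : es hq ≠ e0 hq := by
  intro h
  have := congrArg (fun e : E n => (e.2 : ℕ)) h
  simp only [es_2, e0_2] at this
  omega

/-- the bijections that correspond to perfect matchings after removal of `e0` and `o0` -/
def Valid (σ : E n ≃ O n) : Prop := σ (e0 hq) = o0 hq ∧ ∀ e, e ≠ e0 hq → adj e (σ e)

instance (σ : E n ≃ O n) : Decidable (Valid hq σ) := by unfold Valid; infer_instance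

lemma row_of_valid {σ : E n ≃ O n} (h : Valid hq σ) (e : E n) :
    ((σ e).1 : ℕ) = e.1 ∨ ((σ e).1 : ℕ) + 1 = e.1 := by
  by_cases h1 : e = e0 hq
  · right; rw [h1, h.1]; rfl
  · exact (h.2 e h1).1

lemma cross_valid {σ : E n ≃ O n} (h : Valid hq σ) :
    cross σ = if σ (es hq) = os hq then 1 else 0 := by
  unfold cross
  have key : ∀ e' e : E n,
      (if ((((σ e).1 : ℕ) + 1 = e.1) ↔ (((σ e').1 : ℕ) + 1 = e'.1)) ∧ (e.1 : ℕ) = e'.1 ∧
        (e.2 : ℕ) < e'.2 ∧ ((σ e').2 : ℕ) < (σ e).2 then 1 else 0) =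
      if e' = e0 hq then (if e = es hq then (if σ (es hq) = os hq then 1 else 0) else 0) else 0 := by
    intro e' e
    have f0 : σ (e0 hq) = o0 hq := h.1
    by_cases h' : e' = e0 hq
    · rw [if_pos h']
      by_cases h1 : e = es hq
      · rw [if_pos h1, h1, h', f0]
        have h2 := h.2 (es hq) (es_ne_e0 hq)
        unfold adj at h2
        rw [es_1, es_2] at h2
        rw [es_1, es_2, e0_1, e0_2, o0_1, o0_2]
        by_cases h3 : σ (es hq) = os hq
        · rw [if_pos h3, if_pos]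
          rw [h3, os_1, os_2]
          refine ⟨Iff.rfl, rfl, ?_, ?_⟩ <;> omega
        · rw [if_neg h3, if_neg]
          rintro ⟨g1, g2, g3, g4⟩
          rw [eq_os_iff] at h3
          omega
      · rw [if_neg h1, if_neg]
        rintro ⟨g1, g2, g3, g4⟩
        rw [h', f0] at g1 g4
        rw [h'] at g2 g3
        have hne : e ≠ e0 hq := by
          intro h3
          rw [h3] at g3
          exact lt_irrefl _ g3
        have h2 := h.2 e hne
        rw [eq_es_iff] at h1
        unfold adj at h2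
        rw [o0_1, e0_1] at g1
        rw [e0_1] at g2
        rw [e0_2] at g3
        rw [o0_2] at g4
        omega
    · rw [if_neg h', if_neg]
      rintro ⟨g1, g2, g3, g4⟩
      have h3 := h.2 e' h'
      unfold adj at h3
      by_cases h4 : e = e0 hq
      · rw [h4, f0] at g4
        rw [h4] at g3
        simp only [e0_1, e0_2, o0_1, o0_2] at *
        omega
      · have h5 := h.2 e h4
        unfold adj at h5
        have h6 : ((σ e).2 : ℕ) ≠ (σ e').2 := by omega
        omega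
  simp only [key]
  rw [Finset.sum_eq_single (e0 hq)]
  · rw [Finset.sum_eq_single (es hq)]
    · rw [if_pos rfl, if_pos rfl]
    · intro b _ hb
      rw [if_pos rfl, if_neg hb]
    · intro h2; exact absurd (Finset.mem_univ _) h2
  · intro b _ hb
    refine Finset.sum_eq_zero fun c _ => ?_
    rw [if_neg hb]
  · intro h2; exact absurd (Finset.mem_univ _) h2

/-- the signed adjacency matrix with the row of `e0` replaced and one sign changed -/
def Kh (R : Type*) [CommRing R] : Matrix (E n) (O n) R := fun e o =>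
  if e = e0 hq then (if o = o0 hq then 1 else 0)
  else if e = es hq ∧ o = os hq then - K n ((-1) ^ n : R) e o else K n ((-1) ^ n : R) e o

lemma K_not_adj {R : Type*} [CommRing R] (η : R) (e : E n) (o : O n) (h : ¬ adj e o) :
    K n η e o = 0 := by
  unfold adj at h
  unfold K kf alpha beta
  split_ifs <;> first | (exfalso; omega) | ring

lemma K_adj (e : E n) (o : O n) (h : adj e o) :
    K n ((-1) ^ n : ℤ) e o = if (o.1 : ℕ) + 1 = e.1 then (-1) ^ ((e.2 : ℕ) + (n - (o.2 : ℕ))) else 1 := by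
  unfold adj at h
  have ho := o.2.isLt
  unfold K kf alpha beta
  rcases h.2 with h2 | h2
  · have h3 : ((e.2 : ℕ) + (n - (o.2 : ℕ))) = n := by omega
    rw [h3]
    split_ifs <;> first | (exfalso; omega) | ring
  · have h3 : ((e.2 : ℕ) + (n - (o.2 : ℕ))) + 1 = n := by omega
    have h4 : (-1 : ℤ) ^ n = - (-1) ^ ((e.2 : ℕ) + (n - (o.2 : ℕ))) := by
      have h5 : (-1 : ℤ) ^ (((e.2 : ℕ) + (n - (o.2 : ℕ))) + 1) = (-1) ^ n := by rw [h3]
      rw [← h5, pow_succ]; ring
    rw [h4]
    split_ifs <;> first | (exfalso; omega) | ring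

lemma term_valid {σ : E n ≃ O n} (h : Valid hq σ) :
    (Equiv.Perm.sign (toPerm σ) : ℤ) * ∏ e : E n, Kh hq ℤ e (σ e) = (-1) ^ (n + 1) := by
  rw [sign_formula σ (row_of_valid hq h), cross_valid hq h]
  set w : E n → ℤ := fun e => if ((σ e).1 : ℕ) + 1 = e.1 then (-1 : ℤ) ^ ((e.2 : ℕ) + (n - ((σ e).2 : ℕ)))
    else 1 with hw
  have hw2 : ∀ e, w e * w e = 1 := by
    intro e
    simp only [hw]
    split_ifs
    · rw [← pow_add, ← two_mul, pow_mul, neg_one_sq, one_pow]
    · ring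
  have key : ∀ e, Kh hq ℤ e (σ e) = w e * (if e = e0 hq then (-1) ^ (n + 1) else 1) *
      (if e = es hq then (if σ (es hq) = os hq then -1 else 1) else 1) := by
    intro e
    unfold Kh
    by_cases h1 : e = e0 hq
    · rw [if_pos h1, if_pos h1, h1, h.1, if_pos rfl, if_neg (es_ne_e0 hq).symm]
      simp only [hw, h.1]
      rw [if_pos (by rw [o0_1, e0_1]), e0_2, o0_2, show q + 1 + (n - q) = n + 1 by omega, ← pow_add,
        ← two_mul, pow_mul, neg_one_sq, one_pow, mul_one]
    · rw [if_neg h1, if_neg h1, mul_one]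
      have hK := K_adj e (σ e) (h.2 e h1)
      have hK2 : K n ((-1) ^ n : ℤ) e (σ e) = w e := hK
      rw [hK2]
      by_cases h2 : e = es hq
      · subst h2
        rw [if_pos rfl]
        by_cases h3 : σ (es hq) = os hq
        · rw [if_pos ⟨rfl, h3⟩, if_pos h3]; ring
        · rw [if_neg (fun h4 => h3 h4.2), if_neg h3]; ring
      · rw [if_neg (fun h4 => h2 h4.1), if_neg h2]; ring
  rw [Finset.prod_congr rfl (fun e _ => key e), Finset.prod_mul_distrib, Finset.prod_mul_distrib,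
    Finset.prod_ite_eq', Finset.prod_ite_eq', if_pos (Finset.mem_univ _), if_pos (Finset.mem_univ _)]
  have hww : (∏ e, w e) * (∏ e, w e) = 1 := by
    rw [← Finset.prod_mul_distrib]
    exact Finset.prod_eq_one fun e _ => hw2 e
  have h5 : ((-1 : ℤ) ^ (if σ (es hq) = os hq then 1 else 0)) * (if σ (es hq) = os hq then -1 else 1) = 1 := by
    split_ifs <;> simp
  calc (∏ e, w e) * (-1 : ℤ) ^ (if σ (es hq) = os hq then 1 else 0) *
        ((∏ e, w e) * (-1) ^ (n + 1) * (if σ (es hq) = os hq then -1 else 1))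
      = ((∏ e, w e) * (∏ e, w e)) * (-1) ^ (n + 1) *
        ((-1 : ℤ) ^ (if σ (es hq) = os hq then 1 else 0) * (if σ (es hq) = os hq then -1 else 1)) := by ring
    _ = _ := by rw [hww, h5]; ring

lemma term_invalid {σ : E n ≃ O n} (h : ¬ Valid hq σ) :
    ∏ e : E n, Kh hq ℤ e (σ e) = 0 := by
  by_cases h0 : σ (e0 hq) = o0 hq
  · have : ∃ e, e ≠ e0 hq ∧ ¬ adj e (σ e) := by
      by_contra hcon
      push Not at hcon
      exact h ⟨h0, hcon⟩
    obtain ⟨e, he, hadj⟩ := this
    refine Finset.prod_eq_zero (Finset.mem_univ e) ?_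
    unfold Kh
    rw [if_neg he, K_not_adj _ _ _ hadj]
    simp
  · refine Finset.prod_eq_zero (Finset.mem_univ (e0 hq)) ?_
    unfold Kh
    rw [if_pos rfl, if_neg h0]

/-- the matchings are counted by the determinant -/
lemma det_Kh : ((Kh hq ℤ).submatrix (eE n).symm (eO n).symm).det =
    (-1) ^ (n + 1) * (Fintype.card {σ : E n ≃ O n // Valid hq σ} : ℤ) := by
  rw [← Matrix.det_transpose, Matrix.det_apply', ← Equiv.sum_comp (Equiv.equivCongr (eE n) (eO n))]
  have h1 : ∀ σ : E n ≃ O n, (Equiv.Perm.sign ((Equiv.equivCongr (eE n) (eO n)) σ) : ℤ) *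
      ∏ i, ((Kh hq ℤ).submatrix (eE n).symm (eO n).symm)ᵀ ((Equiv.equivCongr (eE n) (eO n)) σ i) i =
      if Valid hq σ then (-1) ^ (n + 1) else 0 := by
    intro σ
    have e1 : (Equiv.equivCongr (eE n) (eO n)) σ = toPerm σ := rfl
    have e2 : ∏ i, ((Kh hq ℤ).submatrix (eE n).symm (eO n).symm)ᵀ (toPerm σ i) i =
        ∏ e : E n, Kh hq ℤ e (σ e) := by
      rw [← Equiv.prod_comp (eE n)]
      refine Finset.prod_congr rfl fun e _ => ?_
      simp only [Matrix.transpose_apply, Matrix.submatrix_apply, toPerm, Equiv.trans_apply,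
        Equiv.symm_apply_apply]
    rw [e1, e2]
    by_cases h : Valid hq σ
    · rw [if_pos h, term_valid hq h]
    · rw [if_neg h, term_invalid hq h, mul_zero]
  simp only [Int.cast_id]
  rw [Finset.sum_congr rfl (fun σ _ => h1 σ), ← Finset.sum_filter, Finset.sum_const,
    Fintype.card_subtype, nsmul_eq_mul, mul_comm]

end

end Pool.Agent.R181.Aztec
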