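import Mathlib
import Pool.Agent.R181.AztecCount

/-!
Evaluation of the determinant that counts the matchings.
-/

set_option autoImplicit false

open Finset Matrix

namespace Pool.Agent.R181.Aztec

open Pool.Agent.R181.Kraw (C gs)

section
variable {n : ℕ}

lemma eta_sq (R : Type*) [CommRing R] (n : ℕ) : ((-1) ^ n : R) * (-1) ^ n = 1 := by
  rw [← pow_add, ← two_mul, pow_mul, neg_one_sq, one_pow]

/-- inverse of the signed adjacency matrix -/
noncomputable def G (n : ℕ) : Matrix (O n) (E n) ℚ :=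
  ((2 : ℚ) ^ n)⁻¹ • ((U n : Matrix (O n) (O n) ℚ) * Y n ((-1) ^ n : ℚ) * (V n : Matrix (E n) (E n) ℚ))

lemma KG (hn : 1 ≤ n) : (K n ((-1) ^ n : ℚ) * G n : Matrix (E n) (E n) ℚ) = 1 := by
  have h1 := KU n ((-1) ^ n : ℚ)
  have h2 := MY n ((-1) ^ n : ℚ) (eta_sq ℚ n)
  have h3 := VV (R := ℚ) n
  unfold G
  rw [Matrix.mul_smul, ← Matrix.mul_assoc, ← Matrix.mul_assoc, h1, Matrix.smul_mul, Matrix.smul_mul,
    Matrix.mul_assoc (V n), h2, Matrix.mul_one, h3, smul_smul, smul_smul]
  have h4 : ((2 : ℚ) ^ n)⁻¹ * 2 * 2 ^ (n - 1) = 1 := by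
    rw [mul_assoc, ← pow_succ', show n - 1 + 1 = n by omega]
    exact inv_mul_cancel₀ (by positivity)
  rw [h4, one_smul]

lemma yf_center (n q k l : ℕ) (η : ℚ) : yf n η q k (q + 1) l =
    if k = l + 1 then (if n ≤ q + 1 + l then η else 0) else 0 := by
  unfold yf
  by_cases h : k = l + 1
  · rw [if_pos h, if_pos (by omega)]
    by_cases h2 : n ≤ q + 1 + l
    · rw [if_pos h2, if_neg (by omega), if_pos (by omega), show q + 1 - 1 - q = 0 by omega]
      ring
    · rw [if_neg h2, if_pos (by omega), if_neg (by omega)]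
  · rw [if_neg h, if_neg (by omega)]

lemma G_center (o : O n) (e : E n) (h : (e.1 : ℕ) = o.1 + 1) :
    G n o e = ((2 : ℚ) ^ n)⁻¹ * ((-1) ^ n * gs n o.1 o.2 e.2) := by
  obtain ⟨i, c⟩ := o
  obtain ⟨j, d⟩ := e
  simp only at h
  have hj := j.isLt
  unfold G
  rw [Matrix.smul_apply, smul_eq_mul]
  congr 1
  rw [Matrix.mul_apply, Fintype.sum_prod_type, Finset.sum_eq_single j]
  · have e1 : ∀ l : Fin n, ((U n : Matrix (O n) (O n) ℚ) * Y n ((-1) ^ n : ℚ)) (i, c) (j, l) =
        if n ≤ (i : ℕ) + 1 + l then (-1) ^ n * (C c (n - c) (l + 1) : ℚ) else 0 := by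
      intro l
      have hl := l.isLt
      rw [Matrix.mul_apply, Fintype.sum_prod_type, Finset.sum_eq_single i]
      · rw [Finset.sum_eq_single (⟨l + 1, by omega⟩ : Fin (n + 1))]
        · simp only [U, Y, if_true]
          rw [h, yf_center, if_pos rfl]
          by_cases h2 : n ≤ (i : ℕ) + 1 + l
          · rw [if_pos h2, if_pos h2]; ring
          · rw [if_neg h2, if_neg h2, mul_zero]
        · intro b _ hb
          simp only [Y]
          rw [h, yf_center, if_neg, mul_zero]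
          intro h3
          exact hb (Fin.ext h3)
        · intro h3; exact absurd (Finset.mem_univ _) h3
      · intro b _ hb
        refine Finset.sum_eq_zero fun k _ => ?_
        simp only [U]
        rw [if_neg hb, zero_mul]
      · intro h3; exact absurd (Finset.mem_univ _) h3
    have e2 : ∀ l : Fin n, ((U n : Matrix (O n) (O n) ℚ) * Y n ((-1) ^ n : ℚ)) (i, c) (j, l) *
        (V n : Matrix (E n) (E n) ℚ) (j, l) (j, d) =
        (fun l : ℕ => (-1) ^ n * (if n ≤ (i : ℕ) + 1 + l then (C c (n - c) (l + 1) : ℚ) *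
          (C l (n - 1 - l) d : ℚ) else 0)) l := by
      intro l
      rw [e1]
      simp only [V, if_true]
      by_cases h2 : n ≤ (i : ℕ) + 1 + l
      · rw [if_pos h2, if_pos h2]; ring
      · rw [if_neg h2, if_neg h2]; ring
    rw [Finset.sum_congr rfl (fun l _ => e2 l),
      Fin.sum_univ_eq_sum_range (fun l : ℕ => (-1 : ℚ) ^ n * (if n ≤ (i : ℕ) + 1 + l then
        (C c (n - c) (l + 1) : ℚ) * (C l (n - 1 - l) d : ℚ) else 0)) n, ← Finset.mul_sum]
    rfl
  · intro b _ hb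
    refine Finset.sum_eq_zero fun l _ => ?_
    simp only [V]
    rw [if_neg (fun h3 => hb h3.symm), mul_zero]
  · intro h3; exact absurd (Finset.mem_univ _) h3

lemma cardE : Fintype.card (E n) = (n + 1) * n := by
  rw [Fintype.card_prod, Fintype.card_fin, Fintype.card_fin]

lemma cardO : Fintype.card (O n) = (n + 1) * n := by
  rw [Fintype.card_prod, Fintype.card_fin, Fintype.card_fin, Nat.mul_comm]

lemma det_M_sq : (((M n ((-1) ^ n : ℚ)).submatrix (eE n).symm (eO n).symm).det) ^ 2 = 1 := by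
  have h1 := MY n ((-1) ^ n : ℤ) (eta_sq ℤ n)
  have h2 : ((M n ((-1) ^ n : ℤ)).submatrix (eE n).symm (eO n).symm).det *
      ((Y n ((-1) ^ n : ℤ)).submatrix (eO n).symm (eE n).symm).det = 1 := by
    rw [← Matrix.det_mul, Matrix.submatrix_mul_equiv, h1, Matrix.submatrix_one_equiv, Matrix.det_one]
  have h3 : ((M n ((-1) ^ n : ℤ)).submatrix (eE n).symm (eO n).symm).det ^ 2 = 1 := by
    rcases Int.isUnit_iff.mp (IsUnit.of_mul_eq_one _ h2) with h | h <;> rw [h] <;> norm_num
  have h4 : (M n ((-1) ^ n : ℚ)).submatrix (eE n).symm (eO n).symm =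
      (Int.castRingHom ℚ).mapMatrix ((M n ((-1) ^ n : ℤ)).submatrix (eE n).symm (eO n).symm) := by
    apply Matrix.ext
    intro i j
    simp only [Matrix.submatrix_apply, RingHom.mapMatrix_apply, Matrix.map_apply, M, mf]
    split_ifs <;> simp
  rw [h4, ← RingHom.map_det, ← map_pow, h3, map_one]

lemma det_K_sq (hn : 1 ≤ n) : (((K n ((-1) ^ n : ℚ)).submatrix (eE n).symm (eO n).symm).det) ^ 2 =
    2 ^ ((n + 1) * n) := by
  have h1 := KU n ((-1) ^ n : ℚ)
  have h2 : ((K n ((-1) ^ n : ℚ)).submatrix (eE n).symm (eO n).symm).det *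
      (U n : Matrix (O n) (O n) ℚ).det = 2 ^ ((n + 1) * n) * ((V n : Matrix (E n) (E n) ℚ).det *
      ((M n ((-1) ^ n : ℚ)).submatrix (eE n).symm (eO n).symm).det) := by
    rw [← Matrix.det_submatrix_equiv_self (eO n).symm (U n : Matrix (O n) (O n) ℚ), ← Matrix.det_mul,
      Matrix.submatrix_mul_equiv, h1,
      ← Matrix.det_submatrix_equiv_self (eE n).symm (V n : Matrix (E n) (E n) ℚ), ← Matrix.det_mul,
      Matrix.submatrix_mul_equiv, Matrix.submatrix_smul, Pi.smul_apply, Pi.smul_apply,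
      Matrix.det_smul, Fintype.card_fin]
  have hU : ((U n : Matrix (O n) (O n) ℚ).det) ^ 2 = (2 ^ n) ^ ((n + 1) * n) := by
    rw [pow_two, ← Matrix.det_mul, UU, Matrix.det_smul, Matrix.det_one, mul_one, cardO]
  have hV : ((V n : Matrix (E n) (E n) ℚ).det) ^ 2 = (2 ^ (n - 1)) ^ ((n + 1) * n) := by
    rw [pow_two, ← Matrix.det_mul, VV, Matrix.det_smul, Matrix.det_one, mul_one, cardE]
  have h3 := congrArg (fun x => x ^ 2) h2
  simp only [mul_pow] at h3
  rw [hU, hV, det_M_sq, mul_one] at h3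
  have hne : ((2 : ℚ) ^ n) ^ ((n + 1) * n) ≠ 0 := by positivity
  apply mul_right_cancel₀ hne
  rw [h3, ← pow_mul, ← pow_mul, ← pow_mul, ← pow_add, ← pow_add]
  congr 1
  obtain ⟨m, rfl⟩ : ∃ m, n = m + 1 := ⟨n - 1, by omega⟩
  rw [Nat.add_sub_cancel]
  ring

end

section
variable {n q : ℕ} (hq : q + 1 < n)

def Am : Matrix (E n) (Fin 2) ℚ := fun e k =>
  if k = 0 then (if e = es hq then 1 else 0) else (if e = e0 hq then 1 else 0)

def Cm : Matrix (Fin 2) (O n) ℚ := fun k o =>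
  if k = 0 then (if o = os hq then 2 * (-1) ^ n else 0)
  else ((if o = o0 hq then 1 else 0) - K n ((-1) ^ n : ℚ) (e0 hq) o)

lemma K_es_os : K n ((-1) ^ n : ℚ) (es hq) (os hq) = - (-1) ^ n := by
  unfold K kf alpha beta
  rw [es_1, es_2, os_1, os_2]
  rw [if_neg (by omega), if_pos rfl, if_neg (by omega), if_pos rfl]
  ring

lemma Kh_eq : Kh hq ℚ = K n ((-1) ^ n : ℚ) + Am hq * Cm hq := by
  apply Matrix.ext
  intro e o
  rw [Matrix.add_apply, Matrix.mul_apply, Fin.sum_univ_two]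
  unfold Kh
  simp only [Am, Cm, if_true, one_ne_zero, if_false]
  by_cases h1 : e = e0 hq
  · subst h1
    rw [if_pos rfl, if_neg (es_ne_e0 hq).symm, if_pos rfl]; ring
  · rw [if_neg h1, if_neg h1]
    by_cases h2 : e = es hq
    · subst h2
      rw [if_pos rfl]
      by_cases h3 : o = os hq
      · rw [if_pos ⟨rfl, h3⟩, if_pos h3, h3, K_es_os]; ring
      · rw [if_neg (fun h4 => h3 h4.2), if_neg h3]; ring
    · rw [if_neg (fun h4 => h2 h4.1), if_neg h2]; ring

/-- the two by two determinant -/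
noncomputable def D2 (n q : ℕ) : ℚ :=
  ((2 : ℚ) ^ n)⁻¹ * ((1 + 2 * ((2 : ℚ) ^ n)⁻¹ * gs n q (q + 1) q) * gs n q q (q + 1) -
    2 * ((2 : ℚ) ^ n)⁻¹ * gs n q (q + 1) (q + 1) * gs n q q q)

lemma det_ratio : ((Kh hq ℚ).submatrix (eE n).symm (eO n).symm).det =
    ((K n ((-1) ^ n : ℚ)).submatrix (eE n).symm (eO n).symm).det * ((-1) ^ n * D2 n q) := by
  have hn : 1 ≤ n := by omega
  have hKG := KG hn
  have h1 : ((K n ((-1) ^ n : ℚ)).submatrix (eE n).symm (eO n).symm).det *
      ((G n).submatrix (eO n).symm (eE n).symm).det = 1 := by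
    rw [← Matrix.det_mul, Matrix.submatrix_mul_equiv, hKG, Matrix.submatrix_one_equiv, Matrix.det_one]
  have h2 : ((Kh hq ℚ).submatrix (eE n).symm (eO n).symm).det *
      ((G n).submatrix (eO n).symm (eE n).symm).det = (1 + (Cm hq * G n) * Am hq).det := by
    rw [← Matrix.det_mul, Matrix.submatrix_mul_equiv, Matrix.det_submatrix_equiv_self, Kh_eq,
      Matrix.add_mul, hKG, Matrix.mul_assoc, Matrix.det_one_add_mul_comm]
  have hA : ∀ (k : Fin 2) (B : Matrix (Fin 2) (E n) ℚ), (B * Am hq) k 0 = B k (es hq) ∧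
      (B * Am hq) k 1 = B k (e0 hq) := by
    intro k B
    constructor
    · rw [Matrix.mul_apply]
      simp [Am]
    · rw [Matrix.mul_apply]
      simp [Am]
  have hC0 : ∀ e : E n, (Cm hq * G n) 0 e = 2 * (-1) ^ n * G n (os hq) e := by
    intro e
    rw [Matrix.mul_apply]
    simp [Cm]
  have hC1 : ∀ e : E n, (Cm hq * G n) 1 e = G n (o0 hq) e - (if e0 hq = e then 1 else 0) := by
    intro e
    have h3 : (K n ((-1) ^ n : ℚ) * G n) (e0 hq) e = if e0 hq = e then 1 else 0 := by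
      rw [hKG, Matrix.one_apply]
    rw [← h3, Matrix.mul_apply, Matrix.mul_apply]
    simp only [Cm, one_ne_zero, if_false, sub_mul, Finset.sum_sub_distrib, ite_mul, one_mul, zero_mul,
      Finset.sum_ite_eq', Finset.mem_univ, if_true]
  have h3 : (1 + (Cm hq * G n) * Am hq).det = (-1) ^ n * D2 n q := by
    rw [Matrix.det_fin_two]
    simp only [Matrix.add_apply, (hA _ _).1, (hA _ _).2, hC0, hC1, Matrix.one_apply_eq,
      Matrix.one_apply_ne (show (0 : Fin 2) ≠ 1 by decide),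
      Matrix.one_apply_ne (show (1 : Fin 2) ≠ 0 by decide), if_true, if_neg (es_ne_e0 hq).symm]
    rw [G_center (os hq) (es hq) rfl, G_center (o0 hq) (e0 hq) rfl, G_center (os hq) (e0 hq) rfl,
      G_center (o0 hq) (es hq) rfl]
    simp only [os_1, os_2, es_2, o0_1, o0_2, e0_2]
    unfold D2
    have h5 := eta_sq ℚ n
    set η := ((-1 : ℚ) ^ n) with hη
    set r := ((2 : ℚ) ^ n)⁻¹ with hr
    linear_combination (2 * r * gs n q (q + 1) q * (r * η * gs n q q (q + 1)) -
      2 * r * gs n q (q + 1) (q + 1) * (r * η * gs n q q q)) * h5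
  rw [h3] at h2
  calc ((Kh hq ℚ).submatrix (eE n).symm (eO n).symm).det
      = ((Kh hq ℚ).submatrix (eE n).symm (eO n).symm).det *
        (((K n ((-1) ^ n : ℚ)).submatrix (eE n).symm (eO n).symm).det *
          ((G n).submatrix (eO n).symm (eE n).symm).det) := by rw [h1, mul_one]
    _ = ((K n ((-1) ^ n : ℚ)).submatrix (eE n).symm (eO n).symm).det *
        (((Kh hq ℚ).submatrix (eE n).symm (eO n).symm).det *
          ((G n).submatrix (eO n).symm (eE n).symm).det) := by ring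
    _ = _ := by rw [h2]

/-- the number of matchings, squared -/
theorem card_sq : ((Fintype.card {σ : E n ≃ O n // Valid hq σ} : ℕ) : ℚ) ^ 2 =
    2 ^ ((n + 1) * n) * (D2 n q) ^ 2 := by
  have h1 := det_Kh hq
  have h2 : (Kh hq ℚ).submatrix (eE n).symm (eO n).symm =
      (Int.castRingHom ℚ).mapMatrix ((Kh hq ℤ).submatrix (eE n).symm (eO n).symm) := by
    apply Matrix.ext
    intro i j
    simp only [Matrix.submatrix_apply, RingHom.mapMatrix_apply, Matrix.map_apply, Kh, K, kf, alpha, beta]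
    split_ifs <;> norm_num
  have h3 := det_ratio hq
  rw [h2, ← RingHom.map_det, h1] at h3
  have h4 := congrArg (fun x => x ^ 2) h3
  simp only [mul_pow, det_K_sq (show 1 ≤ n by omega)] at h4
  have h5 := eta_sq ℚ n
  have h6 : ((-1 : ℚ) ^ n) ^ 2 = 1 := by rw [pow_two]; exact h5
  rw [h6, one_mul] at h4
  rw [← h4]
  simp only [map_mul, map_pow, map_neg, map_one, Int.cast_natCast, eq_intCast, mul_pow]
  have h7 : ((-1 : ℚ) ^ (n + 1)) ^ 2 = 1 := by rw [pow_two]; exact eta_sq ℚ (n + 1)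
  rw [h7, one_mul]

end

end Pool.Agent.R181.Aztec
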