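import Mathlib
import Pool.Agent.R181.AztecEval

/-!
Closed forms for the number of matchings.
-/

set_option autoImplicit false

namespace Pool.Agent.R181.Aztec

open Pool.Agent.R181.Kraw

/-- normalised central binomial coefficient -/
noncomputable def B (p : ℕ) : ℚ := (p.centralBinom : ℚ) / 4 ^ p

lemma B_nonneg (p : ℕ) : 0 ≤ B p := by unfold B; positivity

lemma B_le_one (p : ℕ) : B p ≤ 1 := by
  unfold B
  rw [div_le_one (by positivity)]
  have h : p.centralBinom ≤ 4 ^ p := by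
    have h1 : p.centralBinom = (2 * p).choose p := rfl
    have h2 : (2 * p).choose p ≤ 2 ^ (2 * p) := by
      rw [← Nat.sum_range_choose]
      exact Finset.single_le_sum (f := fun m => (2 * p).choose m) (fun _ _ => Nat.zero_le _)
        (Finset.mem_range.mpr (by omega))
    rw [h1]
    calc (2 * p).choose p ≤ 2 ^ (2 * p) := h2
      _ = 4 ^ p := by rw [pow_mul]; norm_num
  exact_mod_cast h

lemma cb_succ (p : ℕ) : ((p : ℚ) + 1) * ((p + 1).centralBinom : ℚ) = 2 * (2 * p + 1) * (p.centralBinom : ℚ) := by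
  exact_mod_cast Nat.succ_mul_centralBinom_succ p

lemma D2_case1 (p : ℕ) : D2 (4 * p + 1) (2 * p) = - ((2 * p + 1) / 4 * (B p ^ 2 * (1 - B p ^ 2))) := by
  unfold D2
  have g1 := gs_odd_ll (2 * p)
  have g2 := gs_odd_ur (2 * p)
  have g3 := gs_odd_lr (2 * p)
  have g4 := gs_odd_ul (2 * p)
  rw [show 2 * (2 * p) + 1 = 4 * p + 1 by ring] at g1 g2 g3 g4
  rw [g1, g2, g3, g4, Ev_even, W_even]
  have hS : S (2 * p) = (16 ^ p - (p.centralBinom : ℚ) ^ 2) / 2 := by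
    have := two_S (2 * p)
    rw [Ev_even, pow_mul, show (4 : ℚ) ^ 2 = 16 by norm_num] at this
    linarith
  rw [hS]
  unfold B
  have h16 : (2 : ℚ) ^ (4 * p + 1) = 2 * 16 ^ p := by
    rw [pow_succ, pow_mul]; norm_num; ring
  have h4 : ((4 : ℚ) ^ p) ^ 2 = 16 ^ p := by
    rw [← pow_mul, mul_comm, pow_mul]; norm_num
  have hp : (2 * (p : ℚ) + 1) ≠ 0 := by positivity
  have h16' : (16 : ℚ) ^ p ≠ 0 := by positivity
  rw [h16, div_pow, h4]
  push_cast
  field_simp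
  ring

lemma D2_case3 (p : ℕ) : D2 (4 * p + 3) (2 * p + 1) = - ((2 * p + 1) / 4 * (B p * B (p + 1))) := by
  unfold D2
  have g1 := gs_odd_ll (2 * p + 1)
  have g2 := gs_odd_ur (2 * p + 1)
  have g3 := gs_odd_lr (2 * p + 1)
  have g4 := gs_odd_ul (2 * p + 1)
  rw [show 2 * (2 * p + 1) + 1 = 4 * p + 3 by ring] at g1 g2 g3 g4
  rw [g1, g2, g3, g4, Ev_odd, W_odd]
  have hS : S (2 * p + 1) = 2 * 16 ^ p := by
    have := two_S (2 * p + 1)
    rw [Ev_odd, pow_succ, pow_mul, show (4 : ℚ) ^ 2 = 16 by norm_num] at this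
    linarith
  rw [hS]
  unfold B
  have h16 : (2 : ℚ) ^ (4 * p + 3) = 8 * 16 ^ p := by
    rw [pow_add, pow_mul]; norm_num; ring
  have h4 : (4 : ℚ) ^ p * 4 ^ (p + 1) = 4 * 16 ^ p := by
    rw [pow_succ, ← mul_assoc, ← mul_pow]; norm_num; ring
  have hp : (2 * (p : ℚ) + 1 + 1) ≠ 0 := by positivity
  have h16' : (16 : ℚ) ^ p ≠ 0 := by positivity
  rw [h16, div_mul_div_comm, h4]
  push_cast
  field_simp
  ring

lemma D2_case2 (p : ℕ) : D2 (4 * p + 2) (2 * p) = - ((2 * p + 1) / 4 * B p ^ 2) := by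
  unfold D2
  have g1 := gs_even_ll (2 * p)
  have g2 := gs_even_ur (2 * p)
  have g3 := gs_even_lr (2 * p)
  have g4 := gs_even_ul (2 * p)
  rw [show 2 * (2 * p) + 2 = 4 * p + 2 by ring] at g1 g2 g3 g4
  rw [g1, g2, g3, g4, Ev_odd, W_odd]
  have hS : S (2 * p + 1) = 2 * 16 ^ p := by
    have := two_S (2 * p + 1)
    rw [Ev_odd, pow_succ, pow_mul, show (4 : ℚ) ^ 2 = 16 by norm_num] at this
    linarith
  rw [hS]
  unfold B
  have h16 : (2 : ℚ) ^ (4 * p + 2) = 4 * 16 ^ p := by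
    rw [pow_add, pow_mul]; norm_num; ring
  have h4 : ((4 : ℚ) ^ p) ^ 2 = 16 ^ p := by
    rw [← pow_mul, mul_comm, pow_mul]; norm_num
  have hp : (2 * (p : ℚ) + 1) ≠ 0 := by positivity
  have h16' : (16 : ℚ) ^ p ≠ 0 := by positivity
  have hc := cb_succ p
  have hW : ((p : ℚ) + 1) * (2 * p + 1) * ((p.centralBinom : ℚ) * ((p + 1).centralBinom : ℚ)) =
      2 * (2 * p + 1) ^ 2 * (p.centralBinom : ℚ) ^ 2 := by
    linear_combination (2 * (p : ℚ) + 1) * (p.centralBinom : ℚ) * hc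
  rw [hW, h16, div_pow, h4]
  push_cast
  field_simp
  ring

lemma D2_case0 (p : ℕ) : D2 (4 * (p + 1)) (2 * p + 1) =
    - (((p + 1 : ℕ) : ℚ) / 2 * (B (p + 1) ^ 2 * (1 + B (p + 1) ^ 2))) := by
  unfold D2
  have g1 := gs_even_ll (2 * p + 1)
  have g2 := gs_even_ur (2 * p + 1)
  have g3 := gs_even_lr (2 * p + 1)
  have g4 := gs_even_ul (2 * p + 1)
  rw [show 2 * (2 * p + 1) + 2 = 4 * (p + 1) by ring, show 2 * p + 1 + 1 = 2 * (p + 1) by ring] at g1 g2 g3 g4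
  rw [show 2 * p + 1 + 1 = 2 * (p + 1) by ring, g1, g2, g3, g4, Ev_even, W_even]
  have hS : S (2 * (p + 1)) = (16 ^ (p + 1) - ((p + 1).centralBinom : ℚ) ^ 2) / 2 := by
    have := two_S (2 * (p + 1))
    rw [Ev_even, pow_mul, show (4 : ℚ) ^ 2 = 16 by norm_num] at this
    linarith
  rw [hS]
  unfold B
  have h16 : (2 : ℚ) ^ (4 * (p + 1)) = 16 ^ (p + 1) := by
    rw [pow_mul]; norm_num
  have h4 : ((4 : ℚ) ^ (p + 1)) ^ 2 = 16 ^ (p + 1) := by
    rw [← pow_mul, mul_comm, pow_mul]; norm_num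
  have hp : (2 * (p : ℚ) + 1 + 1) ≠ 0 := by positivity
  have h16' : (16 : ℚ) ^ (p + 1) ≠ 0 := by positivity
  rw [h16, div_pow, h4]
  push_cast
  field_simp
  ring

lemma card_of_D2 {n q : ℕ} (hq : q + 1 < n) (v : ℚ) (hv : 0 ≤ v) (h : D2 n q = - v) :
    ((Fintype.card {σ : E n ≃ O n // Valid hq σ} : ℕ) : ℚ) = 2 ^ (n * (n + 1) / 2) * v := by
  have h1 := card_sq hq
  rw [h, neg_sq] at h1
  have h2 : (2 : ℚ) ^ ((n + 1) * n) = (2 ^ (n * (n + 1) / 2)) ^ 2 := by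
    rw [← pow_mul]
    congr 1
    have h3 : 2 ∣ n * (n + 1) := (Nat.even_mul_succ_self n).two_dvd
    rw [mul_comm (n + 1) n]
    omega
  rw [h2, ← mul_pow] at h1
  exact (pow_left_inj₀ (by positivity) (by positivity) (by norm_num)).mp h1

end Pool.Agent.R181.Aztec
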