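import Pool.Agent.R181.LatRel

/-!
# Relations between two distributive lattices closed under componentwise meets and joins
-/

set_option autoImplicit false

namespace Pool.Agent.R181.DistRel

open Finset Pool.Agent.R181.LatRel

section Few

variable {Y : Type*} [DistribLattice Y]

/-- The elements of `L` below `y`. -/
noncomputable def below (L : Finset Y) (y : Y) : Finset Y := by
  classical exact L.filter fun z => z ≤ y

/-- The elements of `L` which cover `y` in `L`. -/
noncomputable def covers (L : Finset Y) (y : Y) : Finset Y := by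
  classical exact L.filter fun c => y < c ∧ ∀ z ∈ L, y < z → z ≤ c → z = c

/-- The elements with at most `h` elements below. -/
noncomputable def small (L : Finset Y) (h : ℕ) : Finset Y := by
  classical exact L.filter fun y => #(below L y) ≤ h

theorem mem_below {L : Finset Y} {y z : Y} : z ∈ below L y ↔ z ∈ L ∧ z ≤ y := by
  simp [below]

theorem mem_covers {L : Finset Y} {y c : Y} :
    c ∈ covers L y ↔ c ∈ L ∧ y < c ∧ ∀ z ∈ L, y < z → z ≤ c → z = c := by
  simp [covers]

theorem mem_small {L : Finset Y} {h : ℕ} {y : Y} :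
    y ∈ small L h ↔ y ∈ L ∧ #(below L y) ≤ h := by
  simp [small]

theorem two_pow_covers {L : Finset Y} (hinf : ∀ a ∈ L, ∀ b ∈ L, a ⊓ b ∈ L)
    (hsup : ∀ a ∈ L, ∀ b ∈ L, a ⊔ b ∈ L) {y : Y} (hy : y ∈ L) : 2 ^ #(covers L y) ≤ #L := by
  classical
  rw [← card_powerset]
  refine card_le_card_of_injOn (fun I => (insert y I).sup' (insert_nonempty y I) id) ?_ ?_
  · intro I hI
    rw [mem_coe, mem_powerset] at hI
    refine Finset.sup'_mem (L : Set Y) (fun a ha b hb => hsup a ha b hb) _ _ _ ?_
    intro i hi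
    rcases mem_insert.1 hi with rfl | hi
    · exact hy
    · exact (mem_covers.1 (hI hi)).1
  · have key : ∀ I ⊆ covers L y, ∀ c ∈ covers L y,
        c ≤ (insert y I).sup' (insert_nonempty y I) id → c ∈ I := by
      intro I hI c hc hle
      by_contra hcI
      obtain ⟨hcL, hyc, hcmin⟩ := mem_covers.1 hc
      have h1 : c ⊓ (insert y I).sup' (insert_nonempty y I) id ≤ y := by
        rw [Finset.sup'_inf_distrib_left]
        refine Finset.sup'_le _ _ fun i hi => ?_
        rcases mem_insert.1 hi with rfl | hi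
        · exact inf_le_right
        · obtain ⟨hiL, hyi, himin⟩ := mem_covers.1 (hI hi)
          by_contra hcon
          have h2 : y ≤ c ⊓ i := le_inf hyc.le hyi.le
          have h3 : y < c ⊓ i := lt_of_le_not_ge h2 hcon
          have h4 : c ⊓ i = c := hcmin _ (hinf _ hcL _ hiL) h3 inf_le_left
          have h5 : c ⊓ i = i := himin _ (hinf _ hcL _ hiL) h3 inf_le_right
          exact hcI ((h4.symm.trans h5) ▸ hi)
      rw [inf_eq_left.2 hle] at h1
      exact absurd h1 (not_le_of_gt hyc)
    intro I hI J hJ h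
    rw [mem_coe, mem_powerset] at hI hJ
    simp only at h
    ext c
    constructor
    · intro hc
      refine key J hJ c (hI hc) ?_
      rw [← h]
      exact Finset.le_sup' (f := id) (mem_insert_of_mem hc)
    · intro hc
      refine key I hI c (hJ hc) ?_
      rw [h]
      exact Finset.le_sup' (f := id) (mem_insert_of_mem hc)

theorem card_small {L : Finset Y} (hinf : ∀ a ∈ L, ∀ b ∈ L, a ⊓ b ∈ L) {k : ℕ}
    (hk : ∀ y ∈ L, #(covers L y) ≤ k) (h : ℕ) : #(small L h) ≤ (k + 1) ^ h := by
  classical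
  induction h with
  | zero =>
    have : small L 0 = ∅ := by
      rw [eq_empty_iff_forall_notMem]
      intro y hy
      obtain ⟨h1, h2⟩ := mem_small.1 hy
      have h3 : 0 < #(below L y) := card_pos.2 ⟨y, mem_below.2 ⟨h1, le_rfl⟩⟩
      omega
    rw [this]; simp
  | succ h ih =>
    set M := L.filter fun y => ∀ z ∈ L, ¬z < y with hM
    have hM1 : #M ≤ 1 := by
      rw [card_le_one]
      intro a ha b hb
      obtain ⟨ha1, ha2⟩ := mem_filter.1 ha
      obtain ⟨hb1, hb2⟩ := mem_filter.1 hb
      have h1 := hinf a ha1 b hb1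
      have h2 : a ⊓ b = a := by
        by_contra hne
        exact ha2 _ h1 (lt_of_le_of_ne inf_le_left hne)
      have h3 : a ⊓ b = b := by
        by_contra hne
        exact hb2 _ h1 (lt_of_le_of_ne inf_le_right hne)
      exact h2.symm.trans h3
    have hsub : small L (h + 1) ⊆ M ∪ (small L h).biUnion (covers L) := by
      intro y hy
      obtain ⟨hyL, hyc⟩ := mem_small.1 hy
      rw [mem_union, mem_biUnion]
      by_cases hmin : ∀ z ∈ L, ¬z < y
      · exact Or.inl (mem_filter.2 ⟨hyL, hmin⟩)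
      · right
        push Not at hmin
        obtain ⟨z₀, hz₀, hz₀y⟩ := hmin
        obtain ⟨z, hz⟩ := (L.filter fun z => z < y).exists_maximal ⟨z₀, mem_filter.2 ⟨hz₀, hz₀y⟩⟩
        obtain ⟨hzL, hzy⟩ := mem_filter.1 hz.prop
        refine ⟨z, mem_small.2 ⟨hzL, ?_⟩, mem_covers.2 ⟨hyL, hzy, ?_⟩⟩
        · have h1 : below L z ⊂ below L y := by
            rw [ssubset_iff_of_subset]
            · exact ⟨y, mem_below.2 ⟨hyL, le_rfl⟩, fun h => absurd (mem_below.1 h).2
                (not_le_of_gt hzy)⟩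
            · intro w hw
              exact mem_below.2 ⟨(mem_below.1 hw).1, (mem_below.1 hw).2.trans hzy.le⟩
          have := card_lt_card h1
          omega
        · intro w hwL hzw hwy
          by_contra hne
          have h1 := hz.le_of_ge (mem_filter.2 ⟨hwL, lt_of_le_of_ne hwy hne⟩) hzw.le
          exact absurd h1 (not_le_of_gt hzw)
    calc #(small L (h + 1)) ≤ #M + #((small L h).biUnion (covers L)) :=
          (card_le_card hsub).trans (card_union_le _ _)
      _ ≤ 1 + #(small L h) * k := by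
          refine Nat.add_le_add hM1 (card_biUnion_le_card_mul _ _ _ fun y hy => ?_)
          exact hk y (mem_small.1 hy).1
      _ ≤ (k + 1) ^ h + (k + 1) ^ h * k :=
          Nat.add_le_add (Nat.one_le_pow _ _ (Nat.succ_pos k)) (Nat.mul_le_mul_right _ ih)
      _ = (k + 1) ^ (h + 1) := by ring

theorem growth (t : ℕ) : ∃ K : ℕ, 1 ≤ K ∧ ∀ m, K ≤ m → 4 * (Nat.log 2 m + 1) ^ t ≤ m := by
  have h := tendsto_pow_const_div_const_pow_of_one_lt t (r := (2 : ℝ)) (by norm_num)
  have h1 : ∀ᶠ n : ℕ in Filter.atTop, (n : ℝ) ^ t / 2 ^ n < 1 / 8 :=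
    h.eventually (gt_mem_nhds (by norm_num))
  obtain ⟨k, hk⟩ := Filter.eventually_atTop.1 h1
  refine ⟨2 ^ k, Nat.one_le_two_pow, fun m hm => ?_⟩
  have hm0 : m ≠ 0 := by
    have := Nat.one_le_two_pow (n := k)
    omega
  have h2 : k ≤ Nat.log 2 m := (Nat.le_log_iff_pow_le (by norm_num) hm0).2 hm
  have h3 := hk (Nat.log 2 m + 1) (by omega)
  have h4 : 2 ^ Nat.log 2 m ≤ m := Nat.pow_log_le_self 2 hm0
  rw [div_lt_div_iff₀ (by positivity) (by norm_num)] at h3
  have h5 : ((Nat.log 2 m + 1) ^ t * 8 : ℕ) < 2 ^ (Nat.log 2 m + 1) := by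
    have h6 : (((Nat.log 2 m + 1) ^ t * 8 : ℕ) : ℝ) < ((2 ^ (Nat.log 2 m + 1) : ℕ) : ℝ) := by
      push_cast
      push_cast at h3
      linarith
    exact_mod_cast h6
  rw [pow_succ] at h5
  omega

/-- In a large distributive lattice few elements have few elements below. -/
theorem few {t K : ℕ} (hK1 : 1 ≤ K) (hK : ∀ m, K ≤ m → 4 * (Nat.log 2 m + 1) ^ t ≤ m)
    {L : Finset Y} (hinf : ∀ a ∈ L, ∀ b ∈ L, a ⊓ b ∈ L)
    (hsup : ∀ a ∈ L, ∀ b ∈ L, a ⊔ b ∈ L) (hL : K ≤ #L) : 4 * #(small L t) ≤ #L := by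
  refine (Nat.mul_le_mul_left 4 (card_small hinf (k := Nat.log 2 #L) ?_ t)).trans (hK _ hL)
  intro y hy
  exact (Nat.le_log_iff_pow_le (by norm_num) (by omega)).2 (two_pow_covers hinf hsup hy)

end Few

section Main

variable {X Y : Type*} [DecidableEq X] [DecidableEq Y] [DistribLattice X] [DistribLattice Y]
  [Fintype X] [Fintype Y]

/-- The elements of the row of `x` above `y`. -/
noncomputable def up (E : Finset (X × Y)) (x : X) (y : Y) : Finset Y := by
  classical exact (row E x).filter fun y' => y ≤ y'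

theorem mem_up {E : Finset (X × Y)} {x : X} {y y' : Y} : y' ∈ up E x y ↔ (x, y') ∈ E ∧ y ≤ y' := by
  simp [up, mem_row]

/-- Many elements below and many elements above in the row. -/
noncomputable def good (E : Finset (X × Y)) (t : ℕ) (x : X) : Finset Y :=
  (row E x).filter fun y => t ≤ #(dn E x y) ∧ t ≤ #(up E x y)

theorem row_le {E : Finset (X × Y)} (hE : Closed E) {t K : ℕ} (hK1 : 1 ≤ K)
    (hK : ∀ m, K ≤ m → 4 * (Nat.log 2 m + 1) ^ t ≤ m) (x : X) :
    #(row E x) ≤ K + 2 * #(good E t x) := by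
  classical
  by_cases hbig : K ≤ #(row E x)
  swap
  · omega
  have hinf : ∀ a ∈ row E x, ∀ b ∈ row E x, a ⊓ b ∈ row E x := by
    intro a ha b hb
    rw [mem_row] at *
    simpa using hE.inf _ ha _ hb
  have hsup : ∀ a ∈ row E x, ∀ b ∈ row E x, a ⊔ b ∈ row E x := by
    intro a ha b hb
    rw [mem_row] at *
    simpa using hE.sup _ ha _ hb
  have h1 : 4 * #(small (row E x) t) ≤ #(row E x) := few hK1 hK hinf hsup hbig
  obtain ⟨U, hU⟩ : ∃ U : Finset Y, U = small (Y := Yᵒᵈ) (row E x) t := ⟨_, rfl⟩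
  have h2 : 4 * #U ≤ #(row E x) := by
    rw [hU]
    exact few (Y := Yᵒᵈ) (L := row E x) hK1 hK (fun a ha b hb => hsup a ha b hb)
      (fun a ha b hb => hinf a ha b hb) hbig
  have h3 : row E x ⊆ good E t x ∪ (small (row E x) t ∪ U) := by
    intro y hy
    rw [mem_union, mem_union]
    by_cases ha : t ≤ #(dn E x y)
    · by_cases hb : t ≤ #(up E x y)
      · exact Or.inl (mem_filter.2 ⟨hy, ha, hb⟩)
      · right; right
        rw [hU]
        refine (mem_small (Y := Yᵒᵈ)).2 ⟨hy, ?_⟩
        refine le_trans (card_le_card (t := up E x y) ?_) (by omega)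
        intro z hz
        obtain ⟨hz1, hz2⟩ := (mem_below (Y := Yᵒᵈ)).1 hz
        exact mem_up.2 ⟨mem_row.1 hz1, hz2⟩
    · right; left
      refine mem_small.2 ⟨hy, ?_⟩
      refine le_trans (card_le_card (t := dn E x y) ?_) (by omega)
      intro z hz
      obtain ⟨hz1, hz2⟩ := mem_below.1 hz
      exact mem_dn.2 ⟨mem_row.1 hz1, hz2⟩
  have h4 := (card_le_card h3).trans ((card_union_le _ _).trans
    (Nat.add_le_add_left (card_union_le _ _) _))
  omega

theorem col_le {E : Finset (X × Y)} (hE : Closed E) {t : ℕ} (ht : NoBiclique t E) {x : X} {y : Y}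
    (hy : y ∈ good E t x) : #(row (sw E) y) ≤ t ^ 2 := by
  classical
  obtain ⟨hxy, h1, h2⟩ := mem_filter.1 hy
  rw [mem_row] at hxy
  have h3 : #(dn (sw E) y x) < t := by
    by_contra hcon
    push Not at hcon
    refine ht (dn (sw E) y x) (dn E x y) hcon h1 ?_
    intro x' hx' y' hy'
    rw [mem_dn, mem_sw] at hx'
    rw [mem_dn] at hy'
    exact hE.rect hx'.1 hy'.1 hx'.2 hy'.2
  have h4 : #(up (sw E) y x) < t := by
    by_contra hcon
    push Not at hcon
    refine ht (up (sw E) y x) (up E x y) hcon h2 ?_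
    intro x' hx' y' hy'
    rw [mem_up, mem_sw] at hx'
    rw [mem_up] at hy'
    have h5 := hE.sup _ hx'.1 _ hy'.1
    rwa [Prod.mk_sup_mk, sup_eq_left.2 hx'.2, sup_eq_right.2 hy'.2] at h5
  have h5 : #(row (sw E) y) ≤ #(dn (sw E) y x ×ˢ up (sw E) y x) := by
    refine card_le_card_of_injOn (fun z => (z ⊓ x, z ⊔ x)) ?_ ?_
    · intro z hz
      rw [mem_coe, mem_row, mem_sw] at hz
      rw [mem_coe, mem_product, mem_dn, mem_up, mem_sw, mem_sw]
      have h6 := hE.inf _ hz _ hxy
      have h7 := hE.sup _ hz _ hxy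
      rw [Prod.mk_inf_mk, inf_idem] at h6
      rw [Prod.mk_sup_mk, sup_idem] at h7
      exact ⟨⟨h6, inf_le_right⟩, ⟨h7, le_sup_right⟩⟩
    · intro z _ w _ h
      simp only [Prod.mk.injEq] at h
      exact eq_of_inf_eq_sup_eq h.1 h.2
  rw [card_product] at h5
  calc #(row (sw E) y) ≤ #(dn (sw E) y x) * #(up (sw E) y x) := h5
    _ ≤ t * t := Nat.mul_le_mul h3.le h4.le
    _ = t ^ 2 := by ring

theorem card_eq_sum_row (E : Finset (X × Y)) : #E = ∑ x, #(row E x) := by
  classical
  rw [card_eq_sum_card_fiberwise (f := Prod.fst) (t := univ) (fun _ _ => mem_coe.2 (mem_univ _))]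
  refine sum_congr rfl fun x _ => ?_
  refine card_bij (fun e _ => e.2) ?_ ?_ ?_
  · intro e he
    obtain ⟨he1, rfl⟩ := mem_filter.1 he
    exact mem_row.2 he1
  · intro e he e' he' h
    rw [mem_filter] at he he'
    exact Prod.ext (he.2.trans he'.2.symm) h
  · intro y hy
    exact ⟨(x, y), mem_filter.2 ⟨mem_row.1 hy, rfl⟩, rfl⟩

/-- The main bound. -/
theorem card_le {E : Finset (X × Y)} (hE : Closed E) {t K : ℕ} (ht : NoBiclique t E) (hK1 : 1 ≤ K)
    (hK : ∀ m, K ≤ m → 4 * (Nat.log 2 m + 1) ^ t ≤ m) :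
    #E ≤ K * Fintype.card X + 2 * t ^ 2 * Fintype.card Y := by
  classical
  have h1 : ∑ x : X, #(good E t x) ≤ t ^ 2 * Fintype.card Y := by
    have h2 : ∑ x : X, #(good E t x) = ∑ y : Y, #(univ.filter fun x : X => y ∈ good E t x) := by
      have := sum_card_bipartiteAbove_eq_sum_card_bipartiteBelow (s := (univ : Finset X))
        (t := (univ : Finset Y)) (r := fun x y => y ∈ good E t x)
      simp only [bipartiteAbove, bipartiteBelow] at this
      rw [← this]
      refine sum_congr rfl fun x _ => ?_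
      congr 1
      ext y
      simp
    rw [h2]
    calc ∑ y : Y, #(univ.filter fun x : X => y ∈ good E t x) ≤ ∑ _y : Y, t ^ 2 := by
          refine sum_le_sum fun y _ => ?_
          rcases (univ.filter fun x : X => y ∈ good E t x).eq_empty_or_nonempty with h3 | ⟨x, hx⟩
          · rw [h3]; simp
          · refine le_trans (card_le_card ?_) (col_le hE ht (mem_filter.1 hx).2)
            intro z hz
            rw [mem_row, mem_sw]
            exact mem_row.1 (mem_filter.1 (mem_filter.1 hz).2).1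
      _ = t ^ 2 * Fintype.card Y := by rw [sum_const, card_univ, smul_eq_mul]; ring
  rw [card_eq_sum_row]
  calc ∑ x, #(row E x) ≤ ∑ x, (K + 2 * #(good E t x)) := sum_le_sum fun x _ => row_le hE hK1 hK x
    _ = K * Fintype.card X + 2 * ∑ x, #(good E t x) := by
        rw [sum_add_distrib, sum_const, card_univ, smul_eq_mul, ← mul_sum]; ring
    _ ≤ K * Fintype.card X + 2 * (t ^ 2 * Fintype.card Y) := by gcongr
    _ = _ := by ring

end Main

end Pool.Agent.R181.DistRel
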