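import Mathlib

/-!
# Discrete varieties and the functional `η`

Definitions for the two problems on the functional `η` of discrete varieties, and the combinatorial
identities used in their solution.  Subgraphs induced by sets of vertices are represented by these
sets of vertices.
-/

set_option autoImplicit false

namespace Pool.Agent.R181.Eta

open Finset
open scoped Classical

/-! ### Definitions -/

/-- The unit sphere `S(x)` of `x` in the subgraph of `G` induced by the vertex set `A`: the
neighbours of `x` in `A` (it stands for the subgraph which they induce). -/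
noncomputable def sph {V : Type} (G : SimpleGraph V) (A : Finset V) (x : V) : Finset V :=
  A.filter fun y => G.Adj x y

/-- `Collapsible G A`: the subgraph of `G` induced by `A` is collapsible: it is a single vertex, or
for some vertex `x` both the graph without `x` and the unit sphere `S(x)` are collapsible. -/
inductive Collapsible {V : Type} (G : SimpleGraph V) : Finset V → Prop
  | point (x : V) : Collapsible G {x}
  | step (A : Finset V) (x : V) (hx : x ∈ A) (h1 : Collapsible G (A.erase x))
      (h2 : Collapsible G (sph G A x)) : Collapsible G A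

/-- `IsSphere G (d + 1) A`: the subgraph of `G` induced by `A` is a `d`-sphere, i.e. all unit
spheres are `(d-1)`-spheres and the removal of some vertex leaves a collapsible graph. The
`(-1)`-sphere is the empty graph. -/
def IsSphere {V : Type} (G : SimpleGraph V) : ℕ → Finset V → Prop
  | 0, A => A = ∅
  | n + 1, A => (∀ x ∈ A, IsSphere G n (sph G A x)) ∧ ∃ x ∈ A, Collapsible G (A.erase x)

/-- `IsGr G (d + 1) A`: the subgraph of `G` induced by `A` is a `d`-graph, i.e. all unit spheres
are `(d-1)`-spheres. The `(-1)`-graph is the empty graph. -/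
def IsGr {V : Type} (G : SimpleGraph V) : ℕ → Finset V → Prop
  | 0, A => A = ∅
  | n + 1, A => ∀ x ∈ A, IsSphere G n (sph G A x)

/-- `IsVariety G (d + 1) A`: the subgraph of `G` induced by `A` is a `d`-variety: there is a set
`Sg` of pairwise non-adjacent vertices (the singularities) such that `S(x)` is a `(d-1)`-graph for
the vertices `x` not in `Sg` and a `(d-1)`-variety for the vertices `x` in `Sg`. The
`(-1)`-variety is the empty graph. -/
def IsVariety {V : Type} (G : SimpleGraph V) : ℕ → Finset V → Prop
  | 0, A => A = ∅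
  | n + 1, A => ∃ Sg : Finset V, Sg ⊆ A ∧ (∀ x ∈ Sg, ∀ y ∈ Sg, ¬ G.Adj x y) ∧
      (∀ x ∈ A, x ∉ Sg → IsGr G n (sph G A x)) ∧ ∀ x ∈ Sg, IsVariety G n (sph G A x)

/-- `numK H A k` is `v_k`, the number of complete subgraphs with `k + 1` vertices, of the subgraph
of `H` induced by `A`. -/
noncomputable def numK {W : Type} (H : SimpleGraph W) (A : Finset W) (k : ℕ) : ℕ :=
  (A.powerset.filter fun s => H.IsNClique (k + 1) s).card

/-- The Euler characteristic `v_0 - v_1 + v_2 - …` of the subgraph of `H` induced by `A`. -/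
noncomputable def chi {W : Type} (H : SimpleGraph W) (A : Finset W) : ℤ :=
  ∑ k ∈ range A.card, (-1) ^ k * (numK H A k : ℤ)

/-- The vertices of the Barycentric refinement: the vertex sets of the complete subgraphs. -/
abbrev Face {V : Type} (G : SimpleGraph V) : Type := {s : Finset V // s.Nonempty ∧ G.IsClique s}

/-- The Barycentric refinement `G_1`: two complete subgraphs are adjacent when one strictly
contains the other. -/
def refine {V : Type} (G : SimpleGraph V) : SimpleGraph (Face G) where
  Adj s t := s.1 ⊂ t.1 ∨ t.1 ⊂ s.1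
  symm := ⟨fun _ _ h => h.symm⟩
  loopless := ⟨fun _ h => by rcases h with h | h <;> exact (ssubset_irrefl _ h)⟩

/-- `η(G) = ∑_{k ≥ 1} (-1)^(k+1) (k+1) v_k(G_1)`. -/
noncomputable def eta {V : Type} [Fintype V] (G : SimpleGraph V) : ℤ :=
  ∑ k ∈ Icc 1 (Fintype.card (Face G)), (-1) ^ (k + 1) * ((k : ℤ) + 1) * (numK (refine G) univ k : ℤ)

/-! ### Signed numbers of cliques -/

section general
variable {W : Type} (H : SimpleGraph W)

/-- The cliques (including the empty one) in `A`. -/
noncomputable def Kl (A : Finset W) : Finset (Finset W) :=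
  A.powerset.filter fun c => H.IsClique (c : Set W)

theorem mem_Kl {A c : Finset W} : c ∈ Kl H A ↔ c ⊆ A ∧ H.IsClique (c : Set W) := by
  simp [Kl]

theorem mem_sph {A : Finset W} {x y : W} : y ∈ sph H A x ↔ y ∈ A ∧ H.Adj x y := by
  simp [sph]

theorem empty_mem_Kl (A : Finset W) : ∅ ∈ Kl H A := by
  simp [Kl]

/-- `1 - χ`. -/
noncomputable def rho (A : Finset W) : ℤ := ∑ c ∈ Kl H A, (-1) ^ c.card

theorem Kl_empty : Kl H ∅ = {∅} := by
  ext c
  rw [mem_Kl, mem_singleton, subset_empty]
  constructor
  · exact fun h => h.1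
  · rintro rfl
    simp

theorem rho_empty : rho H ∅ = 1 := by
  simp [rho, Kl_empty]

theorem insert_mem_Kl {A c : Finset W} {x : W} (hx : x ∈ A) :
    insert x c ∈ Kl H A ↔ c.erase x ∈ Kl H (sph H A x) := by
  rw [mem_Kl, mem_Kl]
  constructor
  · rintro ⟨h1, h2⟩
    refine ⟨?_, ?_⟩
    · intro y hy
      rw [mem_erase] at hy
      rw [mem_sph]
      refine ⟨h1 (mem_insert_of_mem hy.2), ?_⟩
      exact h2 (by simp) (by simp [hy.2]) (Ne.symm hy.1)
    · intro y hy z hz hyz
      simp only [coe_erase, Set.mem_sdiff, mem_coe, Set.mem_singleton_iff] at hy hz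
      exact h2 (by simp [hy.1]) (by simp [hz.1]) hyz
  · rintro ⟨h1, h2⟩
    refine ⟨?_, ?_⟩
    · intro y hy
      rw [mem_insert] at hy
      rcases hy with rfl | hy
      · exact hx
      · by_cases hyx : y = x
        · rw [hyx]; exact hx
        · exact ((mem_sph H).1 (h1 (mem_erase.2 ⟨hyx, hy⟩))).1
    · intro y hy z hz hyz
      have key : ∀ u, u ∈ ((insert x c : Finset W) : Set W) → u ≠ x → u ∈ c.erase x := by
        intro u hu hux
        simp only [coe_insert, Set.mem_insert_iff, mem_coe] at hu
        rcases hu with rfl | hu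
        · exact absurd rfl hux
        · exact mem_erase.2 ⟨hux, hu⟩
      by_cases hyx : y = x
      · have hzx : z ≠ x := fun h => hyz (hyx.trans h.symm)
        rw [hyx]
        exact ((mem_sph H).1 (h1 (key z hz hzx))).2
      · by_cases hzx : z = x
        · rw [hzx]
          exact ((mem_sph H).1 (h1 (key y hy hyx))).2.symm
        · exact h2 (by simpa using ⟨mem_of_mem_erase (key y hy hyx), hyx⟩)
            (by simpa using ⟨mem_of_mem_erase (key z hz hzx), hzx⟩) hyz

theorem not_mem_of_mem_Kl_sph {A c : Finset W} {x : W} (hc : c ∈ Kl H (sph H A x)) : x ∉ c := by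
  intro hx
  have := ((mem_sph H).1 (((mem_Kl H).1 hc).1 hx)).2
  exact H.loopless.irrefl x this

/-- Double counting of pairs (clique, vertex of it). -/
theorem double {M : Type*} [AddCommMonoid M] (A : Finset W) (f : W → Finset W → M) :
    ∑ x ∈ A, ∑ c ∈ Kl H (sph H A x), f x c = ∑ C ∈ Kl H A, ∑ x ∈ C, f x (C.erase x) := by
  rw [Finset.sum_sigma', Finset.sum_sigma']
  refine Finset.sum_bij' (fun p _ => ⟨insert p.1 p.2, p.1⟩) (fun q _ => ⟨q.2, q.1.erase q.2⟩)
    ?_ ?_ ?_ ?_ ?_
  · rintro ⟨x, c⟩ h
    simp only [mem_sigma] at h ⊢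
    refine ⟨?_, mem_insert_self _ _⟩
    rw [insert_mem_Kl H h.1, erase_eq_of_notMem (not_mem_of_mem_Kl_sph H h.2)]
    exact h.2
  · rintro ⟨C, x⟩ h
    simp only [mem_sigma] at h ⊢
    have hx : x ∈ A := ((mem_Kl H).1 h.1).1 h.2
    refine ⟨hx, ?_⟩
    rw [← insert_mem_Kl H hx, insert_eq_of_mem h.2]
    exact h.1
  · rintro ⟨x, c⟩ h
    simp only [mem_sigma] at h
    simp only [erase_insert (not_mem_of_mem_Kl_sph H h.2)]
  · rintro ⟨C, x⟩ h
    simp only [mem_sigma] at h
    simp only [insert_erase h.2]
  · rintro ⟨x, c⟩ h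
    simp only [mem_sigma] at h
    simp only [erase_insert (not_mem_of_mem_Kl_sph H h.2)]

theorem rho_erase {A : Finset W} {x : W} (hx : x ∈ A) :
    rho H A = rho H (A.erase x) - rho H (sph H A x) := by
  have h1 : Kl H A = Kl H (A.erase x) ∪ (Kl H (sph H A x)).image (insert x) := by
    ext c
    rw [mem_union, mem_image]
    constructor
    · intro hc
      by_cases hxc : x ∈ c
      · right
        refine ⟨c.erase x, ?_, insert_erase hxc⟩
        rw [← insert_mem_Kl H hx, insert_eq_of_mem hxc]
        exact hc
      · left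
        rw [mem_Kl] at hc ⊢
        exact ⟨subset_erase.2 ⟨hc.1, hxc⟩, hc.2⟩
    · rintro (hc | ⟨c', hc', rfl⟩)
      · rw [mem_Kl] at hc ⊢
        exact ⟨hc.1.trans (erase_subset _ _), hc.2⟩
      · rw [insert_mem_Kl H hx, erase_eq_of_notMem (not_mem_of_mem_Kl_sph H hc')]
        exact hc'
  have h2 : Disjoint (Kl H (A.erase x)) ((Kl H (sph H A x)).image (insert x)) := by
    rw [Finset.disjoint_left]
    intro c hc hc'
    rw [mem_image] at hc'
    obtain ⟨c', -, rfl⟩ := hc'
    have := ((mem_Kl H).1 hc).1 (mem_insert_self x c')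
    exact (mem_erase.1 this).1 rfl
  unfold rho
  rw [h1, sum_union h2, sum_image, sub_eq_add_neg, ← Finset.sum_neg_distrib]
  · congr 1
    refine sum_congr rfl fun c hc => ?_
    rw [card_insert_of_notMem (not_mem_of_mem_Kl_sph H hc), pow_succ]
    ring
  · intro c hc c' hc' h
    have e1 := erase_insert (not_mem_of_mem_Kl_sph H hc)
    have e2 := erase_insert (not_mem_of_mem_Kl_sph H hc')
    rw [← e1, ← e2]
    exact congrArg (fun s => Finset.erase s x) h

theorem chi_eq (A : Finset W) : chi H A = 1 - rho H A := by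
  have h1 : rho H A = ∑ m ∈ range (A.card + 1), ∑ c ∈ (Kl H A).filter (fun c => c.card = m),
      (-1 : ℤ) ^ c.card := by
    unfold rho
    rw [Finset.sum_fiberwise_of_maps_to]
    intro c hc
    rw [mem_range]
    have := card_le_card ((mem_Kl H).1 hc).1
    omega
  rw [h1, Finset.sum_range_succ']
  have h2 : ∀ k, ∑ c ∈ (Kl H A).filter (fun c => c.card = k), (-1 : ℤ) ^ c.card =
      (-1) ^ k * (((Kl H A).filter fun c => c.card = k).card : ℤ) := by
    intro k
    rw [Finset.sum_congr rfl (g := fun _ => (-1 : ℤ) ^ k), sum_const, nsmul_eq_mul, mul_comm]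
    intro c hc
    rw [(mem_filter.1 hc).2]
  have h3 : (Kl H A).filter (fun c => c.card = 0) = {∅} := by
    ext c
    simp only [mem_filter, mem_Kl, card_eq_zero, mem_singleton]
    constructor
    · exact fun h => h.2
    · rintro rfl
      simp
  have h4 : ∀ k, numK H A k = ((Kl H A).filter fun c => c.card = k + 1).card := by
    intro k
    unfold numK
    congr 1
    ext c
    simp only [mem_filter, mem_Kl, mem_powerset, SimpleGraph.isNClique_iff, and_assoc]
  unfold chi
  simp only [h2, h4]
  rw [h3]
  simp only [pow_succ, pow_zero, card_singleton, mul_neg, mul_one, neg_mul,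
    Finset.sum_neg_distrib]
  ring

theorem rho_join (A : Finset W) : ∀ B : Finset W, Disjoint A B →
    (∀ a ∈ A, ∀ b ∈ B, H.Adj a b) → rho H (A ∪ B) = rho H A * rho H B := by
  intro B
  induction B using Finset.strongInduction with
  | H B ih =>
    intro hd hadj
    rcases B.eq_empty_or_nonempty with rfl | ⟨x, hx⟩
    · rw [rho_empty, union_empty, mul_one]
    · have hxA : x ∉ A := fun h => (Finset.disjoint_left.1 hd h hx)
      rw [rho_erase H (mem_union_right A hx), rho_erase H hx]
      have e1 : (A ∪ B).erase x = A ∪ B.erase x := by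
        rw [erase_union_distrib, erase_eq_of_notMem hxA]
      have e2 : sph H (A ∪ B) x = A ∪ sph H B x := by
        ext y
        simp only [mem_sph, mem_union]
        constructor
        · rintro ⟨h1 | h1, h2⟩
          · exact Or.inl h1
          · exact Or.inr ⟨h1, h2⟩
        · rintro (h1 | ⟨h1, h2⟩)
          · exact ⟨Or.inl h1, (hadj y h1 x hx).symm⟩
          · exact ⟨Or.inr h1, h2⟩
      have hss : sph H B x ⊂ B := by
        refine (Finset.ssubset_iff_of_subset (filter_subset _ _)).2 ⟨x, hx, ?_⟩
        intro h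
        exact H.loopless.irrefl x ((mem_sph H).1 h).2
      rw [e1, e2, ih _ (erase_ssubset hx) (hd.mono_right (erase_subset _ _))
        (fun a ha b hb => hadj a ha b (mem_of_mem_erase hb)),
        ih _ hss (hd.mono_right hss.1) (fun a ha b hb => hadj a ha b (hss.1 hb))]
      ring

theorem rho_join' {A B C : Finset W} (hC : ∀ x, x ∈ C ↔ x ∈ A ∨ x ∈ B) (hd : Disjoint A B)
    (hadj : ∀ a ∈ A, ∀ b ∈ B, H.Adj a b) : rho H C = rho H A * rho H B := by
  have : C = A ∪ B := by
    ext x
    rw [hC, mem_union]
  rw [this, rho_join H A B hd hadj]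

/-- The common neighbours in `A` of the elements of `s`. -/
noncomputable def LkIn (A s : Finset W) : Finset W := A.filter fun v => ∀ w ∈ s, H.Adj w v

theorem mem_LkIn {A s : Finset W} {v : W} : v ∈ LkIn H A s ↔ v ∈ A ∧ ∀ w ∈ s, H.Adj w v := by
  simp [LkIn]

/-- In a comparability graph the cliques are grouped by their top elements. -/
theorem rho_top (r : W → W → Prop) (f : W → ℕ) (hr : ∀ a b, H.Adj a b ↔ r a b ∨ r b a)
    (hf : ∀ a b, r a b → f a < f b) (A : Finset W) :
    rho H A = 1 - ∑ x ∈ A, rho H (A.filter fun y => r y x) := by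
  induction A using Finset.strongInduction with
  | H A ih =>
    rcases A.eq_empty_or_nonempty with rfl | hA
    · rw [rho_empty]; simp
    · obtain ⟨x, hx, hmax⟩ := A.exists_max_image f hA
      have hno : ∀ y ∈ A, ¬ r x y := fun y hy h => absurd (hf _ _ h) (not_lt.2 (hmax y hy))
      rw [rho_erase H hx, ih _ (erase_ssubset hx)]
      have e1 : sph H A x = A.filter fun y => r y x := by
        ext y
        simp only [mem_sph, mem_filter, hr]
        constructor
        · rintro ⟨h1, h2 | h2⟩
          · exact absurd h2 (hno y h1)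
          · exact ⟨h1, h2⟩
        · exact fun h => ⟨h.1, Or.inr h.2⟩
      have e2 : ∀ y ∈ A.erase x, (A.erase x).filter (fun z => r z y) = A.filter fun z => r z y := by
        intro y hy
        ext z
        simp only [mem_filter, mem_erase]
        constructor
        · exact fun h => ⟨h.1.2, h.2⟩
        · intro h
          refine ⟨⟨?_, h.1⟩, h.2⟩
          rintro rfl
          exact hno y (mem_of_mem_erase hy) h.2
      rw [e1, ← Finset.add_sum_erase _ _ hx]
      rw [Finset.sum_congr rfl fun y hy => by rw [e2 y hy]]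
      ring

end general

end Pool.Agent.R181.Eta
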