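import Pool.Agent.R181.Eta

/-!
# The sign of `η` on discrete varieties

Euler characteristics of the unit spheres of the Barycentric refinement, Dehn-Sommerville relations
for `d`-graphs, and the formula for `η` of a `d`-variety.
-/

set_option autoImplicit false

namespace Pool.Agent.R181.Eta

open Finset
open scoped Classical Polynomial

/-! ### Unit spheres in the Barycentric refinement -/

section faces
variable {V : Type} [Fintype V] (G : SimpleGraph V)

/-- Faces strictly between `σ` and `τ`. -/
noncomputable def Iv (σ τ : Finset V) : Finset (Face G) :=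
  univ.filter fun ρ => σ ⊂ ρ.1 ∧ ρ.1 ⊂ τ

/-- Faces strictly above `σ`. -/
noncomputable def Up (σ : Finset V) : Finset (Face G) := univ.filter fun ρ => σ ⊂ ρ.1

/-- The common neighbours of `σ`. -/
noncomputable def Lk (σ : Finset V) : Finset V := univ.filter fun v => ∀ w ∈ σ, G.Adj w v

theorem sum_Icc_neg_one {σ τ : Finset V} (h : σ ⊂ τ) : ∑ ρ ∈ Icc σ τ, (-1 : ℤ) ^ ρ.card = 0 := by
  rw [Finset.Icc_eq_image_powerset h.1, sum_image]
  · have h1 : ∀ u ∈ (τ \ σ).powerset, (-1 : ℤ) ^ (σ ∪ u).card = (-1) ^ σ.card * (-1) ^ u.card := by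
      intro u hu
      rw [mem_powerset] at hu
      rw [card_union_of_disjoint, pow_add]
      exact (Finset.disjoint_of_subset_left hu sdiff_disjoint).symm
    rw [sum_congr rfl h1, ← mul_sum, Finset.sum_powerset_neg_one_pow_card, if_neg, mul_zero]
    rw [← Ne, ← nonempty_iff_ne_empty, sdiff_nonempty]
    exact h.2
  · intro u hu u' hu' he
    rw [mem_coe, mem_powerset] at hu hu'
    have d1 : Disjoint σ u := (Finset.disjoint_of_subset_left hu sdiff_disjoint).symm
    have d2 : Disjoint σ u' := (Finset.disjoint_of_subset_left hu' sdiff_disjoint).symm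
    have := congrArg (fun s => s \ σ) he
    simpa [union_sdiff_left, Finset.sdiff_eq_self_of_disjoint d1.symm,
      Finset.sdiff_eq_self_of_disjoint d2.symm] using this

theorem card_lt_of_ssub (a b : Face G) (h : a.1 ⊂ b.1) : a.1.card < b.1.card := card_lt_card h

theorem rho_Iv : ∀ n : ℕ, ∀ τ : Finset V, τ.card = n → G.IsClique (τ : Set V) → ∀ σ, σ ⊂ τ →
    rho (refine G) (Iv G σ τ) = (-1) ^ (τ.card + σ.card + 1) := by
  intro n
  induction n using Nat.strong_induction_on with
  | _ n ih =>
    intro τ hn hτ σ hστ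
    rw [rho_top (refine G) (fun a b => a.1 ⊂ b.1) (fun a => a.1.card) (fun a b => Iff.rfl)
      (card_lt_of_ssub G)]
    refine Eq.trans (congrArg (fun z => 1 - z) (sum_congr rfl
      (g := fun x : Face G => (-1 : ℤ) ^ (x.1.card + σ.card + 1)) fun x hx => ?_)) ?_
    · have hx' : σ ⊂ x.1 ∧ x.1 ⊂ τ := by simpa [Iv] using hx
      have e : ∀ inst : DecidablePred fun y : Face G => y.1 ⊂ x.1,
          @Finset.filter _ (fun y : Face G => y.1 ⊂ x.1) inst (Iv G σ τ) = Iv G σ x.1 := by
        intro inst
        ext y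
        simp only [Iv, mem_filter, mem_univ, true_and]
        constructor
        · exact fun h => ⟨h.1.1, h.2⟩
        · exact fun h => ⟨⟨h.1, h.2.trans hx'.2⟩, h.2⟩
      rw [e]
      exact ih x.1.card (hn ▸ card_lt_card hx'.2) x.1 rfl x.2.2 σ hx'.1
    have h2 : ∑ x ∈ Iv G σ τ, (-1 : ℤ) ^ (x.1.card + σ.card + 1) =
        ∑ ρ ∈ Ioo σ τ, (-1 : ℤ) ^ (ρ.card + σ.card + 1) := by
      refine Finset.sum_bij (fun x _ => x.1) ?_ ?_ ?_ ?_
      · intro x hx
        simpa [Iv] using hx
      · intro x _ y _ h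
        exact Subtype.ext h
      · intro ρ hρ
        rw [mem_Ioo] at hρ
        refine ⟨⟨ρ, ?_, ?_⟩, ?_, rfl⟩
        · obtain ⟨x, hx, -⟩ := Finset.exists_of_ssubset hρ.1
          exact ⟨x, hx⟩
        · exact hτ.subset (by exact_mod_cast hρ.2.1)
        · simpa [Iv] using hρ
      · intro x _
        rfl
    have h3 := sum_Icc_neg_one hστ
    rw [← Finset.Ioc_insert_left hστ.1, sum_insert left_notMem_Ioc, ← Finset.Ioo_insert_right hστ,
      sum_insert right_notMem_Ioo] at h3
    have h4 : ∑ ρ ∈ Ioo σ τ, (-1 : ℤ) ^ (ρ.card + σ.card + 1) =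
        - ((-1) ^ σ.card * ∑ ρ ∈ Ioo σ τ, (-1 : ℤ) ^ ρ.card) := by
      rw [mul_sum, ← Finset.sum_neg_distrib]
      refine sum_congr rfl fun ρ _ => ?_
      ring
    have h5 : ∑ ρ ∈ Ioo σ τ, (-1 : ℤ) ^ ρ.card = - (-1) ^ σ.card - (-1) ^ τ.card := by linarith
    rw [h2, h4, h5]
    have h6 : (-1 : ℤ) ^ σ.card * (-1) ^ σ.card = 1 := by
      rw [← mul_pow]; norm_num
    rw [pow_add, pow_add]
    linear_combination (-1 : ℤ) * h6

theorem rho_Up {σ : Finset V} (hσ : G.IsClique (σ : Set V)) :
    rho (refine G) (Up G σ) = rho G (Lk G σ) := by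
  rw [rho_top (refine G) (fun a b => a.1 ⊂ b.1) (fun a => a.1.card) (fun a b => Iff.rfl)
      (card_lt_of_ssub G)]
  refine Eq.trans (congrArg (fun z => 1 - z) (sum_congr rfl
    (g := fun x : Face G => (-1 : ℤ) ^ (x.1.card + σ.card + 1)) fun x hx => ?_)) ?_
  · have hx' : σ ⊂ x.1 := by simpa [Up] using hx
    have e : ∀ inst : DecidablePred fun y : Face G => y.1 ⊂ x.1,
        @Finset.filter _ (fun y : Face G => y.1 ⊂ x.1) inst (Up G σ) = Iv G σ x.1 := by
      intro inst
      ext y
      simp [Up, Iv]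
    rw [e]
    exact rho_Iv G _ x.1 rfl x.2.2 σ hx'
  have hdis : ∀ c ∈ Kl G (Lk G σ), Disjoint σ c := by
    intro c hc
    rw [Finset.disjoint_left]
    intro a ha ha'
    have := ((mem_Kl G).1 hc).1 ha'
    simp only [Lk, mem_filter, mem_univ, true_and] at this
    exact G.loopless.irrefl a (this a ha)
  unfold rho
  rw [← Finset.add_sum_erase _ _ (empty_mem_Kl G (Lk G σ)), card_empty, pow_zero, sub_eq_add_neg,
    ← Finset.sum_neg_distrib]
  congr 1
  symm
  refine Finset.sum_bij (fun c hc => (⟨σ ∪ c, ?_, ?_⟩ : Face G)) ?_ ?_ ?_ ?_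
  · rw [mem_erase] at hc
    exact (nonempty_iff_ne_empty.2 hc.1).mono subset_union_right
  · rw [mem_erase, mem_Kl] at hc
    intro a ha b hb hab
    have key : ∀ u ∈ c, ∀ w ∈ σ, G.Adj w u := by
      intro u hu w hw
      have := hc.2.1 hu
      simp only [Lk, mem_filter, mem_univ, true_and] at this
      exact this w hw
    simp only [coe_union, Set.mem_union, mem_coe] at ha hb
    rcases ha with ha | ha <;> rcases hb with hb | hb
    · exact hσ ha hb hab
    · exact key b hb a ha
    · exact (key a ha b hb).symm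
    · exact hc.2.2 ha hb hab
  · intro c hc
    rw [mem_erase] at hc
    simp only [Up, mem_filter, mem_univ, true_and]
    refine (Finset.ssubset_iff_of_subset subset_union_left).2 ?_
    obtain ⟨a, ha⟩ := nonempty_iff_ne_empty.2 hc.1
    exact ⟨a, mem_union_right _ ha, fun h => Finset.disjoint_left.1 (hdis c hc.2) h ha⟩
  · intro c hc c' hc' h
    rw [mem_erase] at hc hc'
    have h' : σ ∪ c = σ ∪ c' := congrArg Subtype.val h
    have := congrArg (fun s => s \ σ) h'
    simpa [union_sdiff_left, Finset.sdiff_eq_self_of_disjoint (hdis c hc.2).symm,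
      Finset.sdiff_eq_self_of_disjoint (hdis c' hc'.2).symm] using this
  · intro x hx
    have hx' : σ ⊂ x.1 := by simpa [Up] using hx
    refine ⟨x.1 \ σ, ?_, ?_⟩
    · rw [mem_erase, mem_Kl]
      refine ⟨?_, ?_, ?_⟩
      · rw [← nonempty_iff_ne_empty, sdiff_nonempty]
        exact hx'.2
      · intro a ha
        rw [mem_sdiff] at ha
        simp only [Lk, mem_filter, mem_univ, true_and]
        intro w hw
        exact x.2.2 (hx'.1 hw) ha.1 (fun h => ha.2 (h ▸ hw))
      · exact x.2.2.subset (by exact_mod_cast sdiff_subset)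
    · exact Subtype.ext (union_sdiff_of_subset hx'.1)
  · intro c hc
    rw [mem_erase] at hc
    dsimp only
    rw [card_union_of_disjoint (hdis c hc.2)]
    have h6 : (-1 : ℤ) ^ σ.card * (-1) ^ σ.card = 1 := by
      rw [← mul_pow]; norm_num
    rw [pow_succ, pow_add, pow_add]
    linear_combination (-(-1 : ℤ) ^ c.card) * h6

theorem rho_sph_refine (σ : Face G) :
    rho (refine G) (sph (refine G) univ σ) = (-1) ^ (σ.1.card + 1) * rho G (Lk G σ.1) := by
  have e : ∀ ρ, ρ ∈ sph (refine G) univ σ ↔ ρ ∈ Iv G ∅ σ.1 ∨ ρ ∈ Up G σ.1 := by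
    intro ρ
    rw [mem_sph]
    simp only [Iv, Up, mem_filter, mem_univ, true_and]
    constructor
    · intro h
      rcases (h : σ.1 ⊂ ρ.1 ∨ ρ.1 ⊂ σ.1) with h | h
      · exact Or.inr h
      · exact Or.inl ⟨by simpa [Finset.empty_ssubset] using ρ.2.1, h⟩
    · rintro (h | h)
      · exact (Or.inr h.2 : σ.1 ⊂ ρ.1 ∨ ρ.1 ⊂ σ.1)
      · exact (Or.inl h : σ.1 ⊂ ρ.1 ∨ ρ.1 ⊂ σ.1)
  have hne : ∅ ⊂ σ.1 := by simpa [Finset.empty_ssubset] using σ.2.1
  have hd : Disjoint (Iv G ∅ σ.1) (Up G σ.1) := by
    rw [Finset.disjoint_left]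
    intro ρ h1 h2
    simp only [Iv, Up, mem_filter, mem_univ, true_and] at h1 h2
    exact ssubset_irrefl _ (h1.2.trans h2)
  have hadj : ∀ a ∈ Iv G ∅ σ.1, ∀ b ∈ Up G σ.1, (refine G).Adj a b := by
    intro a ha b hb
    simp only [Iv, Up, mem_filter, mem_univ, true_and] at ha hb
    exact (Or.inl (ha.2.trans hb) : a.1 ⊂ b.1 ∨ b.1 ⊂ a.1)
  rw [rho_join' (refine G) e hd hadj, rho_Iv G _ σ.1 rfl σ.2.2 ∅ hne, rho_Up G σ.2.2, card_empty,
    add_zero]

end faces

/-! ### Spheres and `d`-graphs -/

section spheres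
variable {V : Type} (G : SimpleGraph V)

theorem rho_collapsible {A : Finset V} (h : Collapsible G A) : rho G A = 0 := by
  induction h with
  | point x =>
    rw [rho_erase G (mem_singleton_self x)]
    have : sph G {x} x = ∅ := by
      ext y
      rw [mem_sph, mem_singleton]
      constructor
      · rintro ⟨rfl, h⟩
        exact absurd h (G.loopless.irrefl _)
      · intro h
        exact absurd h (notMem_empty _)
    rw [this, erase_singleton, sub_self]
  | step A x hx _ _ ih1 ih2 => rw [rho_erase G hx, ih1, ih2, sub_zero]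

theorem rho_sphere : ∀ (n : ℕ) (A : Finset V), IsSphere G n A → rho G A = (-1) ^ n := by
  intro n
  induction n with
  | zero =>
    intro A h
    have : A = ∅ := h
    rw [this, rho_empty, pow_zero]
  | succ n ih =>
    rintro A ⟨h1, x, hx, h2⟩
    rw [rho_erase G hx, rho_collapsible G h2, ih _ (h1 x hx)]
    ring

theorem isGr_of_isSphere {n : ℕ} {A : Finset V} (h : IsSphere G n A) : IsGr G n A := by
  cases n with
  | zero => exact h
  | succ n => exact h.1

theorem sph_sph (A : Finset V) (x y : V) : sph G (sph G A x) y = sph G (sph G A y) x := by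
  ext z
  simp only [mem_sph]
  tauto

theorem isGr_of_isVariety : ∀ (n : ℕ) (A : Finset V), IsVariety G (n + 1) A →
    ∀ x ∈ A, IsGr G n (sph G A x) := by
  intro n A h x hx
  obtain ⟨Sg, h1, h2, h3, h4⟩ := h
  by_cases hxS : x ∈ Sg
  · cases n with
    | zero => exact h4 x hxS
    | succ n =>
      intro y hy
      have hy' := (mem_sph G).1 hy
      have hyS : y ∉ Sg := fun h => h2 x hxS y h hy'.2
      have := h3 y hy'.1 hyS x ((mem_sph G).2 ⟨hx, hy'.2.symm⟩)
      rwa [sph_sph] at this
  · exact h3 x hx hxS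

/-- Links in a `d`-graph are spheres. -/
theorem link_sphere : ∀ (n : ℕ) (A : Finset V), IsGr G n A → ∀ σ : Finset V, σ ⊆ A →
    G.IsClique (σ : Set V) → σ.Nonempty →
    σ.card ≤ n ∧ IsSphere G (n - σ.card) (LkIn G A σ) := by
  intro n
  induction n with
  | zero =>
    intro A h σ h1 _ h3
    have : A = ∅ := h
    rw [this, subset_empty] at h1
    rw [h1] at h3
    exact absurd h3 (by simp)
  | succ n ih =>
    intro A h σ h1 h2 h3
    obtain ⟨x, hx⟩ := h3
    have hA := h x (h1 hx)
    have hcard : σ.card = (σ.erase x).card + 1 := (card_erase_add_one hx).symm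
    have hfil : LkIn G A σ = LkIn G (sph G A x) (σ.erase x) := by
      ext v
      simp only [mem_LkIn, mem_sph, mem_erase]
      constructor
      · rintro ⟨e1, e2⟩
        exact ⟨⟨e1, e2 x hx⟩, fun w hw => e2 w hw.2⟩
      · rintro ⟨⟨e1, e2⟩, e3⟩
        refine ⟨e1, fun w hw => ?_⟩
        by_cases hwx : w = x
        · rw [hwx]; exact e2
        · exact e3 w ⟨hwx, hw⟩
    rcases (σ.erase x).eq_empty_or_nonempty with he | hne
    · have hL : LkIn G (sph G A x) ∅ = sph G A x := by
        ext v
        simp [mem_LkIn]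
      rw [hfil, hcard, he, hL]
      simpa using hA
    · have hsub : σ.erase x ⊆ sph G A x := by
        intro y hy
        rw [mem_erase] at hy
        rw [mem_sph]
        exact ⟨h1 hy.2, h2 hx hy.2 (Ne.symm hy.1)⟩
      obtain ⟨h4, h5⟩ := ih _ (isGr_of_isSphere G hA) (σ.erase x) hsub
        (h2.subset (by exact_mod_cast erase_subset _ _)) hne
      rw [hfil, hcard]
      refine ⟨by omega, ?_⟩
      have : n + 1 - ((σ.erase x).card + 1) = n - (σ.erase x).card := by omega
      rw [this]
      exact h5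

/-- The polynomial counting the cliques in `A` by their numbers of vertices. -/
noncomputable def F (A : Finset V) : ℚ[X] := ∑ c ∈ Kl G A, (Polynomial.X : ℚ[X]) ^ c.card

theorem F_eval (A : Finset V) (t : ℚ) : (F G A).eval t = ∑ c ∈ Kl G A, t ^ c.card := by
  simp [F, Polynomial.eval_finsetSum]

theorem F_eval_neg_one (A : Finset V) : (F G A).eval (-1) = (rho G A : ℚ) := by
  rw [F_eval, rho]
  push_cast
  rfl

theorem F_eval_zero (A : Finset V) : (F G A).eval 0 = 1 := by
  rw [F_eval, ← Finset.add_sum_erase _ _ (empty_mem_Kl G A), card_empty, pow_zero,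
    Finset.sum_eq_zero, add_zero]
  intro c hc
  rw [mem_erase] at hc
  exact zero_pow (by rw [Ne, card_eq_zero]; exact hc.1)

theorem F_derivative (A : Finset V) :
    Polynomial.derivative (F G A) = ∑ x ∈ A, F G (sph G A x) := by
  unfold F
  rw [double G A (fun _ c => (Polynomial.X : ℚ[X]) ^ c.card), Polynomial.derivative_sum]
  refine sum_congr rfl fun C _ => ?_
  rw [Polynomial.derivative_X_pow]
  rw [sum_congr rfl fun x hx => by rw [card_erase_of_mem hx], sum_const, nsmul_eq_mul]
  simp

theorem F_gr {n : ℕ} {A : Finset V} (h : ∀ x ∈ A, IsSphere G n (sph G A x))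
    (ih : ∀ B : Finset V, IsSphere G n B →
      (F G B).comp (-1 - Polynomial.X) = (-1) ^ n * F G B) :
    (F G A).comp (-1 - Polynomial.X) + (-1) ^ n * F G A =
      Polynomial.C ((rho G A : ℚ) + (-1) ^ n) := by
  have h1 : Polynomial.derivative ((F G A).comp (-1 - Polynomial.X) + (-1) ^ n * F G A) = 0 := by
    rw [Polynomial.derivative_add, Polynomial.derivative_comp]
    have e1 : Polynomial.derivative ((-1 : ℚ[X]) ^ n * F G A) =
        (-1) ^ n * Polynomial.derivative (F G A) := by
      have : ((-1 : ℚ[X]) ^ n) = Polynomial.C ((-1 : ℚ) ^ n) := by simp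
      rw [this, Polynomial.derivative_C_mul]
    have e2 : (Polynomial.derivative (F G A)).comp (-1 - Polynomial.X) =
        (-1) ^ n * Polynomial.derivative (F G A) := by
      rw [F_derivative, mul_sum]
      rw [Polynomial.comp, Polynomial.eval₂_finsetSum]
      exact sum_congr rfl fun x hx => ih _ (h x hx)
    rw [e1, e2]
    simp
  rw [Polynomial.derivative_eq_zero, Polynomial.natDegree_eq_zero] at h1
  obtain ⟨c, hc⟩ := h1
  rw [← hc]
  congr 1
  have := congrArg (Polynomial.eval 0) hc
  rw [Polynomial.eval_C, Polynomial.eval_add, Polynomial.eval_comp, Polynomial.eval_mul,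
    F_eval_zero] at this
  simp only [Polynomial.eval_sub, Polynomial.eval_neg, Polynomial.eval_one, Polynomial.eval_X,
    sub_zero, F_eval_neg_one, Polynomial.eval_pow, mul_one] at this
  exact this

theorem F_sphere : ∀ (n : ℕ) (A : Finset V), IsSphere G n A →
    (F G A).comp (-1 - Polynomial.X) = (-1) ^ n * F G A := by
  intro n
  induction n with
  | zero =>
    intro A h
    have : A = ∅ := h
    rw [this]
    simp [F, Kl_empty]
  | succ n ih =>
    intro A h
    have h1 := F_gr G h.1 ih
    rw [rho_sphere G _ _ h] at h1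
    have h2 : (((-1 : ℤ) ^ (n + 1) : ℤ) : ℚ) + (-1) ^ n = 0 := by
      push_cast
      ring
    rw [h2, Polynomial.C_0] at h1
    rw [pow_succ]
    linear_combination h1

/-- Dehn-Sommerville relation for odd-dimensional `d`-graphs. -/
theorem rho_gr_even {n : ℕ} (hn : Even n) {A : Finset V} (h : IsGr G n A) : rho G A = 1 := by
  cases n with
  | zero =>
    have : A = ∅ := h
    rw [this, rho_empty]
  | succ n =>
    have hodd : Odd n := by
      rw [Nat.even_add_one, Nat.not_even_iff_odd] at hn
      exact hn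
    have h1 := congrArg (Polynomial.eval (-1 / 2)) (F_gr G h (F_sphere G n))
    rw [hodd.neg_one_pow, hodd.neg_one_pow] at h1
    rw [Polynomial.eval_add, Polynomial.eval_comp, Polynomial.eval_mul, Polynomial.eval_C] at h1
    simp only [Polynomial.eval_sub, Polynomial.eval_neg, Polynomial.eval_one,
      Polynomial.eval_X] at h1
    have e : (-1 - -1 / 2 : ℚ) = -1 / 2 := by norm_num
    rw [e] at h1
    have h2 : (rho G A : ℚ) = 1 := by linarith
    exact_mod_cast h2

/-- Dehn-Sommerville relation for even-dimensional `d`-graphs. -/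
theorem rho_gr_odd {n : ℕ} (hn : Odd n) {A : Finset V} (h : IsGr G n A) :
    (rho G A : ℚ) = 2 * (∑ c ∈ Kl G A, (-1 / 2 : ℚ) ^ c.card) - 1 := by
  cases n with
  | zero => exact absurd hn (by decide)
  | succ n =>
    have heven : Even n := by
      rw [Nat.odd_add_one, Nat.not_odd_iff_even] at hn
      exact hn
    have h1 := congrArg (Polynomial.eval (-1 / 2)) (F_gr G h (F_sphere G n))
    rw [heven.neg_one_pow, heven.neg_one_pow] at h1
    rw [Polynomial.eval_add, Polynomial.eval_comp, Polynomial.eval_mul, Polynomial.eval_C] at h1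
    simp only [Polynomial.eval_sub, Polynomial.eval_neg, Polynomial.eval_one,
      Polynomial.eval_X] at h1
    have e : (-1 - -1 / 2 : ℚ) = -1 / 2 := by norm_num
    rw [e, F_eval] at h1
    linarith

end spheres

/-! ### The formula for `η` -/

section final
variable {V : Type} [Fintype V] (G : SimpleGraph V)

theorem gauss_bonnet {W : Type} [Fintype W] (H : SimpleGraph W) :
    ∑ x : W, chi H (sph H univ x) =
      ∑ k ∈ Icc 1 (Fintype.card W), (-1) ^ (k + 1) * ((k : ℤ) + 1) * (numK H univ k : ℤ) := by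
  have h1 : ∀ x : W, chi H (sph H univ x) =
      ∑ c ∈ Kl H (sph H univ x), (if c = ∅ then (0 : ℤ) else - (-1) ^ c.card) := by
    intro x
    rw [chi_eq, rho, ← Finset.add_sum_erase _ _ (empty_mem_Kl H _),
      ← Finset.add_sum_erase _ _ (empty_mem_Kl H (sph H univ x)), card_empty, pow_zero, if_pos rfl]
    have : ∀ c ∈ (Kl H (sph H univ x)).erase ∅, (if c = ∅ then (0 : ℤ) else - (-1) ^ c.card) =
        - (-1) ^ c.card := fun c hc => if_neg (mem_erase.1 hc).1
    rw [sum_congr rfl this, Finset.sum_neg_distrib]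
    ring
  rw [sum_congr rfl fun x _ => h1 x,
    double H univ (fun _ c => (if c = ∅ then (0 : ℤ) else - (-1) ^ c.card))]
  have h2 : ∀ C ∈ Kl H univ, ∑ x ∈ C, (if C.erase x = ∅ then (0 : ℤ) else - (-1) ^ (C.erase x).card)
      = if 2 ≤ C.card then (-1) ^ C.card * (C.card : ℤ) else 0 := by
    intro C _
    have h3 : ∀ x ∈ C, (if C.erase x = ∅ then (0 : ℤ) else - (-1) ^ (C.erase x).card) =
        if 2 ≤ C.card then (-1) ^ C.card else 0 := by
      intro x hx
      have e := card_erase_add_one hx
      by_cases hC : 2 ≤ C.card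
      · rw [if_pos hC, if_neg, ← e, pow_succ]
        · ring
        · intro h0
          rw [h0, card_empty] at e
          omega
      · rw [if_neg hC, if_pos]
        rw [← card_eq_zero]
        omega
    rw [sum_congr rfl h3, sum_const, nsmul_eq_mul]
    split_ifs <;> ring
  rw [sum_congr rfl h2]
  have h4 : ∑ C ∈ Kl H univ, (if 2 ≤ C.card then (-1 : ℤ) ^ C.card * (C.card : ℤ) else 0) =
      ∑ m ∈ range (Fintype.card W + 2), ∑ C ∈ (Kl H univ).filter (fun C => C.card = m),
        (if 2 ≤ C.card then (-1 : ℤ) ^ C.card * (C.card : ℤ) else 0) := by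
    rw [Finset.sum_fiberwise_of_maps_to]
    intro c _
    rw [mem_range]
    have := card_le_univ c
    omega
  rw [h4, Finset.range_eq_Ico]
  have h5 : ∀ m, ∑ C ∈ (Kl H univ).filter (fun C => C.card = m),
      (if 2 ≤ C.card then (-1 : ℤ) ^ C.card * (C.card : ℤ) else 0) =
      if 2 ≤ m then (-1) ^ m * (m : ℤ) * (((Kl H univ).filter fun C => C.card = m).card : ℤ)
        else 0 := by
    intro m
    rw [Finset.sum_congr rfl (g := fun _ => if 2 ≤ m then (-1 : ℤ) ^ m * (m : ℤ) else 0),
      sum_const, nsmul_eq_mul]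
    · split_ifs <;> ring
    · intro c hc
      rw [(mem_filter.1 hc).2]
  have h6 : ∀ k, numK H univ k = ((Kl H univ).filter fun c => c.card = k + 1).card := by
    intro k
    unfold numK
    congr 1
    ext c
    simp only [mem_filter, mem_Kl, mem_powerset, SimpleGraph.isNClique_iff, and_assoc]
  rw [sum_congr rfl fun m _ => h5 m]
  rw [Finset.sum_Ico_eq_sum_range]
  rw [show Icc 1 (Fintype.card W) = Ico 1 (Fintype.card W + 1) from rfl,
    Finset.sum_Ico_eq_sum_range]
  rw [Nat.sub_zero, Finset.sum_range_succ', Finset.sum_range_succ']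
  simp only [zero_add]
  rw [if_neg (by norm_num), if_neg (by norm_num), add_zero, add_zero, Nat.add_sub_cancel]
  refine sum_congr rfl fun k _ => ?_
  rw [if_pos (by omega), h6]
  have : 1 + k + 1 = k + 1 + 1 := by ring
  rw [this]
  push_cast
  ring

theorem chi_sph_refine (σ : Face G) : chi (refine G) (sph (refine G) univ σ) =
    1 - (-1) ^ (σ.1.card + 1) * rho G (Lk G σ.1) := by
  rw [chi_eq, rho_sph_refine]

theorem Lk_singleton (x : V) : Lk G {x} = sph G univ x := by
  ext y
  simp [Lk, sph]

/-- Unit spheres of the faces with at least two vertices in the refinement of a variety. -/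
theorem chi_big {n : ℕ} (h : ∀ x, IsGr G n (sph G univ x)) (σ : Face G) (hσ : 2 ≤ σ.1.card) :
    chi (refine G) (sph (refine G) univ σ) = 1 - (-1) ^ n := by
  obtain ⟨x, hx⟩ := σ.2.1
  have hcard := card_erase_add_one hx
  have hne : (σ.1.erase x).Nonempty := by
    rw [← card_pos]
    omega
  have hsub : σ.1.erase x ⊆ sph G univ x := by
    intro y hy
    rw [mem_erase] at hy
    rw [mem_sph]
    exact ⟨mem_univ _, σ.2.2 hx hy.2 (Ne.symm hy.1)⟩
  obtain ⟨h4, h5⟩ := link_sphere G n _ (h x) (σ.1.erase x) hsub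
    (σ.2.2.subset (by exact_mod_cast erase_subset _ _)) hne
  have hfil : Lk G σ.1 = LkIn G (sph G univ x) (σ.1.erase x) := by
    ext v
    simp only [Lk, mem_filter, mem_LkIn, mem_sph, mem_erase, mem_univ, true_and]
    constructor
    · exact fun e2 => ⟨e2 x hx, fun w hw => e2 w hw.2⟩
    · rintro ⟨e2, e3⟩ w hw
      by_cases hwx : w = x
      · rw [hwx]; exact e2
      · exact e3 w ⟨hwx, hw⟩
  have h7 : rho G (Lk G σ.1) = (-1) ^ (n - (σ.1.erase x).card) := by
    rw [hfil, rho_sphere G _ _ h5]
  rw [chi_sph_refine, h7, ← pow_add]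
  have : σ.1.card + 1 + (n - (σ.1.erase x).card) = n + 2 := by omega
  rw [this, pow_add]
  norm_num

theorem chi_small {σ : Face G} {x : V} (hx : σ.1 = {x}) :
    chi (refine G) (sph (refine G) univ σ) = 1 - rho G (sph G univ x) := by
  rw [chi_sph_refine, hx, card_singleton, Lk_singleton]
  norm_num

/-- In even dimensions all unit spheres of the refinement have Euler characteristic zero. -/
theorem chi_even {n : ℕ} (hn : Even n) (h : ∀ x, IsGr G n (sph G univ x)) (σ : Face G) :
    chi (refine G) (sph (refine G) univ σ) = 0 := by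
  by_cases hσ : 2 ≤ σ.1.card
  · rw [chi_big G h σ hσ, hn.neg_one_pow, sub_self]
  · have h1 : σ.1.card = 1 := by
      have := card_pos.2 σ.2.1
      omega
    obtain ⟨x, hx⟩ := card_eq_one.1 h1
    rw [chi_small G hx, rho_gr_even G hn (h x), sub_self]

theorem weight_pos (m : ℕ) (hm : m ≠ 0) : (0 : ℚ) < 2 * (1 / ((m : ℚ) + 1) - (-1 / 2) ^ m) := by
  have h1 : (-1 / 2 : ℚ) ^ m < 1 / ((m : ℚ) + 1) := by
    rcases Nat.even_or_odd m with he | ho
    · have h2 : (-1 / 2 : ℚ) ^ m = 1 / 2 ^ m := by
        rw [div_pow, he.neg_one_pow]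
      rw [h2]
      apply one_div_lt_one_div_of_lt (by positivity)
      have h3 : m + 1 < 2 ^ m := by
        have hm2 : 2 ≤ m := by
          rcases he with ⟨k, hk⟩
          omega
        clear h2 he hm
        induction m, hm2 using Nat.le_induction with
        | base => norm_num
        | succ k hk ih =>
          rw [pow_succ]
          omega
      exact_mod_cast h3
    · have h2 : (-1 / 2 : ℚ) ^ m < 0 := ho.pow_neg (by norm_num)
      have h3 : (0 : ℚ) < 1 / ((m : ℚ) + 1) := by positivity
      linarith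
  linarith

/-- The formula for `η` in odd dimensions. -/
theorem eta_odd {n : ℕ} (hn : Odd n) (h : ∀ x, IsGr G n (sph G univ x)) :
    ((∑ σ : Face G, chi (refine G) (sph (refine G) univ σ) : ℤ) : ℚ) =
      ∑ x : V, ∑ c ∈ (Kl G (sph G univ x)).erase ∅,
        2 * (1 / ((c.card : ℚ) + 1) - (-1 / 2) ^ c.card) := by
  let g : Finset V → ℚ := fun C => if C.card = 1 then 1 - (rho G (Lk G C) : ℚ) else
    if C.card = 0 then 0 else 2
  have hg : ∀ σ : Face G, ((chi (refine G) (sph (refine G) univ σ) : ℤ) : ℚ) = g σ.1 := by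
    intro σ
    by_cases h1 : σ.1.card = 1
    · obtain ⟨x, hx⟩ := card_eq_one.1 h1
      rw [chi_small G hx]
      simp only [g, hx, Lk_singleton]
      push_cast
      simp
    · have h0 : 0 < σ.1.card := card_pos.2 σ.2.1
      rw [chi_big G h σ (by omega), hn.neg_one_pow]
      simp only [g, if_neg h1, if_neg h0.ne']
      norm_num
  have h1 : ∑ σ : Face G, g σ.1 = ∑ C ∈ Kl G univ, g C := by
    rw [← Finset.add_sum_erase _ _ (empty_mem_Kl G univ)]
    have : g ∅ = 0 := by simp [g]
    rw [this, zero_add]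
    refine Finset.sum_bij (fun σ _ => σ.1) ?_ ?_ ?_ ?_
    · intro σ _
      rw [mem_erase, mem_Kl]
      exact ⟨nonempty_iff_ne_empty.1 σ.2.1, subset_univ _, σ.2.2⟩
    · intro x _ y _ h
      exact Subtype.ext h
    · intro C hC
      rw [mem_erase, mem_Kl] at hC
      exact ⟨⟨C, nonempty_iff_ne_empty.2 hC.1, hC.2.2⟩, mem_univ _, rfl⟩
    · intro _ _
      rfl
  have h2 : ∀ C ∈ Kl G univ, g C = ∑ x ∈ C, (fun (x : V) (c : Finset V) =>
      g (insert x c) / ((c.card : ℚ) + 1)) x (C.erase x) := by
    intro C _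
    dsimp only
    have : ∀ x ∈ C, g (insert x (C.erase x)) / (((C.erase x).card : ℚ) + 1) =
        g C / (C.card : ℚ) := by
      intro x hx
      have e := card_erase_add_one hx
      rw [insert_erase hx, ← e]
      push_cast
      rfl
    rw [sum_congr rfl this, sum_const, nsmul_eq_mul]
    by_cases h0 : C.card = 0
    · have hC0 := h0
      rw [card_eq_zero] at h0
      subst h0
      simp [g]
    · field_simp
  push_cast
  rw [sum_congr rfl fun σ _ => hg σ, h1, sum_congr rfl h2, ← double G univ (fun (x : V)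
    (c : Finset V) => g (insert x c) / ((c.card : ℚ) + 1))]
  refine sum_congr rfl fun x _ => ?_
  rw [← Finset.add_sum_erase _ _ (empty_mem_Kl G (sph G univ x))]
  have e1 : g (insert x ∅) / (((∅ : Finset V).card : ℚ) + 1) =
      - ∑ c ∈ (Kl G (sph G univ x)).erase ∅, 2 * (-1 / 2 : ℚ) ^ c.card := by
    have : g (insert x ∅) = 1 - (rho G (sph G univ x) : ℚ) := by
      rw [insert_empty_eq]
      simp only [g, card_singleton, if_true, Lk_singleton]
    rw [this, rho_gr_odd G hn (h x), ← Finset.add_sum_erase _ _ (empty_mem_Kl G (sph G univ x)),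
      card_empty, pow_zero, ← mul_sum]
    push_cast
    ring
  have e2 : ∀ c ∈ (Kl G (sph G univ x)).erase ∅, g (insert x c) / ((c.card : ℚ) + 1) =
      2 * (1 / ((c.card : ℚ) + 1)) := by
    intro c hc
    rw [mem_erase] at hc
    have hx : x ∉ c := not_mem_of_mem_Kl_sph G hc.2
    have h0 : c.card ≠ 0 := by rw [Ne, card_eq_zero]; exact hc.1
    have : g (insert x c) = 2 := by
      simp only [g, card_insert_of_notMem hx]
      rw [if_neg (by omega), if_neg (by omega)]
    rw [this]
    ring
  rw [e1, sum_congr rfl e2, neg_add_eq_sub, ← Finset.sum_sub_distrib]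
  exact sum_congr rfl fun c _ => by ring

/-- The sum of the Euler characteristics of the unit spheres of the refinement of a `d`-variety is
nonnegative, and it is zero only if all of them are zero. -/
theorem main (n : ℕ) (hG : IsVariety G (n + 1) univ) :
    0 ≤ ∑ σ : Face G, chi (refine G) (sph (refine G) univ σ) ∧
    ((∑ σ : Face G, chi (refine G) (sph (refine G) univ σ) = 0) →
      ∀ σ : Face G, chi (refine G) (sph (refine G) univ σ) = 0) := by
  have h : ∀ x, IsGr G n (sph G univ x) := fun x => isGr_of_isVariety G n univ hG x (mem_univ x)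
  rcases Nat.even_or_odd n with he | ho
  · refine ⟨?_, fun _ => chi_even G he h⟩
    rw [Finset.sum_eq_zero fun σ _ => chi_even G he h σ]
  · have key := eta_odd G ho h
    have hnn : ∀ x ∈ (univ : Finset V), 0 ≤ ∑ c ∈ (Kl G (sph G univ x)).erase ∅,
        2 * (1 / ((c.card : ℚ) + 1) - (-1 / 2) ^ c.card) := by
      intro x _
      refine Finset.sum_nonneg fun c hc => (weight_pos _ ?_).le
      rw [Ne, card_eq_zero]
      exact (mem_erase.1 hc).1
    constructor
    · have : (0 : ℚ) ≤ ((∑ σ : Face G, chi (refine G) (sph (refine G) univ σ) : ℤ) : ℚ) := by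
        rw [key]
        exact Finset.sum_nonneg hnn
      exact_mod_cast this
    · intro h0
      rw [h0, Int.cast_zero] at key
      have h1 := (Finset.sum_eq_zero_iff_of_nonneg hnn).1 key.symm
      have h2 : ∀ x, sph G univ x = ∅ := by
        intro x
        by_contra hne
        obtain ⟨y, hy⟩ := nonempty_iff_ne_empty.2 hne
        have h3 := (Finset.sum_eq_zero_iff_of_nonneg (fun c hc => (weight_pos _ (by
          rw [Ne, card_eq_zero]; exact (mem_erase.1 hc).1)).le)).1 (h1 x (mem_univ x)) {y} (by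
            rw [mem_erase, mem_Kl]
            exact ⟨singleton_ne_empty y, singleton_subset_iff.2 hy, by simp⟩)
        exact absurd h3 (weight_pos _ (by simp)).ne'
      intro σ
      have h4 : σ.1.card = 1 := by
        have h5 := card_pos.2 σ.2.1
        by_contra h6
        obtain ⟨x, hx, y, hy, hxy⟩ := Finset.one_lt_card.1 (by omega : 1 < σ.1.card)
        have : y ∈ sph G univ x := (mem_sph G).2 ⟨mem_univ _, σ.2.2 hx hy hxy⟩
        rw [h2 x] at this
        exact absurd this (notMem_empty _)
      obtain ⟨x, hx⟩ := card_eq_one.1 h4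
      rw [chi_small G hx, h2 x, rho_empty, sub_self]

end final

end Pool.Agent.R181.Eta
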