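import Pool.Agent.R181.RectRel

/-!
# Uniform hypergraphs closed under componentwise meets and joins
-/

set_option autoImplicit false

namespace Pool.Agent.R181.HyperRel

open Finset Pool.Agent.R181.LatRel Pool.Agent.R181.RectRel

/-- In a grid there are `e` cells in at most `e + 1` rows and columns. -/
theorem hook {α β : Type*} [DecidableEq α] [DecidableEq β] (F : Finset (α × β))
    (hF : ∀ a b a' b', (a, b) ∈ F → (a', b') ∈ F → (a, b') ∈ F) (e : ℕ) (he : 1 ≤ e) :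
    e ≤ #F → ∃ C ⊆ F, #C = e ∧ #(C.image Prod.fst) + #(C.image Prod.snd) ≤ e + 1 := by
  induction e, he using Nat.le_induction with
  | base =>
    intro h
    obtain ⟨c, hc⟩ := card_pos.1 (by omega : 0 < #F)
    refine ⟨{c}, singleton_subset_iff.2 hc, card_singleton _, ?_⟩
    rw [image_singleton, image_singleton, card_singleton, card_singleton]
  | succ e he ih =>
    intro h
    obtain ⟨C, hCF, hCe, hC⟩ := ih (by omega)
    have h1 : ∃ c ∈ F, c ∉ C ∧ (c.1 ∈ C.image Prod.fst ∨ c.2 ∈ C.image Prod.snd) := by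
      by_contra hcon
      push Not at hcon
      obtain ⟨⟨a, b⟩, hab⟩ := card_pos.1 (by omega : 0 < #C)
      have h2 : F ⊆ C := by
        rintro ⟨a', b'⟩ hc
        have h3 : (a, b') ∈ F := hF a b a' b' (hCF hab) hc
        have h4 : (a, b') ∈ C := by
          by_contra h5
          exact (hcon _ h3 h5).1 (mem_image.2 ⟨(a, b), hab, rfl⟩)
        by_contra h5
        exact (hcon _ hc h5).2 (mem_image.2 ⟨(a, b'), h4, rfl⟩)
      have := card_le_card h2
      omega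
    obtain ⟨c, hcF, hcC, hc⟩ := h1
    refine ⟨insert c C, insert_subset_iff.2 ⟨hcF, hCF⟩, ?_, ?_⟩
    · rw [card_insert_of_notMem hcC, hCe]
    · rw [image_insert, image_insert]
      rcases hc with hc | hc
      · rw [insert_eq_of_mem hc]
        have := card_insert_le c.2 (C.image Prod.snd)
        omega
      · rw [insert_eq_of_mem hc]
        have := card_insert_le c.1 (C.image Prod.fst)
        omega

variable {k : ℕ} {X : Fin (k + 3) → Type*} [∀ i, DecidableEq (X i)] [∀ i, Lattice (X i)]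
  [∀ i, Fintype (X i)]

/-- Closed under componentwise meets and joins. -/
def HClosed (E : Finset (∀ i, X i)) : Prop := ∀ x ∈ E, ∀ y ∈ E, x ⊓ y ∈ E ∧ x ⊔ y ∈ E

/-- Any `e` elements have more than `(r - 2) e + 2` different coordinates, `r = k + 3`. -/
def Sparse (e : ℕ) (E : Finset (∀ i, X i)) : Prop :=
  ∀ T ⊆ E, #T = e → (k + 1) * e + 2 < ∑ i, #(T.image fun x => x i)

theorem sum_le {e a b c : ℕ} (T : Finset (∀ i, X i)) (hT : #T = e)
    (h0 : #(T.image fun x => x 0) ≤ a) (h1 : #(T.image fun x => x 1) ≤ b)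
    (h2 : #(T.image fun x => x 2) ≤ c) : ∑ i, #(T.image fun x => x i) ≤ a + b + c + k * e := by
  rw [Fin.sum_univ_succ, Fin.sum_univ_succ, Fin.sum_univ_succ]
  have h3 : ∑ i : Fin k, #(T.image fun x => x i.succ.succ.succ) ≤ ∑ _i : Fin k, e :=
    sum_le_sum fun i _ => card_image_le.trans_eq hT
  rw [sum_const, card_univ, Fintype.card_fin, smul_eq_mul] at h3
  have e1 : (Fin.succ 0 : Fin (k + 3)) = 1 := rfl
  have e2 : (Fin.succ (Fin.succ 0) : Fin (k + 3)) = 2 := rfl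
  rw [e1, e2]
  omega

/-- The first two coordinates. -/
noncomputable def pr (E : Finset (∀ i, X i)) : Finset (X 0 × X 1) := by
  classical exact E.image fun x => (x 0, x 1)

theorem mem_pr {E : Finset (∀ i, X i)} {a : X 0} {b : X 1} :
    (a, b) ∈ pr E ↔ ∃ x ∈ E, x 0 = a ∧ x 1 = b := by
  classical
  simp [pr]

theorem closed_pr {E : Finset (∀ i, X i)} (hE : HClosed E) : Closed (pr E) := by
  constructor
  · rintro ⟨a, b⟩ h ⟨a', b'⟩ h'
    obtain ⟨x, hx, rfl, rfl⟩ := mem_pr.1 h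
    obtain ⟨y, hy, rfl, rfl⟩ := mem_pr.1 h'
    exact mem_pr.2 ⟨_, (hE x hx y hy).1, rfl, rfl⟩
  · rintro ⟨a, b⟩ h ⟨a', b'⟩ h'
    obtain ⟨x, hx, rfl, rfl⟩ := mem_pr.1 h
    obtain ⟨y, hy, rfl, rfl⟩ := mem_pr.1 h'
    exact mem_pr.2 ⟨_, (hE x hx y hy).2, rfl, rfl⟩

theorem card_le_pr {E : Finset (∀ i, X i)} {e : ℕ} (he : 1 ≤ e) (hs : Sparse e E) :
    #E ≤ (e - 1) * #(pr E) := by
  classical
  refine card_le_mul_card_image_of_maps_to (f := fun x : ∀ i, X i => (x 0, x 1)) ?_ _ ?_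
  · intro x hx
    exact mem_pr.2 ⟨x, hx, rfl, rfl⟩
  · intro p _
    by_contra hcon
    push Not at hcon
    obtain ⟨T, hT, hTe⟩ := exists_subset_card_eq (by omega : e ≤ #(E.filter fun x => (x 0, x 1) = p))
    have h1 := hs T (hT.trans (filter_subset _ _)) hTe
    have h2 : ∀ x ∈ T, x 0 = p.1 ∧ x 1 = p.2 := fun x hx => by
      have := (mem_filter.1 (hT hx)).2
      exact ⟨congrArg Prod.fst this, congrArg Prod.snd this⟩
    have h3 : #(T.image fun x => x 0) ≤ 1 := by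
      rw [card_le_one]
      intro a ha b hb
      obtain ⟨x, hx, rfl⟩ := mem_image.1 ha
      obtain ⟨y, hy, rfl⟩ := mem_image.1 hb
      rw [(h2 x hx).1, (h2 y hy).1]
    have h4 : #(T.image fun x => x 1) ≤ 1 := by
      rw [card_le_one]
      intro a ha b hb
      obtain ⟨x, hx, rfl⟩ := mem_image.1 ha
      obtain ⟨y, hy, rfl⟩ := mem_image.1 hb
      rw [(h2 x hx).2, (h2 y hy).2]
    have h5 := sum_le T hTe h3 h4 (card_image_le.trans_eq hTe : #(T.image fun x => x 2) ≤ e)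
    have h6 : (k + 1) * e = k * e + e := by ring
    omega

theorem area_le {E : Finset (∀ i, X i)} (hE : HClosed E) {e : ℕ} (he : 1 ≤ e) (hs : Sparse e E)
    (S : Finset (X 0)) (T : Finset (X 1)) (hST : ∀ a ∈ S, ∀ b ∈ T, (a, b) ∈ pr E) :
    #S * #T ≤ (e - 1) * Fintype.card (X 2) := by
  classical
  let F : X 2 → Finset (X 0 × X 1) := fun z =>
    (S ×ˢ T).filter fun p => ∃ x ∈ E, x 0 = p.1 ∧ x 1 = p.2 ∧ x 2 = z
  have hmem : ∀ z p, p ∈ F z ↔ p ∈ S ×ˢ T ∧ ∃ x ∈ E, x 0 = p.1 ∧ x 1 = p.2 ∧ x 2 = z := fun z p =>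
    mem_filter
  have hsub : S ×ˢ T ⊆ univ.biUnion F := by
    intro p hp
    have hp' := mem_product.1 hp
    obtain ⟨x, hx, h1, h2⟩ := mem_pr.1 (hST p.1 hp'.1 p.2 hp'.2)
    exact mem_biUnion.2 ⟨x 2, mem_univ _, (hmem _ _).2 ⟨hp, x, hx, h1, h2, rfl⟩⟩
  have hF : ∀ z, #(F z) ≤ e - 1 := by
    intro z
    by_contra hcon
    push Not at hcon
    have hmix : ∀ a b a' b', (a, b) ∈ F z → (a', b') ∈ F z → (a, b') ∈ F z := by
      intro a b a' b' h h'
      obtain ⟨h1, x, hx, hx0, hx1, hx2⟩ := (hmem _ _).1 h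
      obtain ⟨h1', y, hy, hy0, hy1, hy2⟩ := (hmem _ _).1 h'
      rw [mem_product] at h1 h1'
      obtain ⟨g, hg, hg0, hg1⟩ := mem_pr.1 (hST a h1.1 b' h1'.2)
      refine (hmem _ _).2 ⟨mem_product.2 ⟨h1.1, h1'.2⟩, ((x ⊓ y) ⊔ g) ⊓ (x ⊔ y),
        (hE _ (hE _ (hE x hx y hy).1 g hg).2 _ (hE x hx y hy).2).1, ?_, ?_, ?_⟩
      · simp only at hx0 hy0 hg0 ⊢
        rw [Pi.inf_apply, Pi.sup_apply, Pi.sup_apply, Pi.inf_apply, hx0, hy0, hg0,
          sup_eq_right.2 inf_le_left, inf_eq_left.2 le_sup_left]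
      · simp only at hx1 hy1 hg1 ⊢
        rw [Pi.inf_apply, Pi.sup_apply, Pi.sup_apply, Pi.inf_apply, hx1, hy1, hg1,
          sup_eq_right.2 inf_le_right, inf_eq_left.2 le_sup_right]
      · rw [Pi.inf_apply, Pi.sup_apply, Pi.sup_apply, Pi.inf_apply, hx2, hy2, inf_idem, sup_idem,
          inf_eq_right.2 le_sup_left]
    obtain ⟨C, hCF, hCe, hC⟩ := hook (F z) hmix e he (by omega)
    have hch : ∀ c : C, ∃ x ∈ E, x 0 = c.1.1 ∧ x 1 = c.1.2 ∧ x 2 = z := fun c =>
      ((hmem z c.1).1 (hCF c.2)).2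
    choose h hh h0 h1 h2 using hch
    have hinj : Function.Injective h := by
      intro c d hcd
      refine Subtype.ext (Prod.ext ?_ ?_)
      · rw [← h0 c, ← h0 d, hcd]
      · rw [← h1 c, ← h1 d, hcd]
    set T' : Finset (∀ i, X i) := univ.image h with hT'
    have hT'e : #T' = e := by
      rw [hT', card_image_of_injective _ hinj, card_univ, Fintype.card_coe, hCe]
    have h3 : T' ⊆ E := by
      intro x hx
      obtain ⟨c, -, rfl⟩ := mem_image.1 hx
      exact hh c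
    have h4 : #(T'.image fun x => x 0) ≤ #(C.image Prod.fst) := by
      refine card_le_card fun a ha => ?_
      obtain ⟨x, hx, rfl⟩ := mem_image.1 ha
      obtain ⟨c, -, rfl⟩ := mem_image.1 hx
      exact mem_image.2 ⟨c.1, c.2, (h0 c).symm⟩
    have h5 : #(T'.image fun x => x 1) ≤ #(C.image Prod.snd) := by
      refine card_le_card fun a ha => ?_
      obtain ⟨x, hx, rfl⟩ := mem_image.1 ha
      obtain ⟨c, -, rfl⟩ := mem_image.1 hx
      exact mem_image.2 ⟨c.1, c.2, (h1 c).symm⟩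
    have h6 : #(T'.image fun x => x 2) ≤ 1 := by
      rw [card_le_one]
      intro a ha b hb
      obtain ⟨x, hx, rfl⟩ := mem_image.1 ha
      obtain ⟨y, hy, rfl⟩ := mem_image.1 hb
      obtain ⟨c, -, rfl⟩ := mem_image.1 hx
      obtain ⟨d, -, rfl⟩ := mem_image.1 hy
      rw [h2 c, h2 d]
    have h7 := sum_le T' hT'e h4 h5 h6
    have h8 := hs T' h3 hT'e
    have h9 : (k + 1) * e = k * e + e := by ring
    omega
  calc #S * #T = #(S ×ˢ T) := (card_product _ _).symm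
    _ ≤ #(univ.biUnion F) := card_le_card hsub
    _ ≤ #(univ : Finset (X 2)) * (e - 1) := card_biUnion_le_card_mul _ _ _ fun z _ => hF z
    _ = (e - 1) * Fintype.card (X 2) := by rw [card_univ]; ring

/-- The main bound. -/
theorem main {E : Finset (∀ i, X i)} (hE : HClosed E) {e : ℕ} (he : 1 ≤ e) (hs : Sparse e E) {n : ℕ}
    (hn : ∀ i, Fintype.card (X i) ≤ n) : #E ^ 16 ≤ (e - 1) ^ 20 * n ^ 30 := by
  have h1 := area (closed_pr hE) (A := (e - 1) * Fintype.card (X 2)) (area_le hE he hs)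
  have h2 := card_le_pr he hs
  calc #E ^ 16 ≤ ((e - 1) * #(pr E)) ^ 16 := Nat.pow_le_pow_left h2 16
    _ = (e - 1) ^ 16 * #(pr E) ^ 16 := by ring
    _ ≤ (e - 1) ^ 16 * (Fintype.card (X 0) ^ 14 * Fintype.card (X 1) ^ 12 *
        ((e - 1) * Fintype.card (X 2)) ^ 4) := Nat.mul_le_mul_left _ h1
    _ ≤ (e - 1) ^ 16 * (n ^ 14 * n ^ 12 * ((e - 1) * n) ^ 4) := by
        gcongr <;> exact hn _
    _ = (e - 1) ^ 20 * n ^ 30 := by ring

end Pool.Agent.R181.HyperRel
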