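import Mathlib

/-!
# The discrete Loomis-Whitney inequality
-/

set_option autoImplicit false

universe u

namespace Pool.Agent.R181.LW

open Finset

/-- A form of Hölder's inequality. -/
theorem holder {ι κ : Type*} (s : Finset ι) (t : Finset κ) (ht : t.Nonempty) (c : ι → ℝ)
    (b : κ → ι → ℝ) (a : ℝ) (ha : 0 ≤ a) (hc : ∀ p ∈ s, 0 ≤ c p) (hb : ∀ i ∈ t, ∀ p ∈ s, 0 ≤ b i p)
    (h : ∀ p ∈ s, c p ^ #t ≤ a * ∏ i ∈ t, b i p) :
    (∑ p ∈ s, c p) ^ #t ≤ a * ∏ i ∈ t, ∑ p ∈ s, b i p := by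
  classical
  set B : κ → ℝ := fun i => ∑ p ∈ s, b i p with hB
  have hB0 : ∀ i ∈ t, 0 ≤ B i := fun i hi => sum_nonneg fun p hp => hb i hi p hp
  have ht0 : #t ≠ 0 := (card_pos.2 ht).ne'
  have ht1 : (0 : ℝ) < #t := by exact_mod_cast card_pos.2 ht
  by_cases hz : a = 0 ∨ ∃ i ∈ t, B i = 0
  · have h0 : ∀ p ∈ s, c p = 0 := by
      intro p hp
      have h1 : a * ∏ i ∈ t, b i p = 0 := by
        rcases hz with rfl | ⟨i, hi, hi0⟩
        · rw [zero_mul]
        · have h2 : b i p = 0 := (sum_eq_zero_iff_of_nonneg fun q hq => hb i hi q hq).1 hi0 p hp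
          rw [prod_eq_zero hi h2, mul_zero]
      have h2 := h p hp
      rw [h1] at h2
      have h3 : c p ^ #t = 0 := le_antisymm h2 (pow_nonneg (hc p hp) _)
      exact pow_eq_zero_iff ht0 |>.1 h3
    rw [sum_eq_zero h0, zero_pow ht0]
    exact mul_nonneg ha (prod_nonneg hB0)
  · push Not at hz
    have ha' : 0 < a := lt_of_le_of_ne ha (Ne.symm hz.1)
    have hB' : ∀ i ∈ t, 0 < B i := fun i hi => lt_of_le_of_ne (hB0 i hi) (Ne.symm (hz.2 i hi))
    set M : ℝ := a * ∏ i ∈ t, B i with hM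
    have hMpos : 0 < M := mul_pos ha' (prod_pos hB')
    have key : ∀ p ∈ s, c p ≤ M ^ ((#t : ℝ)⁻¹) * ∑ i ∈ t, (#t : ℝ)⁻¹ * (b i p / B i) := by
      intro p hp
      have h1 : ∏ i ∈ t, (b i p / B i) ^ ((#t : ℝ)⁻¹) ≤ ∑ i ∈ t, (#t : ℝ)⁻¹ * (b i p / B i) := by
        refine Real.geom_mean_le_arith_mean_weighted t (fun _ => (#t : ℝ)⁻¹)
          (fun i => b i p / B i) (fun _ _ => by positivity) ?_
          (fun i hi => div_nonneg (hb i hi p hp) (hB0 i hi))
        rw [sum_const, nsmul_eq_mul, mul_inv_cancel₀ ht1.ne']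
      have h2 : c p = (c p ^ #t) ^ ((#t : ℝ)⁻¹) := by
        rw [Real.pow_rpow_inv_natCast (hc p hp) ht0]
      have h3 : (c p ^ #t) ^ ((#t : ℝ)⁻¹) ≤ (M * ∏ i ∈ t, (b i p / B i)) ^ ((#t : ℝ)⁻¹) := by
        refine Real.rpow_le_rpow (pow_nonneg (hc p hp) _) ?_ (by positivity)
        refine (h p hp).trans (le_of_eq ?_)
        rw [hM, prod_div_distrib, mul_assoc, mul_div_cancel₀ _ (prod_pos hB').ne']
      have h4 : (M * ∏ i ∈ t, (b i p / B i)) ^ ((#t : ℝ)⁻¹) =
          M ^ ((#t : ℝ)⁻¹) * ∏ i ∈ t, (b i p / B i) ^ ((#t : ℝ)⁻¹) := by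
        rw [Real.mul_rpow hMpos.le (prod_nonneg fun i hi => div_nonneg (hb i hi p hp) (hB0 i hi)),
          Real.finsetProd_rpow _ _ fun i hi => div_nonneg (hb i hi p hp) (hB0 i hi)]
      rw [h2]
      refine h3.trans (h4.le.trans ?_)
      exact mul_le_mul_of_nonneg_left h1 (Real.rpow_nonneg hMpos.le _)
    have h5 : ∑ p ∈ s, c p ≤ M ^ ((#t : ℝ)⁻¹) := by
      refine (sum_le_sum key).trans (le_of_eq ?_)
      rw [← mul_sum, sum_comm]
      have h6 : ∀ i ∈ t, ∑ p ∈ s, (#t : ℝ)⁻¹ * (b i p / B i) = (#t : ℝ)⁻¹ := by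
        intro i hi
        rw [← mul_sum, ← sum_div, show ∑ p ∈ s, b i p = B i from rfl, div_self (hB' i hi).ne',
          mul_one]
      rw [sum_congr rfl h6, sum_const, nsmul_eq_mul, mul_inv_cancel₀ ht1.ne', mul_one]
    calc (∑ p ∈ s, c p) ^ #t ≤ (M ^ ((#t : ℝ)⁻¹)) ^ #t :=
          pow_le_pow_left₀ (sum_nonneg hc) h5 _
      _ = M := Real.rpow_inv_natCast_pow hMpos.le ht0

theorem card_image_le_of_factor {α β γ : Type*} [DecidableEq β] [DecidableEq γ] (A : Finset α)
    (f : α → β) (g : α → γ) (h : ∀ x ∈ A, ∀ y ∈ A, f x = f y → g x = g y) :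
    #(A.image g) ≤ #(A.image f) := by
  classical
  have hch : ∀ b : {b // b ∈ A.image f}, ∃ x ∈ A, f x = b.1 := fun b => mem_image.1 b.2
  choose c hc1 hc2 using hch
  have h1 : A.image g ⊆ (A.image f).attach.image fun b => g (c b) := by
    intro z hz
    obtain ⟨x, hx, rfl⟩ := mem_image.1 hz
    refine mem_image.2 ⟨⟨f x, mem_image_of_mem f hx⟩, mem_attach _ _, ?_⟩
    exact h _ (hc1 _) _ hx (hc2 _)
  exact (card_le_card h1).trans (card_image_le.trans_eq card_attach)

theorem removeNth_eq {n : ℕ} {P : Fin (n + 1) → Type u} {i : Fin (n + 1)} {x y : ∀ k, P k}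
    (h : i.removeNth x = i.removeNth y) (j : Fin (n + 1)) (hj : j ≠ i) : x j = y j := by
  obtain ⟨k, rfl⟩ := Fin.exists_succAbove_eq hj
  exact congrFun h k

/-- The Loomis-Whitney inequality. -/
theorem loomisWhitney : ∀ (n : ℕ) (P : Fin (n + 1) → Type u) [∀ k, DecidableEq (P k)]
    (A : Finset (∀ k, P k)), A.Nonempty →
    #A ^ n ≤ ∏ i : Fin (n + 1), #(A.image fun x => i.removeNth x) := by
  intro n
  induction n with
  | zero =>
    intro P _ A hA
    simp only [Nat.reduceAdd, pow_zero, univ_unique, prod_singleton]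
    exact card_pos.2 (hA.image _)
  | succ n ih =>
    intro P _ A hA
    classical
    set S : Finset (P 0) := A.image fun x => x 0 with hS
    let sl : P 0 → Finset (∀ k : Fin (n + 1), P k.succ) := fun p =>
      (A.filter fun x => x 0 = p).image fun x => Fin.tail x
    have hsl : ∀ p y, y ∈ sl p ↔ Fin.cons p y ∈ A := by
      intro p y
      simp only [sl, mem_image, mem_filter]
      constructor
      · rintro ⟨x, ⟨hx, rfl⟩, rfl⟩
        rwa [Fin.cons_self_tail]
      · intro h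
        exact ⟨_, ⟨h, rfl⟩, Fin.tail_cons _ _⟩
    have hcardA : #A = ∑ p ∈ S, #(sl p) := by
      rw [card_eq_sum_card_fiberwise (f := fun x : ∀ k, P k => x 0) (t := S)
        (fun x hx => mem_coe.2 (mem_image_of_mem _ (mem_coe.1 hx)))]
      refine sum_congr rfl fun p _ => ?_
      refine (card_image_of_injOn ?_).symm
      intro x hx y hy hxy
      rw [mem_coe, mem_filter] at hx hy
      rw [← Fin.cons_self_tail x, ← Fin.cons_self_tail y, hx.2, hy.2]
      exact congrArg _ hxy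
    have h1 : ∀ p ∈ S, #(sl p) ^ (n + 1) ≤ #(A.image fun x => (0 : Fin (n + 2)).removeNth x) *
        ∏ i : Fin (n + 1), #((sl p).image fun x => i.removeNth x) := by
      intro p hp
      obtain ⟨x, hx, rfl⟩ := mem_image.1 hp
      have hne : (sl (x 0)).Nonempty := ⟨Fin.tail x, (hsl _ _).2 (by rwa [Fin.cons_self_tail])⟩
      have h2 := ih (fun k => P k.succ) (sl (x 0)) hne
      have h3 : #(sl (x 0)) ≤ #(A.image fun x => (0 : Fin (n + 2)).removeNth x) := by
        refine card_le_card fun y hy => ?_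
        rw [hsl] at hy
        exact mem_image.2 ⟨_, hy, rfl⟩
      calc #(sl (x 0)) ^ (n + 1) = #(sl (x 0)) * #(sl (x 0)) ^ n := by ring
        _ ≤ _ := Nat.mul_le_mul h3 h2
    have h4 := holder S (univ : Finset (Fin (n + 1))) univ_nonempty (fun p => (#(sl p) : ℝ))
      (fun i p => (#((sl p).image fun x => i.removeNth x) : ℝ))
      (#(A.image fun x => (0 : Fin (n + 2)).removeNth x)) (Nat.cast_nonneg _)
      (fun _ _ => Nat.cast_nonneg _) (fun _ _ _ _ => Nat.cast_nonneg _)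
      (fun p hp => by
        rw [card_univ, Fintype.card_fin]
        exact_mod_cast h1 p hp)
    rw [card_univ, Fintype.card_fin] at h4
    have h5 : #A ^ (n + 1) ≤ #(A.image fun x => (0 : Fin (n + 2)).removeNth x) *
        ∏ i : Fin (n + 1), ∑ p ∈ S, #((sl p).image fun x => i.removeNth x) := by
      rw [hcardA]
      exact_mod_cast h4
    rw [Fin.prod_univ_succ]
    refine h5.trans (Nat.mul_le_mul_left _ (prod_le_prod' fun i _ => ?_))
    have h6 : ∑ p ∈ S, #((sl p).image fun x => i.removeNth x) =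
        #(S.sigma fun p => (sl p).image fun x => i.removeNth x) := (card_sigma _ _).symm
    rw [h6]
    have h7 : (S.sigma fun p => (sl p).image fun x => i.removeNth x) ⊆
        A.image fun x => (⟨x 0, i.removeNth (Fin.tail x)⟩ :
          Σ _ : P 0, ∀ k : Fin n, P (i.succAbove k).succ) := by
      rintro ⟨p, y⟩ hz
      rw [mem_sigma] at hz
      obtain ⟨-, hz⟩ := hz
      obtain ⟨x, hx, rfl⟩ := mem_image.1 hz
      rw [hsl] at hx
      exact mem_image.2 ⟨_, hx, rfl⟩
    refine (card_le_card h7).trans (card_image_le_of_factor A _ _ ?_)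
    intro x _ y _ hxy
    have h8 := removeNth_eq hxy
    have h9 : x 0 = y 0 := h8 0 (Fin.succ_ne_zero i).symm
    have h10 : i.removeNth (Fin.tail x) = i.removeNth (Fin.tail y) := by
      funext k
      exact h8 _ fun h => Fin.succAbove_ne i k (Fin.succ_injective _ h)
    rw [h9, h10]

end Pool.Agent.R181.LW
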