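import Pool.Agent.TH602.Turan.BesCount
import Pool.Agent.TH602.Turan.Bip

/-!
# Relations between two lattices closed under componentwise meets and joins: counting
-/

set_option autoImplicit false

namespace Pool.Agent.R181.LatRel

open Finset Pool.Agent.TH602.Turan

variable {X Y : Type*} [DecidableEq X] [DecidableEq Y] [Lattice X] [Lattice Y]

/-- `E` is closed under componentwise meets and joins. -/
structure Closed (E : Finset (X × Y)) : Prop where
  inf : ∀ e ∈ E, ∀ e' ∈ E, e ⊓ e' ∈ E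
  sup : ∀ e ∈ E, ∀ e' ∈ E, e ⊔ e' ∈ E

/-- There are no `t` elements of `X` and `t` elements of `Y` with all pairs in `E`. -/
def NoBiclique (t : ℕ) (E : Finset (X × Y)) : Prop :=
  ∀ (S : Finset X) (T : Finset Y), t ≤ #S → t ≤ #T → ¬∀ x ∈ S, ∀ y ∈ T, (x, y) ∈ E

theorem Closed.convex {E : Finset (X × Y)} (hE : Closed E) {x x' : X} {y₁ y y₂ : Y}
    (h1 : (x, y₁) ∈ E) (h2 : (x, y₂) ∈ E) (h : (x', y) ∈ E) (h1y : y₁ ≤ y) (hy2 : y ≤ y₂) :
    (x, y) ∈ E := by
  have h3 := hE.inf _ (hE.sup _ h1 _ h) _ h2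
  have h4 : ((x, y₁) ⊔ (x', y)) ⊓ (x, y₂) = (x, y) := by
    ext
    · simp
    · simp [sup_eq_right.2 h1y, inf_eq_left.2 hy2]
  rwa [h4] at h3

theorem Closed.rect {E : Finset (X × Y)} (hE : Closed E) {x x' : X} {y y' : Y}
    (h1 : (x', y) ∈ E) (h2 : (x, y') ∈ E) (hx : x' ≤ x) (hy : y' ≤ y) : (x', y') ∈ E := by
  have h3 := hE.inf _ h1 _ h2
  have h4 : (x', y) ⊓ (x, y') = (x', y') := by
    ext
    · simp [hx]
    · simp [hy]
  rwa [h4] at h3

section

variable [Fintype X] [Fintype Y]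

/-- The row of `x`. -/
def row (E : Finset (X × Y)) (x : X) : Finset Y := univ.filter fun y => (x, y) ∈ E

/-- The elements of the row of `x` below `y`. -/
noncomputable def dn (E : Finset (X × Y)) (x : X) (y : Y) : Finset Y := by
  classical exact (row E x).filter fun y' => y' ≤ y

/-- The elements of the row of `x` with few elements of the row below. -/
noncomputable def low (E : Finset (X × Y)) (t : ℕ) (x : X) : Finset Y :=
  (row E x).filter fun y => #(dn E x y) < t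

/-- The interval of `y₁` and `y₂` in the second projection. -/
noncomputable def ivl (E : Finset (X × Y)) (a b : Y) : Finset Y := by
  classical exact univ.filter fun y => (∃ x, (x, y) ∈ E) ∧ a ≤ y ∧ y ≤ b

/-- The pairs of `Y × Y` with a large interval. -/
noncomputable def big (E : Finset (X × Y)) (t : ℕ) (x : X) : Finset (Y × Y) :=
  (low E t x ×ˢ low E t x).filter fun p => t ≤ #(ivl E (p.1 ⊓ p.2) (p.1 ⊔ p.2))

theorem mem_row {E : Finset (X × Y)} {x : X} {y : Y} : y ∈ row E x ↔ (x, y) ∈ E := by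
  simp [row]

theorem mem_dn {E : Finset (X × Y)} {x : X} {y y' : Y} : y' ∈ dn E x y ↔ (x, y') ∈ E ∧ y' ≤ y := by
  simp [dn, mem_row]

theorem mem_low {E : Finset (X × Y)} {t : ℕ} {x : X} {y : Y} :
    y ∈ low E t x ↔ (x, y) ∈ E ∧ #(dn E x y) < t := by
  simp [low, mem_row]

theorem mem_ivl {E : Finset (X × Y)} {a b y : Y} :
    y ∈ ivl E a b ↔ (∃ x, (x, y) ∈ E) ∧ a ≤ y ∧ y ≤ b := by
  simp [ivl]

theorem low_sq {E : Finset (X × Y)} (hE : Closed E) (t : ℕ) (x : X) :
    #(low E t x) ^ 2 ≤ t ^ 2 * (#(big E t x) + t ^ 2 * Fintype.card Y) := by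
  classical
  rcases (low E t x).eq_empty_or_nonempty with h0 | h0
  · rw [h0]; simp
  obtain ⟨g, hg, hle⟩ := exists_popular (low E t x) (row E x) t h0
    (fun h hh h' hh' => by
      rw [mem_row]
      have := hE.inf _ (mem_low.1 hh).1 _ (mem_low.1 hh').1
      simpa using this)
    (dn E x) (fun h g hg hgh => mem_dn.2 ⟨mem_row.1 hg, hgh⟩)
    (fun h hh => (mem_low.1 hh).2.le)
  refine hle.trans (Nat.mul_le_mul_left _ ?_)
  set P := (low E t x ×ˢ low E t x).filter fun p => p.1 ⊓ p.2 = g with hP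
  have h1 : P ⊆ big E t x ∪ P.filter (fun p => ¬t ≤ #(ivl E (p.1 ⊓ p.2) (p.1 ⊔ p.2))) := by
    intro p hp
    rw [mem_union]
    by_cases h : t ≤ #(ivl E (p.1 ⊓ p.2) (p.1 ⊔ p.2))
    · exact Or.inl (mem_filter.2 ⟨(mem_filter.1 hp).1, h⟩)
    · exact Or.inr (mem_filter.2 ⟨hp, h⟩)
  refine (card_le_card h1).trans ((card_union_le _ _).trans (Nat.add_le_add_left ?_ _))
  set Q := P.filter (fun p => ¬t ≤ #(ivl E (p.1 ⊓ p.2) (p.1 ⊔ p.2))) with hQ
  have h2 : #Q ≤ t ^ 2 * #(univ : Finset Y) := by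
    refine card_le_mul_card_image_of_maps_to (f := fun p => p.1 ⊔ p.2) (fun p _ => mem_univ _) _ ?_
    intro M _
    rcases (Q.filter fun p => p.1 ⊔ p.2 = M).eq_empty_or_nonempty with h3 | ⟨q, hq⟩
    · rw [h3]; simp
    rw [mem_filter, hQ, mem_filter, hP, mem_filter] at hq
    obtain ⟨⟨⟨-, hq1⟩, hq2⟩, hq3⟩ := hq
    rw [hq1, hq3] at hq2
    have h4 : (Q.filter fun p => p.1 ⊔ p.2 = M) ⊆ ivl E g M ×ˢ ivl E g M := by
      intro p hp
      rw [mem_filter, hQ, mem_filter, hP, mem_filter, mem_product] at hp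
      obtain ⟨⟨⟨⟨hp1, hp2⟩, hp3⟩, -⟩, hp4⟩ := hp
      rw [mem_product, mem_ivl, mem_ivl]
      refine ⟨⟨⟨x, (mem_low.1 hp1).1⟩, ?_, ?_⟩, ⟨⟨x, (mem_low.1 hp2).1⟩, ?_, ?_⟩⟩
      · rw [← hp3]; exact inf_le_left
      · rw [← hp4]; exact le_sup_left
      · rw [← hp3]; exact inf_le_right
      · rw [← hp4]; exact le_sup_right
    refine (card_le_card h4).trans ?_
    rw [card_product, sq]
    exact Nat.mul_le_mul (by omega) (by omega)
  simpa using h2

theorem sum_big {E : Finset (X × Y)} (hE : Closed E) {t : ℕ} (ht : NoBiclique t E) :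
    ∑ x, #(big E t x) ≤ t * Fintype.card Y ^ 2 := by
  classical
  have h1 : ∑ x : X, #(big E t x) = ∑ p : Y × Y, #(univ.filter fun x : X => p ∈ big E t x) := by
    have := sum_card_bipartiteAbove_eq_sum_card_bipartiteBelow (s := (univ : Finset X))
      (t := (univ : Finset (Y × Y))) (r := fun x p => p ∈ big E t x)
    simp only [bipartiteAbove, bipartiteBelow] at this
    rw [← this]
    refine sum_congr rfl fun x _ => ?_
    congr 1
    ext p
    simp
  rw [h1]
  calc ∑ p : Y × Y, #(univ.filter fun x : X => p ∈ big E t x) ≤ ∑ _p : Y × Y, t := by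
        refine sum_le_sum fun p _ => ?_
        by_contra hcon
        push Not at hcon
        have hne : (univ.filter fun x : X => p ∈ big E t x).Nonempty :=
          card_pos.1 (by omega)
        obtain ⟨x₀, hx₀⟩ := hne
        have hI : t ≤ #(ivl E (p.1 ⊓ p.2) (p.1 ⊔ p.2)) := by
          have := (mem_filter.1 hx₀).2
          rw [big, mem_filter] at this
          exact this.2
        refine ht (univ.filter fun x : X => p ∈ big E t x) _ hcon.le hI ?_
        intro x hx y hy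
        have hx' := (mem_filter.1 hx).2
        rw [big, mem_filter, mem_product] at hx'
        have ha := (mem_low.1 hx'.1.1).1
        have hb := (mem_low.1 hx'.1.2).1
        obtain ⟨⟨x', hx'y⟩, hy1, hy2⟩ := mem_ivl.1 hy
        have hm := hE.inf _ ha _ hb
        have hj := hE.sup _ ha _ hb
        rw [Prod.mk_inf_mk, inf_idem] at hm
        rw [Prod.mk_sup_mk, sup_idem] at hj
        exact hE.convex hm hj hx'y hy1 hy2
    _ = t * Fintype.card Y ^ 2 := by
        rw [sum_const, card_univ, Fintype.card_prod, smul_eq_mul]; ring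

/-- The pairs with few elements below in the row. -/
noncomputable def lowPairs (E : Finset (X × Y)) (t : ℕ) : Finset (X × Y) :=
  E.filter fun e => #(dn E e.1 e.2) < t

theorem card_lowPairs (E : Finset (X × Y)) (t : ℕ) : #(lowPairs E t) = ∑ x, #(low E t x) := by
  classical
  rw [card_eq_sum_card_fiberwise (f := Prod.fst) (t := univ) (fun _ _ => mem_coe.2 (mem_univ _))]
  refine sum_congr rfl fun x _ => ?_
  refine card_bij (fun e _ => e.2) ?_ ?_ ?_
  · intro e he
    rw [mem_filter, lowPairs, mem_filter] at he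
    obtain ⟨⟨he1, he2⟩, rfl⟩ := he
    exact mem_low.2 ⟨he1, he2⟩
  · intro e he e' he' h
    rw [mem_filter] at he he'
    exact Prod.ext (he.2.trans he'.2.symm) h
  · intro y hy
    obtain ⟨h1, h2⟩ := mem_low.1 hy
    exact ⟨(x, y), mem_filter.2 ⟨mem_filter.2 ⟨h1, h2⟩, rfl⟩, rfl⟩

theorem lowPairs_sq {E : Finset (X × Y)} (hE : Closed E) {t : ℕ} (ht1 : 1 ≤ t)
    (ht : NoBiclique t E) :
    #(lowPairs E t) ^ 2 ≤
      t ^ 4 * (Fintype.card X * Fintype.card Y * (Fintype.card X + Fintype.card Y)) := by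
  classical
  rw [card_lowPairs]
  have h1 : (∑ x, #(low E t x)) ^ 2 ≤ #(univ : Finset X) * ∑ x, #(low E t x) ^ 2 :=
    sq_sum_le_card_mul_sum_sq
  have h2 : ∑ x, #(low E t x) ^ 2 ≤
      t ^ 2 * (t * Fintype.card Y ^ 2 + t ^ 2 * Fintype.card X * Fintype.card Y) := by
    calc ∑ x, #(low E t x) ^ 2 ≤ ∑ x, t ^ 2 * (#(big E t x) + t ^ 2 * Fintype.card Y) :=
          sum_le_sum fun x _ => low_sq hE t x
      _ = t ^ 2 * (∑ x, #(big E t x) + t ^ 2 * Fintype.card X * Fintype.card Y) := by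
          rw [← mul_sum, sum_add_distrib, sum_const, card_univ, smul_eq_mul]; ring
      _ ≤ _ := Nat.mul_le_mul_left _ (Nat.add_le_add_right (sum_big hE ht) _)
  rw [card_univ] at h1
  refine h1.trans ((Nat.mul_le_mul_left _ h2).trans ?_)
  set a := Fintype.card X
  set b := Fintype.card Y
  have h3 : t ≤ t ^ 2 := Nat.le_self_pow (by norm_num) t
  calc a * (t ^ 2 * (t * b ^ 2 + t ^ 2 * a * b))
      ≤ a * (t ^ 2 * (t ^ 2 * b ^ 2 + t ^ 2 * a * b)) := by gcongr
    _ = t ^ 4 * (a * b * (a + b)) := by ring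

/-- The swapped relation. -/
def sw (E : Finset (X × Y)) : Finset (Y × X) := E.map ⟨Prod.swap, Prod.swap_injective⟩

theorem mem_sw {E : Finset (X × Y)} {x : X} {y : Y} : (y, x) ∈ sw E ↔ (x, y) ∈ E := by
  simp [sw]

theorem Closed.sw {E : Finset (X × Y)} (hE : Closed E) : Closed (sw E) := by
  constructor
  · rintro ⟨y, x⟩ h ⟨y', x'⟩ h'
    rw [mem_sw] at h h'
    rw [Prod.mk_inf_mk, mem_sw]
    exact hE.inf _ h _ h'
  · rintro ⟨y, x⟩ h ⟨y', x'⟩ h'
    rw [mem_sw] at h h'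
    rw [Prod.mk_sup_mk, mem_sw]
    exact hE.sup _ h _ h'

theorem NoBiclique.sw {E : Finset (X × Y)} {t : ℕ} (ht : NoBiclique t E) : NoBiclique t (sw E) := by
  intro S T hS hT h
  exact ht T S hT hS fun x hx y hy => mem_sw.1 (h y hy x hx)

/-- The main bound. -/
theorem card_sq {E : Finset (X × Y)} (hE : Closed E) {t : ℕ} (ht1 : 1 ≤ t)
    (ht : NoBiclique t E) : #E ^ 2 ≤ t ^ 4 * (Fintype.card X + Fintype.card Y) ^ 3 := by
  classical
  have h1 : E ⊆ lowPairs E t ∪ sw (lowPairs (sw E) t) := by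
    rintro ⟨x, y⟩ he
    rw [mem_union, mem_sw, lowPairs, mem_filter, lowPairs, mem_filter, mem_sw]
    by_contra hcon
    push Not at hcon
    have h2 := hcon.1 he
    have h3 := hcon.2 he
    refine ht (dn (sw E) y x) (dn E x y) h3 h2 ?_
    intro x' hx' y' hy'
    rw [mem_dn, mem_sw] at hx'
    rw [mem_dn] at hy'
    exact hE.rect hx'.1 hy'.1 hx'.2 hy'.2
  have h2 : #E ≤ #(lowPairs E t) + #(lowPairs (sw E) t) := by
    refine (card_le_card h1).trans ((card_union_le _ _).trans ?_)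
    rw [sw, card_map]
  have h3 := lowPairs_sq hE ht1 ht
  have h4 := lowPairs_sq hE.sw ht1 ht.sw
  set a := Fintype.card X
  set b := Fintype.card Y
  set p := #(lowPairs E t)
  set q := #(lowPairs (sw E) t)
  have h5 : #E ^ 2 ≤ (p + q) ^ 2 := Nat.pow_le_pow_left h2 2
  have h6 : (p + q) ^ 2 ≤ 2 * (p ^ 2 + q ^ 2) := by nlinarith [sq_nonneg ((p : ℤ) - q), sq_nonneg (p + q)]
  have h7 : 4 * (a * b) ≤ (a + b) ^ 2 := by nlinarith [sq_nonneg ((a : ℤ) - b)]
  calc #E ^ 2 ≤ 2 * (p ^ 2 + q ^ 2) := h5.trans h6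
    _ ≤ 2 * (t ^ 4 * (a * b * (a + b)) + t ^ 4 * (b * a * (b + a))) := by gcongr
    _ = t ^ 4 * (4 * (a * b) * (a + b)) := by ring
    _ ≤ t ^ 4 * ((a + b) ^ 2 * (a + b)) := by gcongr
    _ = t ^ 4 * (a + b) ^ 3 := by ring

/-- No two elements of `X` and two elements of `Y`. -/
theorem card_low_two {E : Finset (X × Y)} (hE : Closed E) (x : X) : #(low E 2 x) ≤ 1 := by
  classical
  rw [card_le_one]
  have key : ∀ a ∈ low E 2 x, ∀ b ∈ low E 2 x, a ≤ b := by
    intro a ha b hb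
    obtain ⟨ha1, -⟩ := mem_low.1 ha
    obtain ⟨hb1, hb2⟩ := mem_low.1 hb
    have h1 : (x, a ⊓ b) ∈ E := by
      have := hE.inf _ ha1 _ hb1
      simpa using this
    have h2 : a ⊓ b ∈ dn E x b := mem_dn.2 ⟨h1, inf_le_right⟩
    have h3 : b ∈ dn E x b := mem_dn.2 ⟨hb1, le_rfl⟩
    have h4 : a ⊓ b = b := card_le_one.1 (by omega : #(dn E x b) ≤ 1) _ h2 _ h3
    have h5 : b ≤ a := inf_eq_right.1 h4
    have h6 : a ⊓ b ∈ dn E x a := mem_dn.2 ⟨h1, inf_le_left⟩
    have h7 : a ∈ dn E x a := mem_dn.2 ⟨ha1, le_rfl⟩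
    have h8 : #(dn E x a) < 2 := (mem_low.1 ha).2
    have h9 : a ⊓ b = a := card_le_one.1 (by omega : #(dn E x a) ≤ 1) _ h6 _ h7
    exact inf_eq_left.1 h9
  exact fun a ha b hb => le_antisymm (key a ha b hb) (key b hb a ha)

theorem card_le_two {E : Finset (X × Y)} (hE : Closed E) (ht : NoBiclique 2 E) :
    #E ≤ Fintype.card X + Fintype.card Y := by
  classical
  have h1 : E ⊆ lowPairs E 2 ∪ sw (lowPairs (sw E) 2) := by
    rintro ⟨x, y⟩ he
    rw [mem_union, mem_sw, lowPairs, mem_filter, lowPairs, mem_filter, mem_sw]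
    by_contra hcon
    push Not at hcon
    have h2 := hcon.1 he
    have h3 := hcon.2 he
    refine ht (dn (sw E) y x) (dn E x y) h3 h2 ?_
    intro x' hx' y' hy'
    rw [mem_dn, mem_sw] at hx'
    rw [mem_dn] at hy'
    exact hE.rect hx'.1 hy'.1 hx'.2 hy'.2
  have h2 : #E ≤ #(lowPairs E 2) + #(lowPairs (sw E) 2) := by
    refine (card_le_card h1).trans ((card_union_le _ _).trans ?_)
    rw [sw, card_map]
  rw [card_lowPairs, card_lowPairs] at h2
  have h3 : ∑ x, #(low E 2 x) ≤ ∑ _x : X, 1 := sum_le_sum fun x _ => card_low_two hE x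
  have h4 : ∑ y, #(low (sw E) 2 y) ≤ ∑ _y : Y, 1 := sum_le_sum fun y _ => card_low_two hE.sw y
  rw [sum_const, card_univ, smul_eq_mul, mul_one] at h3 h4
  omega

end

end Pool.Agent.R181.LatRel
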