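import Pool.Agent.R181.LatRel

/-!
# The order relation of the lattice of an affine plane
-/

set_option autoImplicit false

namespace Pool.Agent.R181.LatRel

open Finset Pool.Agent.TH602.Turan

section

variable {P L : Type} (r : P → L → Prop)

/-- Two different points are on at most one common line. -/
def Linear : Prop := ∀ p q, p ≠ q → ∀ l l', r p l → r q l → r p l' → r q l' → l = l'

variable {r}

theorem intent_sub (hr : Linear r) (c : Concept P L r) {p q : P} (hpq : p ≠ q)
    (hp : p ∈ c.extent) (hq : q ∈ c.extent) {l l' : L} (hl : l ∈ c.intent) (hl' : l' ∈ c.intent) :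
    l = l' :=
  hr p q hpq l l' (c.rel_extent_intent hp hl) (c.rel_extent_intent hq hl)
    (c.rel_extent_intent hp hl') (c.rel_extent_intent hq hl')

/-- All the concepts. -/
def name : (P ⊕ L) ⊕ Bool → Concept P L r
  | Sum.inl (Sum.inl p) => Concept.ofObjects r {p}
  | Sum.inl (Sum.inr l) => Concept.ofAttributes r {l}
  | Sum.inr true => ⊤
  | Sum.inr false => ⊥

theorem name_surjective (hr : Linear r) : Function.Surjective (name (r := r)) := by
  intro c
  by_cases h : c.extent.Subsingleton
  · rcases h.eq_empty_or_singleton with h0 | ⟨p, hp⟩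
    · refine ⟨Sum.inr false, ?_⟩
      show ⊥ = c
      symm
      rw [eq_bot_iff, ← Concept.extent_subset_extent_iff, h0]
      exact Set.empty_subset _
    · refine ⟨Sum.inl (Sum.inl p), ?_⟩
      show Concept.ofObjects r {p} = c
      rw [← hp, Concept.ofObjects_extent]
  · rw [Set.not_subsingleton_iff] at h
    obtain ⟨p, hp, q, hq, hpq⟩ := h
    have h1 : c.intent.Subsingleton := fun l hl l' hl' => intent_sub hr c hpq hp hq hl hl'
    rcases h1.eq_empty_or_singleton with h0 | ⟨l, hl⟩
    · refine ⟨Sum.inr true, ?_⟩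
      show ⊤ = c
      symm
      rw [eq_top_iff, ← Concept.intent_subset_intent_iff, h0]
      exact Set.empty_subset _
    · refine ⟨Sum.inl (Sum.inr l), ?_⟩
      show Concept.ofAttributes r {l} = c
      rw [← hl, Concept.ofAttributes_intent]

/-- The order relation. -/
def ordRel (Q : Type) [LE Q] : Set (Q × Q) := {e | e.1 ≤ e.2}

theorem three_sub {Q : Type} {V : Type} (S : Finset Q) (hS : 3 ≤ #S) (f : Q → Set V)
    (hf : Function.Injective f) (h : ∀ a ∈ S, ∀ b ∈ S, ∀ p ∈ f a, ∀ q ∈ f b, p = q) : False := by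
  obtain ⟨a, b, c, ha, hb, hc, hab, hac, hbc⟩ := two_lt_card_iff.1 hS
  have key : ∀ u ∈ S, ∀ v ∈ S, (f u).Nonempty → (f v).Nonempty → u = v := by
    rintro u hu v hv ⟨p, hp⟩ ⟨q, hq⟩
    refine hf (Set.ext fun z => ⟨fun hz => ?_, fun hz => ?_⟩)
    · rw [h u hu v hv z hz q hq]; exact hq
    · rw [h v hv u hu z hz p hp]; exact hp
  have key0 : ∀ u v, f u = ∅ → f v = ∅ → u = v := fun u v hu hv => hf (hu.trans hv.symm)
  rcases (f a).eq_empty_or_nonempty with h1 | h1 <;> rcases (f b).eq_empty_or_nonempty with h2 | h2 <;>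
    rcases (f c).eq_empty_or_nonempty with h3 | h3
  all_goals first
    | exact hab (key0 _ _ h1 h2)
    | exact hac (key0 _ _ h1 h3)
    | exact hbc (key0 _ _ h2 h3)
    | exact hab (key _ ha _ hb h1 h2)
    | exact hac (key _ ha _ hc h1 h3)
    | exact hbc (key _ hb _ hc h2 h3)

theorem ordRel_no33 (hr : Linear r) (S T : Finset (Concept P L r)) (hS : 3 ≤ #S) (hT : 3 ≤ #T) :
    ¬∀ x ∈ S, ∀ y ∈ T, (x, y) ∈ ordRel (Concept P L r) := by
  intro h
  have h1 : ∃ a ∈ S, ∃ b ∈ S, ∃ p ∈ a.extent, ∃ q ∈ b.extent, p ≠ q := by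
    by_contra hcon
    push Not at hcon
    exact three_sub S hS Concept.extent Concept.extent_injective hcon
  obtain ⟨a, ha, b, hb, p, hp, q, hq, hpq⟩ := h1
  refine three_sub T hT Concept.intent Concept.intent_injective ?_
  intro c hc d hd l hl l' hl'
  have hac : a ≤ c := h a ha c hc
  have hbc : b ≤ c := h b hb c hc
  have had : a ≤ d := h a ha d hd
  have hbd : b ≤ d := h b hb d hd
  refine hr p q hpq l l' (c.rel_extent_intent (Concept.extent_subset_extent_iff.2 hac hp) hl)
    (c.rel_extent_intent (Concept.extent_subset_extent_iff.2 hbc hq) hl)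
    (d.rel_extent_intent (Concept.extent_subset_extent_iff.2 had hp) hl')
    (d.rel_extent_intent (Concept.extent_subset_extent_iff.2 hbd hq) hl')

end

/-- Points and lines of the affine plane over the field with `p` elements. -/
def aff (p : ℕ) : ZMod p × ZMod p → ZMod p × ZMod p → Prop := fun a l => a.2 = l.1 * a.1 + l.2

theorem aff_linear (p : ℕ) [Fact p.Prime] : Linear (aff p) := by
  rintro ⟨x, y⟩ ⟨x', y'⟩ hne ⟨m, c⟩ ⟨m', c'⟩ h1 h2 h3 h4
  simp only [aff] at h1 h2 h3 h4
  have hx : x ≠ x' := by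
    rintro rfl
    exact hne (by rw [h1, h2])
  have h5 : (m - m') * (x - x') = 0 := by linear_combination -h1 + h2 + h3 - h4
  have h6 : m = m' := by
    rcases mul_eq_zero.1 h5 with h | h
    · exact sub_eq_zero.1 h
    · exact absurd (sub_eq_zero.1 h) hx
  subst h6
  have h7 : c = c' := by linear_combination -h1 + h3
  rw [h7]

theorem ofObjects_inj (p : ℕ) [Fact p.Prime] :
    Function.Injective fun a => Concept.ofObjects (aff p) {a} := by
  rintro ⟨x, y⟩ ⟨x', y'⟩ h
  have h1 : (Concept.ofObjects (aff p) {(x, y)}).intent =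
      (Concept.ofObjects (aff p) {(x', y')}).intent := congrArg _ h
  have h2 : ∀ l, aff p (x, y) l ↔ aff p (x', y') l := by
    intro l
    have h3 : l ∈ upperPolar (aff p) {(x, y)} ↔ l ∈ upperPolar (aff p) {(x', y')} := by
      have : (Concept.ofObjects (aff p) {(x, y)}).intent = upperPolar (aff p) {(x, y)} := rfl
      rw [← this, h1]; rfl
    rwa [mem_upperPolar_singleton, mem_upperPolar_singleton] at h3
  have h4 := (h2 (0, y)).1 (by simp [aff])
  have h5 := (h2 (1, y - x)).1 (by simp [aff])
  simp only [aff] at h4 h5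
  have h6 : y' = y := by linear_combination h4
  have h7 : x' = x := by linear_combination h6 - h5
  rw [h6, h7]

theorem ofAttributes_inj (p : ℕ) [Fact p.Prime] :
    Function.Injective fun l => Concept.ofAttributes (aff p) {l} := by
  rintro ⟨m, c⟩ ⟨m', c'⟩ h
  have h1 : (Concept.ofAttributes (aff p) {(m, c)}).extent =
      (Concept.ofAttributes (aff p) {(m', c')}).extent := congrArg _ h
  have h2 : ∀ a, aff p a (m, c) ↔ aff p a (m', c') := by
    intro a
    have h3 : a ∈ lowerPolar (aff p) {(m, c)} ↔ a ∈ lowerPolar (aff p) {(m', c')} := by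
      have : (Concept.ofAttributes (aff p) {(m, c)}).extent = lowerPolar (aff p) {(m, c)} := rfl
      rw [← this, h1]; rfl
    rwa [mem_lowerPolar_singleton, mem_lowerPolar_singleton] at h3
  have h4 := (h2 (0, c)).1 (by simp [aff])
  have h5 := (h2 (1, m + c)).1 (by simp [aff])
  simp only [aff] at h4 h5
  have h6 : c = c' := by linear_combination h4
  have h7 : m = m' := by linear_combination h5 - h6
  rw [h6, h7]

theorem finite_concept (p : ℕ) [Fact p.Prime] :
    Finite (Concept (ZMod p × ZMod p) (ZMod p × ZMod p) (aff p)) :=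
  Finite.of_surjective _ (name_surjective (aff_linear p))

theorem card_concept (p : ℕ) [Fact p.Prime] :
    Nat.card (Concept (ZMod p × ZMod p) (ZMod p × ZMod p) (aff p)) ≤ 2 * p ^ 2 + 2 := by
  have h := Nat.card_le_card_of_surjective _ (name_surjective (aff_linear p))
  refine h.trans (le_of_eq ?_)
  rw [Nat.card_eq_fintype_card, Fintype.card_sum, Fintype.card_sum, Fintype.card_prod,
    ZMod.card, Fintype.card_bool]
  ring

theorem card_ordRel (p : ℕ) [Fact p.Prime] :
    p ^ 3 ≤ (ordRel (Concept (ZMod p × ZMod p) (ZMod p × ZMod p) (aff p))).ncard := by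
  classical
  have := finite_concept p
  let f : ZMod p × ZMod p × ZMod p →
      Concept (ZMod p × ZMod p) (ZMod p × ZMod p) (aff p) ×
        Concept (ZMod p × ZMod p) (ZMod p × ZMod p) (aff p) := fun z =>
    (Concept.ofObjects (aff p) {(z.1, z.2.1 * z.1 + z.2.2)},
      Concept.ofAttributes (aff p) {(z.2.1, z.2.2)})
  have hf : Function.Injective f := by
    rintro ⟨x, m, c⟩ ⟨x', m', c'⟩ h
    have h1 := ofObjects_inj p (congrArg Prod.fst h)
    have h2 := ofAttributes_inj p (congrArg Prod.snd h)
    have h3 : x = x' := (Prod.mk.inj h1).1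
    have h4 : m = m' := (Prod.mk.inj h2).1
    have h5 : c = c' := (Prod.mk.inj h2).2
    rw [h3, h4, h5]
  have hr : Set.range f ⊆ ordRel (Concept (ZMod p × ZMod p) (ZMod p × ZMod p) (aff p)) := by
    rintro _ ⟨⟨x, m, c⟩, rfl⟩
    show Concept.ofObjects (aff p) {(x, m * x + c)} ≤ Concept.ofAttributes (aff p) {(m, c)}
    rw [Concept.ofObjects_le_iff]
    intro a ha
    rw [Set.mem_singleton_iff] at ha
    subst ha
    show (x, m * x + c) ∈ lowerPolar (aff p) {(m, c)}
    rw [mem_lowerPolar_singleton]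
    simp [aff]
  have h1 : (Set.range f).ncard = p ^ 3 := by
    rw [← Set.image_univ, Set.ncard_image_of_injective _ hf, Set.ncard_univ,
      Nat.card_eq_fintype_card, Fintype.card_prod, Fintype.card_prod, ZMod.card]
    ring
  rw [← h1]
  exact Set.ncard_le_ncard hr (Set.toFinite _)

end Pool.Agent.R181.LatRel
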