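import Mathlib

/-!
# Congruences of an algebra with a majority operation
-/

set_option autoImplicit false

namespace Pool.Agent.R181.Maj

variable {A : Type*} {m : A → A → A → A}

/-- `m` is a majority operation. -/
def IsMaj (m : A → A → A → A) : Prop := ∀ a b, m a a b = a ∧ m a b a = a ∧ m b a a = a

/-- The equivalence relation `s` is compatible with `m`. -/
def Compat (m : A → A → A → A) (s : Setoid A) : Prop :=
  ∀ a a' b b' c c', s a a' → s b b' → s c c' → s (m a b c) (m a' b' c')

theorem compat_inf {s t : Setoid A} (hs : Compat m s) (ht : Compat m t) : Compat m (s ⊓ t) :=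
  fun _ _ _ _ _ _ h1 h2 h3 => ⟨hs _ _ _ _ _ _ h1.1 h2.1 h3.1, ht _ _ _ _ _ _ h1.2 h2.2 h3.2⟩

theorem sup_map {s t w : Setoid A} (u : A → A) (hs : ∀ x y, s x y → w (u x) (u y))
    (ht : ∀ x y, t x y → w (u x) (u y)) {x y : A} (h : (s ⊔ t) x y) : w (u x) (u y) := by
  rw [Setoid.sup_eq_eqvGen] at h
  have h' : Relation.EqvGen (fun x y => s x y ∨ t x y) x y := h
  clear h
  induction h' with
  | rel a b hab => exact hab.elim (hs _ _) (ht _ _)
  | refl a => exact w.refl _
  | symm a b _ ih => exact w.symm ih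
  | trans a b c _ _ ih1 ih2 => exact w.trans ih1 ih2

theorem compat_sup {s t : Setoid A} (hs : Compat m s) (ht : Compat m t) : Compat m (s ⊔ t) := by
  intro a a' b b' c c' h1 h2 h3
  have hsl : ∀ {x y}, s x y → (s ⊔ t) x y := fun {x y} h => (le_sup_left : s ≤ s ⊔ t) h
  have htl : ∀ {x y}, t x y → (s ⊔ t) x y := fun {x y} h => (le_sup_right : t ≤ s ⊔ t) h
  have e1 : (s ⊔ t) (m a b c) (m a' b c) := sup_map (fun x => m x b c)
    (fun x y h => hsl (hs _ _ _ _ _ _ h (s.refl _) (s.refl _)))
    (fun x y h => htl (ht _ _ _ _ _ _ h (t.refl _) (t.refl _))) h1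
  have e2 : (s ⊔ t) (m a' b c) (m a' b' c) := sup_map (fun x => m a' x c)
    (fun x y h => hsl (hs _ _ _ _ _ _ (s.refl _) h (s.refl _)))
    (fun x y h => htl (ht _ _ _ _ _ _ (t.refl _) h (t.refl _))) h2
  have e3 : (s ⊔ t) (m a' b' c) (m a' b' c') := sup_map (fun x => m a' b' x)
    (fun x y h => hsl (hs _ _ _ _ _ _ (s.refl _) (s.refl _) h))
    (fun x y h => htl (ht _ _ _ _ _ _ (t.refl _) (t.refl _) h)) h3
  exact (s ⊔ t).trans e1 ((s ⊔ t).trans e2 e3)

theorem distrib (hm : IsMaj m) {α β γ : Setoid A} (hα : Compat m α) (hβ : Compat m β)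
    (hγ : Compat m γ) : α ⊓ (β ⊔ γ) ≤ (α ⊓ β) ⊔ (α ⊓ γ) := by
  intro h h' hh
  obtain ⟨h1, h2⟩ := hh
  have key : ∀ g g', α (m h g h') (m h g' h') := by
    intro g g'
    have e1 : α (m h g h') (m h g h) := hα _ _ _ _ _ _ (α.refl _) (α.refl _) (α.symm h1)
    have e2 : α (m h g' h') (m h g' h) := hα _ _ _ _ _ _ (α.refl _) (α.refl _) (α.symm h1)
    rw [(hm h g).2.1] at e1
    rw [(hm h g').2.1] at e2
    exact α.trans e1 (α.symm e2)
  have h3 := sup_map (s := β) (t := γ) (w := (α ⊓ β) ⊔ (α ⊓ γ)) (fun g => m h g h')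
    (fun x y hxy => (le_sup_left : α ⊓ β ≤ (α ⊓ β) ⊔ (α ⊓ γ))
      ⟨key x y, hβ _ _ _ _ _ _ (β.refl _) hxy (β.refl _)⟩)
    (fun x y hxy => (le_sup_right : α ⊓ γ ≤ (α ⊓ β) ⊔ (α ⊓ γ))
      ⟨key x y, hγ _ _ _ _ _ _ (γ.refl _) hxy (γ.refl _)⟩) h2
  simp only [(hm h h').1, (hm h' h).2.2] at h3
  exact h3

/-- The congruences. -/
def Cong (m : A → A → A → A) (_ : IsMaj m) : Type _ := {s : Setoid A // Compat m s}

variable {hm : IsMaj m}

noncomputable instance instLat : Lattice (Cong m hm) :=
  Subtype.lattice (fun _ _ h h' => compat_sup h h') (fun _ _ h h' => compat_inf h h')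

/-- Congruence lattices of algebras with a majority operation are distributive. -/
noncomputable instance : DistribLattice (Cong m hm) :=
  DistribLattice.ofInfSupLe fun a b c => distrib hm a.2 b.2 c.2

noncomputable instance : OrderBot (Cong m hm) where
  bot := ⟨⊥, fun a a' b b' c c' h1 h2 h3 => by
    rw [Setoid.bot_def] at *; rw [h1, h2, h3]⟩
  bot_le s := (bot_le : (⊥ : Setoid A) ≤ s.1)

noncomputable instance : OrderTop (Cong m hm) where
  top := ⟨⊤, fun _ _ _ _ _ _ _ _ _ => trivial⟩
  le_top s := (le_top : s.1 ≤ ⊤)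

theorem coe_sup (a b : Cong m hm) : (a ⊔ b).1 = a.1 ⊔ b.1 := rfl

theorem coe_inf (a b : Cong m hm) : (a ⊓ b).1 = a.1 ⊓ b.1 := rfl

theorem coe_le {a b : Cong m hm} : a ≤ b ↔ a.1 ≤ b.1 := Iff.rfl

theorem inf_rel {κ : Type*} (s : Finset κ) (f : κ → Cong m hm) (x y : A) :
    (∀ k ∈ s, (f k).1 x y) → (s.inf f).1 x y := by
  classical
  induction s using Finset.induction_on with
  | empty => exact fun _ => trivial
  | insert k s _ ih =>
    intro h
    rw [Finset.inf_insert]
    exact ⟨h k (Finset.mem_insert_self _ _), ih fun l hl => h l (Finset.mem_insert_of_mem hl)⟩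

theorem sup_le_setoid {κ : Type*} (s : Finset κ) (f : κ → Cong m hm) (w : Setoid A)
    (h : ∀ k ∈ s, (f k).1 ≤ w) : (s.sup f).1 ≤ w := by
  classical
  induction s using Finset.induction_on with
  | empty =>
    rw [Finset.sup_empty]
    exact (bot_le : (⊥ : Setoid A) ≤ w)
  | insert k s _ ih =>
    rw [Finset.sup_insert, coe_sup]
    exact sup_le (h k (Finset.mem_insert_self _ _)) (ih fun l hl => h l (Finset.mem_insert_of_mem hl))

section Abstract

open Finset

variable {L ι : Type*} [DistribLattice L] [OrderBot L] [Fintype ι] [DecidableEq ι]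

/-- The join of all pairwise meets. -/
def pairs (θ : ι → L) : L := (univ.filter fun p : ι × ι => p.1 ≠ p.2).sup fun p => θ p.1 ⊓ θ p.2

theorem le_pairs (θ : ι → L) {i j : ι} (h : i ≠ j) : θ i ⊓ θ j ≤ pairs θ :=
  Finset.le_sup (f := fun p : ι × ι => θ p.1 ⊓ θ p.2) (b := (i, j))
    (mem_filter.2 ⟨mem_univ _, h⟩)

/-- What lies below the join of all `θ i`, `i ≠ k`, for all `k`, lies below the join of all pairwise
meets. -/
theorem le_pairs_of_le [Nonempty ι] (θ : ι → L) (x : L)
    (hx : ∀ k, x ≤ (univ.erase k).sup θ) : x ≤ pairs θ := by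
  classical
  have key : ∀ K : Finset ι, x ≤ (univ \ K).sup θ ⊔ pairs θ := by
    intro K
    induction K using Finset.induction_on with
    | empty =>
      obtain ⟨k⟩ := ‹Nonempty ι›
      refine le_sup_of_le_left ((hx k).trans (Finset.sup_mono ?_))
      intro i _
      simp
    | insert l K hl ih =>
      have h1 : (univ \ K).sup θ = (univ \ insert l K).sup θ ⊔ θ l := by
        have h2 : univ \ K = insert l (univ \ insert l K) := by
          ext i
          simp only [mem_sdiff, mem_univ, true_and, mem_insert]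
          constructor
          · intro h
            by_cases hil : i = l
            · exact Or.inl hil
            · exact Or.inr fun h' => h'.elim hil h
          · rintro (rfl | h)
            · exact hl
            · exact fun h' => h (Or.inr h')
        rw [h2, Finset.sup_insert, sup_comm]
      have h3 : x ≤ ((univ \ insert l K).sup θ ⊔ pairs θ ⊔ θ l) ⊓ (univ.erase l).sup θ := by
        refine le_inf (ih.trans ?_) (hx l)
        rw [h1, sup_right_comm]
      rw [inf_sup_right] at h3
      refine h3.trans (sup_le inf_le_left ?_)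
      rw [Finset.sup_inf_distrib_left]
      refine Finset.sup_le fun i hi => ?_
      exact le_sup_of_le_right (le_pairs θ (ne_of_mem_erase hi).symm)
  have h := key univ
  rwa [sdiff_self, Finset.bot_eq_empty, Finset.sup_empty, bot_sup_eq] at h

end Abstract

end Pool.Agent.R181.Maj
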