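import Pool.Agent.R181.MajRel

/-!
# Linear systems closed under majority operations, with an arbitrary index set
-/

set_option autoImplicit false

universe u

namespace Pool.Agent.R181.Maj

open Finset Pool.Agent.R181.LW

theorem two_span {n : ℕ} {X : Fin (n + 3) → Type u} [∀ i, DecidableEq (X i)]
    (H : Finset (∀ i, X i))
    (hlin : ∀ i j, i ≠ j → ∀ x ∈ H, ∀ y ∈ H, x i = y i → x j = y j → x = y) :
    ∀ T ⊆ H, #T = 2 → (n + 1) * 2 + 2 < ∑ i, #(T.image fun x => x i) := by
  classical
  intro T hT hT2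
  obtain ⟨x, y, hxy, rfl⟩ := card_eq_two.1 hT2
  have hx : x ∈ H := hT (mem_insert_self _ _)
  have hy : y ∈ H := hT (mem_insert_of_mem (mem_singleton_self _))
  have h1 : ∀ i, #(({x, y} : Finset (∀ i, X i)).image fun x => x i) =
      2 - (if x i = y i then 1 else 0) := by
    intro i
    rw [image_insert, image_singleton]
    by_cases h : x i = y i
    · simp [h]
    · rw [card_pair h, if_neg h]
  have h2 : #(univ.filter fun i => x i = y i) ≤ 1 := by
    rw [card_le_one]
    intro i hi j hj
    by_contra hij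
    exact hxy (hlin i j hij x hx y hy (mem_filter.1 hi).2 (mem_filter.1 hj).2)
  have h3 : ∑ i, #(({x, y} : Finset (∀ i, X i)).image fun x => x i) +
      #(univ.filter fun i => x i = y i) = 2 * (n + 3) := by
    rw [card_filter, ← sum_add_distrib]
    have h4 : ∀ i, #(({x, y} : Finset (∀ i, X i)).image fun x => x i) +
        (if x i = y i then 1 else 0) = 2 := by
      intro i
      rw [h1]
      split_ifs <;> rfl
    rw [sum_congr rfl fun i _ => h4 i, sum_const, card_univ, Fintype.card_fin, smul_eq_mul]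
    ring
  omega

theorem linear_bound {ι α : Type} [Fintype ι] (hι : 3 ≤ Fintype.card ι) {X : ι → Type u}
    [∀ i, DecidableEq (X i)] (A : Finset α) (p : ∀ i, α → X i)
    (hp : ∀ i j, i ≠ j → ∀ a ∈ A, ∀ b ∈ A, p i a = p i b → p j a = p j b → a = b)
    (μ : ∀ i, X i → X i → X i → X i) (hμ : ∀ i, IsMaj (μ i))
    (hA : ∀ a ∈ A, ∀ b ∈ A, ∀ c ∈ A, ∃ d ∈ A, ∀ i, p i d = μ i (p i a) (p i b) (p i c)) :
    #A ^ (Fintype.card ι - 1) ≤ ∏ i, #(A.image (p i)) := by
  classical
  obtain ⟨n, hn⟩ : ∃ n, Fintype.card ι = n + 3 := ⟨Fintype.card ι - 3, by omega⟩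
  let e : Fin (n + 3) ≃ ι := (Fintype.equivFinOfCardEq hn).symm
  let g : α → ∀ i : Fin (n + 3), X (e i) := fun a i => p (e i) a
  have hg : Set.InjOn g (A : Set α) := by
    intro a ha b hb hab
    refine hp (e 0) (e 1) (fun h => absurd (e.injective h) (by simp)) a ha b hb ?_ ?_
    · exact congrFun hab 0
    · exact congrFun hab 1
  have hcard : #(A.image g) = #A := card_image_of_injOn hg
  have h := bound (X := fun i => X (e i)) (fun i => μ (e i)) (fun i => hμ (e i)) (A.image g)
    (by
      intro x hx y hy z hz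
      obtain ⟨a, ha, rfl⟩ := mem_image.1 hx
      obtain ⟨b, hb, rfl⟩ := mem_image.1 hy
      obtain ⟨c, hc, rfl⟩ := mem_image.1 hz
      obtain ⟨d, hd, hd'⟩ := hA a ha b hb c hc
      exact mem_image.2 ⟨d, hd, funext fun i => hd' (e i)⟩) 2 (by norm_num)
    (two_span (A.image g) (by
      intro i j hij x hx y hy h1 h2
      obtain ⟨a, ha, rfl⟩ := mem_image.1 hx
      obtain ⟨b, hb, rfl⟩ := mem_image.1 hy
      rw [hp (e i) (e j) (fun h => hij (e.injective h)) a ha b hb h1 h2]))
  rw [hcard, show 2 - 1 = 1 from rfl, one_pow, one_mul] at h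
  have h3 : ∀ i, (A.image g).image (fun x => x i) = A.image (p (e i)) := by
    intro i
    rw [image_image]
    rfl
  simp only [h3] at h
  rw [hn]
  refine h.trans (le_of_eq ?_)
  exact e.prod_comp (fun i => #(A.image (p i)))

end Pool.Agent.R181.Maj
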