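import Pool.Agent.R181.MajRel

/-!
# Hypergraphs which are unions of relations closed under majority operations
-/

set_option autoImplicit false

namespace Pool.Agent.R181.Maj

open Finset Pool.Agent.R181.LW

/-- The set of vertices of the edge with the coordinates `x i`. -/
noncomputable def edge {V : Type} {r : ℕ} {X : Fin r → Type} (f : (Σ i, X i) → V) (x : ∀ i, X i) :
    Finset V := by
  classical exact univ.image fun i => f ⟨i, x i⟩

/-- `F` is a relation between `r` pairwise disjoint sets of vertices, closed under componentwise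
application of some majority operations `μ i` on these sets. -/
def MajorityPiece {V : Type} (r : ℕ) (F : Set (Finset V)) : Prop :=
  ∃ (X : Fin r → Type) (μ : ∀ i, X i → X i → X i → X i) (f : (Σ i, X i) → V)
    (E : Set (∀ i, X i)), (∀ i, IsMaj (μ i)) ∧ Function.Injective f ∧
    (∀ x ∈ E, ∀ y ∈ E, ∀ z ∈ E, (fun i => μ i (x i) (y i) (z i)) ∈ E) ∧ F = edge f '' E

/-- Any `e` edges of `H` span more than `d` vertices. -/
def SpanMore {V : Type} (H : Set (Finset V)) (e d : ℕ) : Prop :=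
  ∀ T : Finset (Finset V), ↑T ⊆ H → #T = e → d < (⋃ a ∈ T, (a : Set V)).ncard

theorem edge_injective {V : Type} {r : ℕ} {X : Fin r → Type} {f : (Σ i, X i) → V}
    (hf : Function.Injective f) : Function.Injective (edge f) := by
  classical
  intro x y h
  funext i
  have h1 : f ⟨i, x i⟩ ∈ edge f x := by
    rw [edge, mem_image]
    exact ⟨i, mem_univ _, rfl⟩
  rw [h, edge, mem_image] at h1
  obtain ⟨j, -, hj⟩ := h1
  have h2 := hf hj
  rw [Sigma.mk.injEq] at h2
  obtain ⟨rfl, h3⟩ := h2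
  exact (eq_of_heq h3).symm

theorem union_eq {V : Type} {r : ℕ} {X : Fin r → Type} [∀ i, DecidableEq (X i)]
    {f : (Σ i, X i) → V} (hf : Function.Injective f) (T : Finset (∀ i, X i))
    [DecidableEq (Finset V)] :
    (⋃ a ∈ T.image (edge f), (a : Set V)).ncard = ∑ i, #(T.image fun x => x i) := by
  classical
  have h2 : (⋃ a ∈ T.image (edge f), (a : Set V)) =
      (((univ : Finset (Fin r)).sigma fun i => T.image fun x => x i).image f : Finset V) := by
    ext v
    simp only [edge, mem_image, Set.mem_iUnion, mem_coe, mem_sigma, mem_univ, true_and]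
    constructor
    · rintro ⟨a, ⟨x, hx, rfl⟩, hv⟩
      rw [mem_image] at hv
      obtain ⟨i, -, rfl⟩ := hv
      exact ⟨⟨i, x i⟩, ⟨x, hx, rfl⟩, rfl⟩
    · rintro ⟨⟨i, a⟩, ⟨x, hx, hxa⟩, rfl⟩
      have hxa' : x i = a := hxa
      subst hxa'
      exact ⟨_, ⟨x, hx, rfl⟩, mem_image.2 ⟨i, mem_univ _, rfl⟩⟩
  rw [h2, Set.ncard_coe_finset, card_image_of_injective _ hf, card_sigma]

/-- Arithmetic and geometric mean. -/
theorem amgm {ι : Type*} (s : Finset ι) (hs : s.Nonempty) (a : ι → ℕ) :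
    #s ^ #s * ∏ i ∈ s, a i ≤ (∑ i ∈ s, a i) ^ #s := by
  have h0 : #s ≠ 0 := (card_pos.2 hs).ne'
  have h1 : (0 : ℝ) < #s := by exact_mod_cast card_pos.2 hs
  have h2 : ∏ i ∈ s, (a i : ℝ) ^ ((#s : ℝ)⁻¹) ≤ ∑ i ∈ s, (#s : ℝ)⁻¹ * (a i : ℝ) :=
    Real.geom_mean_le_arith_mean_weighted s (fun _ => (#s : ℝ)⁻¹) (fun i => (a i : ℝ))
      (fun _ _ => by positivity) (by rw [sum_const, nsmul_eq_mul, mul_inv_cancel₀ h1.ne'])
      (fun _ _ => Nat.cast_nonneg _)
  rw [Real.finsetProd_rpow _ _ fun i _ => Nat.cast_nonneg _, ← mul_sum] at h2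
  have h3 : ((∏ i ∈ s, (a i : ℝ)) ^ ((#s : ℝ)⁻¹)) ^ #s ≤
      ((#s : ℝ)⁻¹ * ∑ i ∈ s, (a i : ℝ)) ^ #s :=
    pow_le_pow_left₀ (Real.rpow_nonneg (prod_nonneg fun i _ => Nat.cast_nonneg _) _) h2 _
  rw [Real.rpow_inv_natCast_pow (prod_nonneg fun i _ => Nat.cast_nonneg _) h0, mul_pow] at h3
  have h4 : (#s : ℝ) ^ #s * ∏ i ∈ s, (a i : ℝ) ≤ (∑ i ∈ s, (a i : ℝ)) ^ #s := by
    calc (#s : ℝ) ^ #s * ∏ i ∈ s, (a i : ℝ) ≤
          (#s : ℝ) ^ #s * (((#s : ℝ)⁻¹) ^ #s * (∑ i ∈ s, (a i : ℝ)) ^ #s) :=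
        mul_le_mul_of_nonneg_left h3 (by positivity)
      _ = (∑ i ∈ s, (a i : ℝ)) ^ #s := by
        rw [← mul_assoc, ← mul_pow, mul_inv_cancel₀ h1.ne', one_pow, one_mul]
  exact_mod_cast h4

theorem piece_le {V : Type} [Fintype V] {r e : ℕ} (hr : 3 ≤ r) (he : 1 ≤ e) {H : Set (Finset V)}
    (hH : SpanMore H e ((r - 2) * e + 2)) {F : Set (Finset V)} (hF : MajorityPiece r F)
    (hFH : F ⊆ H) :
    r ^ r * F.ncard ^ (r - 1) ≤ (e - 1) ^ (r - 1) * Fintype.card V ^ r := by
  classical
  obtain ⟨k, rfl⟩ : ∃ k, r = k + 3 := ⟨r - 3, by omega⟩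
  obtain ⟨X, μ, f, E, hμ, hf, hE, rfl⟩ := hF
  have hfi : ∀ i, Function.Injective fun a : X i => f ⟨i, a⟩ := fun i a b hab =>
    eq_of_heq (Sigma.mk.inj (hf hab)).2
  haveI : ∀ i, Finite (X i) := fun i => Finite.of_injective _ (hfi i)
  letI : ∀ i, Fintype (X i) := fun i => Fintype.ofFinite (X i)
  have hs : ∀ T ⊆ E.toFinset, #T = e → (k + 1) * e + 2 < ∑ i, #(T.image fun x => x i) := by
    intro T hT hTe
    have h1 := hH (T.image (edge f)) (by
      rw [coe_image]
      intro a ha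
      obtain ⟨x, hx, rfl⟩ := ha
      exact hFH ⟨x, Set.mem_toFinset.1 (hT hx), rfl⟩)
      (by rw [card_image_of_injective _ (edge_injective hf), hTe])
    rw [union_eq hf] at h1
    have h5 : k + 3 - 2 = k + 1 := by omega
    rwa [h5] at h1
  have h := bound μ hμ E.toFinset (fun x hx y hy z hz => by
    rw [Set.mem_toFinset] at *
    exact hE x hx y hy z hz) e he hs
  rw [← Set.ncard_eq_toFinset_card'] at h
  have h1 : (edge f '' E).ncard = E.ncard := Set.ncard_image_of_injective _ (edge_injective hf)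
  have h2 : k + 3 - 1 = k + 2 := by omega
  rw [h1, h2]
  have h3 : ∏ i, #(E.toFinset.image fun x => x i) ≤ ∏ i, Fintype.card (X i) :=
    prod_le_prod' fun i _ => card_le_univ _
  have h4 := amgm (univ : Finset (Fin (k + 3))) univ_nonempty fun i => Fintype.card (X i)
  rw [card_univ, Fintype.card_fin] at h4
  have h5 : ∑ i, Fintype.card (X i) ≤ Fintype.card V := by
    rw [← Fintype.card_sigma]
    exact Fintype.card_le_of_injective f hf
  calc (k + 3) ^ (k + 3) * E.ncard ^ (k + 2)
      ≤ (k + 3) ^ (k + 3) * ((e - 1) ^ (k + 2) * ∏ i, Fintype.card (X i)) :=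
        Nat.mul_le_mul_left _ (h.trans (Nat.mul_le_mul_left _ h3))
    _ = (e - 1) ^ (k + 2) * ((k + 3) ^ (k + 3) * ∏ i, Fintype.card (X i)) := by ring
    _ ≤ (e - 1) ^ (k + 2) * (∑ i, Fintype.card (X i)) ^ (k + 3) := Nat.mul_le_mul_left _ h4
    _ ≤ _ := Nat.mul_le_mul_left _ (Nat.pow_le_pow_left h5 _)

/-- The median of three elements of a chain. -/
def med {α : Type*} [Lattice α] (a b c : α) : α := (a ⊓ b) ⊔ (b ⊓ c) ⊔ (a ⊓ c)

theorem isMaj_med (α : Type*) [Lattice α] : IsMaj (med : α → α → α → α) := by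
  intro a b
  refine ⟨?_, ?_, ?_⟩
  · show (a ⊓ a) ⊔ (a ⊓ b) ⊔ (a ⊓ b) = a
    rw [inf_idem, sup_assoc, sup_idem, sup_inf_self]
  · show (a ⊓ b) ⊔ (b ⊓ a) ⊔ (a ⊓ a) = a
    rw [inf_comm b a, sup_idem, inf_idem, sup_comm, sup_inf_self]
  · show (b ⊓ a) ⊔ (a ⊓ a) ⊔ (b ⊓ a) = a
    rw [inf_idem, inf_comm b a, sup_comm (a ⊓ b) a, sup_inf_self, sup_inf_self]

/-- The vertices of the grid: the lines of `[q]^(n+1)` in the `n + 1` directions. -/
abbrev GridV (n q : ℕ) : Type := Σ _ : Fin (n + 1), (Fin n → Fin q)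

/-- The edges of the grid: the points of `[q]^(n+1)`, as sets of the lines through them. -/
def grid (n q : ℕ) : Set (Finset (GridV n q)) :=
  Set.range fun p : Fin (n + 1) → Fin q =>
    edge (V := GridV n q) (X := fun _ => Fin n → Fin q) id fun i => i.removeNth p

theorem card_gridV (n q : ℕ) : Fintype.card (GridV n q) = (n + 1) * q ^ n := by
  rw [Fintype.card_sigma]
  simp

theorem grid_point_injective (n q : ℕ) (hn : 1 ≤ n) :
    Function.Injective fun (p : Fin (n + 1) → Fin q) (i : Fin (n + 1)) => i.removeNth p := by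
  intro p p' h
  funext j
  obtain ⟨i, hi⟩ : ∃ i : Fin (n + 1), j ≠ i := by
    by_cases h0 : j = 0
    · refine ⟨Fin.last n, ?_⟩
      rw [h0]
      intro h1
      have := congrArg Fin.val h1
      simp at this
      omega
    · exact ⟨0, h0⟩
  exact removeNth_eq (P := fun _ => Fin q) (congrFun h i) j hi

theorem ncard_grid (n q : ℕ) (hn : 1 ≤ n) : (grid n q).ncard = q ^ (n + 1) := by
  have hinj : Function.Injective fun p : Fin (n + 1) → Fin q =>
      edge (V := GridV n q) (X := fun _ => Fin n → Fin q) id fun i => i.removeNth p :=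
    (edge_injective Function.injective_id).comp (grid_point_injective n q hn)
  rw [grid, ← Set.image_univ, Set.ncard_image_of_injective _ hinj, Set.ncard_univ,
    Nat.card_eq_fintype_card, Fintype.card_fun, Fintype.card_fin, Fintype.card_fin]

theorem grid_piece (n q : ℕ) : MajorityPiece (n + 1) (grid n q) := by
  refine ⟨fun _ => Fin n → Fin q, fun _ a b c k => if (a k = b k ∨ a k = c k) then a k else
    if b k = c k then b k else min (a k) (min (b k) (c k)), id,
    Set.range fun (p : Fin (n + 1) → Fin q) i => i.removeNth p, ?_, Function.injective_id, ?_, ?_⟩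
  · intro i a b
    refine ⟨?_, ?_, ?_⟩
    · funext k; simp
    · funext k; simp
    · funext k
      by_cases h : b k = a k
      · simp [h]
      · simp [h]
  · rintro _ ⟨p, rfl⟩ _ ⟨p', rfl⟩ _ ⟨p'', rfl⟩
    exact ⟨fun j => if (p j = p' j ∨ p j = p'' j) then p j else
      if p' j = p'' j then p' j else min (p j) (min (p' j) (p'' j)), rfl⟩
  · rw [grid, ← Set.range_comp]
    rfl

theorem grid_span (n q e d : ℕ) (hn : 1 ≤ n) (he : 1 ≤ e)
    (hd : d ^ (n + 1) < (n + 1) ^ (n + 1) * e ^ n) : SpanMore (grid n q) e d := by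
  classical
  intro T hT hTe
  set g : (Fin (n + 1) → Fin q) → Finset (GridV n q) := fun p =>
    edge (V := GridV n q) (X := fun _ => Fin n → Fin q) id fun i => i.removeNth p with hg
  have hginj : Function.Injective g :=
    (edge_injective Function.injective_id).comp (grid_point_injective n q hn)
  set P : Finset (Fin (n + 1) → Fin q) := univ.filter fun p => g p ∈ T with hP
  have hPT : P.image g = T := by
    ext a
    rw [mem_image]
    constructor
    · rintro ⟨p, hp, rfl⟩
      exact (mem_filter.1 hp).2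
    · intro ha
      obtain ⟨p, rfl⟩ := hT ha
      exact ⟨p, mem_filter.2 ⟨mem_univ _, ha⟩, rfl⟩
  have hPe : #P = e := by
    rw [← hTe, ← hPT, card_image_of_injective _ hginj]
  have hPne : P.Nonempty := card_pos.1 (by omega)
  have h1 : T = (P.image fun p => fun i : Fin (n + 1) => i.removeNth p).image
      (edge (V := GridV n q) (X := fun _ => Fin n → Fin q) id) := by
    rw [image_image, ← hPT]
    rfl
  have h2 := union_eq (V := GridV n q) (X := fun _ => Fin n → Fin q) (f := id)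
    Function.injective_id (P.image fun p => fun i : Fin (n + 1) => i.removeNth p)
  rw [← h1] at h2
  rw [h2]
  have h3 : ∀ i : Fin (n + 1), (P.image fun p => fun i : Fin (n + 1) => i.removeNth p).image
      (fun x => x i) = P.image fun p => i.removeNth p := by
    intro i
    rw [image_image]
    rfl
  simp only [h3]
  have h4 := loomisWhitney n (fun _ => Fin q) P hPne
  have h5 := amgm (univ : Finset (Fin (n + 1))) univ_nonempty fun i =>
    #(P.image fun p => i.removeNth p)
  rw [card_univ, Fintype.card_fin] at h5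
  rw [hPe] at h4
  have h6 : d ^ (n + 1) < (∑ i : Fin (n + 1), #(P.image fun p => i.removeNth p)) ^ (n + 1) :=
    hd.trans_le ((Nat.mul_le_mul_left _ h4).trans h5)
  exact lt_of_pow_lt_pow_left₀ (n + 1) (Nat.zero_le _) h6

end Pool.Agent.R181.Maj
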