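import Pool.Agent.R181.Maj
import Pool.Agent.R181.LW

/-!
# Relations closed under componentwise majority operations
-/

set_option autoImplicit false

universe u

namespace Pool.Agent.R181.Maj

open Finset Pool.Agent.R181.LW

section Growth

variable {A : Type*} [Fintype A] {r : ℕ} {X : Fin r → Type*} [∀ i, DecidableEq (X i)]

/-- The number of different coordinates of the elements of `T`. -/
def spn (f : ∀ i, A → X i) (T : Finset A) : ℕ := ∑ i, #(T.image (f i))

/-- Two coordinates are shared. -/
def Share (f : ∀ i, A → X i) (x y : A) : Prop := ∃ i j, i ≠ j ∧ f i x = f i y ∧ f j x = f j y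

theorem growth (hr : 2 ≤ r) (f : ∀ i, A → X i) (x₀ : A) (C : Finset A)
    (hC : ∀ y, y ∈ C ↔ Relation.EqvGen (Share f) x₀ y) (e : ℕ) (he : 1 ≤ e) :
    e ≤ #C → ∃ T ⊆ C, #T = e ∧ spn f T ≤ (r - 2) * e + 2 := by
  classical
  induction e, he using Nat.le_induction with
  | base =>
    intro _
    refine ⟨{x₀}, singleton_subset_iff.2 ((hC _).2 (Relation.EqvGen.refl _)), card_singleton _, ?_⟩
    have : spn f {x₀} = r := by
      simp [spn]
    omega
  | succ e he ih =>
    intro hle
    obtain ⟨T, hTC, hTe, hT⟩ := ih (by omega)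
    have h1 : ∃ c ∈ C, c ∉ T ∧ ∃ c' ∈ T, Share f c' c := by
      by_contra hcon
      push Not at hcon
      obtain ⟨t, ht⟩ := card_pos.1 (by omega : 0 < #T)
      have h2 : ∀ a b, Relation.EqvGen (Share f) a b → (a ∈ T ↔ b ∈ T) := by
        intro a b hab
        have hstep : ∀ a b, Share f a b → a ∈ T → b ∈ T := by
          intro a b h ha
          by_contra hb
          have hbC : b ∈ C := (hC b).2 (Relation.EqvGen.trans _ _ _ ((hC a).1 (hTC ha))
            (Relation.EqvGen.rel _ _ h))
          exact hcon b hbC hb a ha h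
        induction hab with
        | rel a b h =>
          refine ⟨hstep a b h, hstep b a ?_⟩
          obtain ⟨i, j, hij, hi, hj⟩ := h
          exact ⟨i, j, hij, hi.symm, hj.symm⟩
        | refl a => exact Iff.rfl
        | symm a b _ ih => exact ih.symm
        | trans a b c _ _ ih1 ih2 => exact ih1.trans ih2
      have h3 : C ⊆ T := by
        intro c hc
        refine (h2 t c ?_).1 ht
        exact Relation.EqvGen.trans _ _ _ (Relation.EqvGen.symm _ _ ((hC t).1 (hTC ht)))
          ((hC c).1 hc)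
      have := card_le_card h3
      omega
    obtain ⟨c, hcC, hcT, c', hc'T, i₀, j₀, hij, hi, hj⟩ := h1
    refine ⟨insert c T, insert_subset_iff.2 ⟨hcC, hTC⟩, by rw [card_insert_of_notMem hcT, hTe], ?_⟩
    have h4 : ∀ i, #((insert c T).image (f i)) ≤
        #(T.image (f i)) + (if i ∈ (univ.erase i₀).erase j₀ then 1 else 0) := by
      intro i
      rw [image_insert]
      by_cases h : i = i₀ ∨ i = j₀
      · have h5 : f i c ∈ T.image (f i) := by
          rcases h with rfl | rfl
          · rw [← hi]; exact mem_image_of_mem _ hc'T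
          · rw [← hj]; exact mem_image_of_mem _ hc'T
        rw [insert_eq_of_mem h5]
        omega
      · push Not at h
        rw [if_pos (mem_erase.2 ⟨h.2, mem_erase.2 ⟨h.1, mem_univ _⟩⟩)]
        exact card_insert_le _ _
    have h6 : spn f (insert c T) ≤ spn f T + (r - 2) := by
      unfold spn
      refine (sum_le_sum fun i _ => h4 i).trans ?_
      rw [sum_add_distrib, sum_ite_mem, univ_inter, sum_const, smul_eq_mul, mul_one,
        card_erase_of_mem (mem_erase.2 ⟨hij.symm, mem_univ _⟩), card_erase_of_mem (mem_univ _),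
        card_univ, Fintype.card_fin]
      omega
    have h7 : (r - 2) * (e + 1) = (r - 2) * e + (r - 2) := by ring
    omega

end Growth

section Main

variable {n : ℕ} {X : Fin (n + 3) → Type u} [∀ i, DecidableEq (X i)]

/-- `H` is closed under the operations `μ i`, applied componentwise. -/
def MClosed (μ : ∀ i, X i → X i → X i → X i) (H : Finset (∀ i, X i)) : Prop :=
  ∀ x ∈ H, ∀ y ∈ H, ∀ z ∈ H, (fun i => μ i (x i) (y i) (z i)) ∈ H

/-- **Main bound**, `r = n + 3`. -/
theorem bound (μ : ∀ i, X i → X i → X i → X i) (hμ : ∀ i, IsMaj (μ i)) (H : Finset (∀ i, X i))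
    (hH : MClosed μ H) (e : ℕ) (he : 1 ≤ e)
    (hs : ∀ T ⊆ H, #T = e → (n + 1) * e + 2 < ∑ i, #(T.image fun x => x i)) :
    #H ^ (n + 2) ≤ (e - 1) ^ (n + 2) * ∏ i, #(H.image fun x => x i) := by
  classical
  rcases H.eq_empty_or_nonempty with rfl | hne
  · simp
  let A := {x // x ∈ H}
  let f : ∀ i, A → X i := fun i x => x.1 i
  let m : A → A → A → A := fun x y z => ⟨fun i => μ i (x.1 i) (y.1 i) (z.1 i), hH _ x.2 _ y.2 _ z.2⟩
  have hm : IsMaj m := by
    intro a b
    refine ⟨?_, ?_, ?_⟩
    · exact Subtype.ext (funext fun i => (hμ i _ _).1)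
    · exact Subtype.ext (funext fun i => (hμ i _ _).2.1)
    · exact Subtype.ext (funext fun i => (hμ i _ _).2.2)
  let θ : Fin (n + 3) → Cong m hm := fun i => ⟨Setoid.ker (f i), by
    intro a a' b b' c c' h1 h2 h3
    rw [Setoid.ker_def] at *
    show μ i (a.1 i) (b.1 i) (c.1 i) = μ i (a'.1 i) (b'.1 i) (c'.1 i)
    have e1 : a.1 i = a'.1 i := h1
    have e2 : b.1 i = b'.1 i := h2
    have e3 : c.1 i = c'.1 i := h3
    rw [e1, e2, e3]⟩
  let ψ : Fin (n + 3) → Cong m hm := fun k => (univ.erase k).sup θ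
  let w : Setoid A := Relation.EqvGen.setoid (Share f)
  have hw : (pairs θ).1 ≤ w := by
    refine sup_le_setoid _ _ _ ?_
    rintro ⟨i, j⟩ hij x y hxy
    exact Relation.EqvGen.rel _ _ ⟨i, j, (mem_filter.1 hij).2, hxy.1, hxy.2⟩
  have hψw : ∀ x y : A, (∀ k, (ψ k).1 x y) → w x y := by
    intro x y h
    refine hw ?_
    have h1 : univ.inf ψ ≤ pairs θ := le_pairs_of_le θ _ fun k => Finset.inf_le (mem_univ k)
    exact h1 (inf_rel univ ψ x y fun k _ => h k)
  -- classes are small
  have hclass : ∀ x₀ : A, #(univ.filter fun y => w x₀ y) ≤ e - 1 := by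
    intro x₀
    by_contra hcon
    push Not at hcon
    obtain ⟨T, -, hTe, hT⟩ := growth (by omega : 2 ≤ n + 3) f x₀ (univ.filter fun y => w x₀ y)
      (fun y => by rw [mem_filter]; exact ⟨fun h => h.2, fun h => ⟨mem_univ _, h⟩⟩) e he (by omega)
    have h1 := hs (T.map (Function.Embedding.subtype _)) (fun x hx => by
      obtain ⟨y, -, rfl⟩ := mem_map.1 hx
      exact y.2) (by rw [card_map, hTe])
    have h2 : ∀ i, (T.map (Function.Embedding.subtype _)).image (fun x : ∀ i, X i => x i) =
        T.image (f i) := by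
      intro i
      rw [map_eq_image, image_image]
      rfl
    simp only [h2] at h1
    have h3 : n + 3 - 2 = n + 1 := by omega
    rw [h3] at hT
    exact absurd hT (not_le_of_gt h1)
  let Φ : A → ∀ k, Quotient (ψ k).1 := fun x k => Quotient.mk _ x
  have hΦ : ∀ x y k, Φ x k = Φ y k ↔ (ψ k).1 x y := fun x y k => Quotient.eq
  have h1 : #(univ : Finset A) ≤ (e - 1) * #(univ.image Φ) := by
    refine card_le_mul_card_image_of_maps_to (f := Φ) (fun x hx => mem_image_of_mem _ hx) _ ?_
    intro b hb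
    obtain ⟨x₀, -, rfl⟩ := mem_image.1 hb
    refine le_trans (card_le_card ?_) (hclass x₀)
    intro y hy
    rw [mem_filter] at hy ⊢
    refine ⟨mem_univ _, w.symm (hψw _ _ fun k => ?_)⟩
    exact (hΦ y x₀ k).1 (congrFun hy.2 k)
  have hneA : (univ.image Φ).Nonempty := by
    obtain ⟨x, hx⟩ := hne
    exact ⟨_, mem_image_of_mem Φ (mem_univ (⟨x, hx⟩ : A))⟩
  have h2 := loomisWhitney (n + 2) (fun k => Quotient (ψ k).1) (univ.image Φ) hneA
  have h3 : ∀ i : Fin (n + 3), #((univ.image Φ).image fun x => i.removeNth x) ≤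
      #(H.image fun x => x i) := by
    intro i
    rw [image_image]
    refine (card_image_le_of_factor (univ : Finset A) (f i) _ ?_).trans ?_
    · intro x _ y _ hxy
      funext k
      show Φ x (i.succAbove k) = Φ y (i.succAbove k)
      rw [hΦ]
      have h4 : θ i ≤ ψ (i.succAbove k) := Finset.le_sup (f := θ)
        (mem_erase.2 ⟨(Fin.succAbove_ne i k).symm, mem_univ _⟩)
      exact h4 hxy
    · refine card_le_card fun a ha => ?_
      obtain ⟨x, -, rfl⟩ := mem_image.1 ha
      exact mem_image_of_mem _ x.2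
  have h5 : #H = #(univ : Finset A) := by
    rw [card_univ, Fintype.card_coe]
  calc #H ^ (n + 2) ≤ ((e - 1) * #(univ.image Φ)) ^ (n + 2) := by
        rw [h5]; exact Nat.pow_le_pow_left h1 _
    _ = (e - 1) ^ (n + 2) * #(univ.image Φ) ^ (n + 2) := mul_pow _ _ _
    _ ≤ (e - 1) ^ (n + 2) * ∏ i : Fin (n + 3), #((univ.image Φ).image fun x => i.removeNth x) :=
        Nat.mul_le_mul_left _ h2
    _ ≤ _ := Nat.mul_le_mul_left _ (prod_le_prod' fun i _ => h3 i)

end Main

end Pool.Agent.R181.Maj
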