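import Pool.Agent.R181.LatRel

/-!
# Rectangles in relations between two lattices closed under componentwise meets and joins
-/

set_option autoImplicit false

namespace Pool.Agent.R181.RectRel

open Finset Pool.Agent.R181.LatRel

theorem pow_four_sum {ι : Type*} (s : Finset ι) (f : ι → ℕ) :
    (∑ i ∈ s, f i) ^ 4 ≤ #s ^ 3 * ∑ i ∈ s, f i ^ 4 := by
  have h1 : (∑ i ∈ s, f i) ^ 2 ≤ #s * ∑ i ∈ s, f i ^ 2 := sq_sum_le_card_mul_sum_sq
  have h2 : (∑ i ∈ s, f i ^ 2) ^ 2 ≤ #s * ∑ i ∈ s, (f i ^ 2) ^ 2 := sq_sum_le_card_mul_sum_sq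
  have h3 : ∀ i, (f i ^ 2) ^ 2 = f i ^ 4 := fun i => by ring
  simp only [h3] at h2
  calc (∑ i ∈ s, f i) ^ 4 = ((∑ i ∈ s, f i) ^ 2) ^ 2 := by ring
    _ ≤ (#s * ∑ i ∈ s, f i ^ 2) ^ 2 := Nat.pow_le_pow_left h1 2
    _ = #s ^ 2 * (∑ i ∈ s, f i ^ 2) ^ 2 := by ring
    _ ≤ #s ^ 2 * (#s * ∑ i ∈ s, f i ^ 4) := Nat.mul_le_mul_left _ h2
    _ = #s ^ 3 * ∑ i ∈ s, f i ^ 4 := by ring

variable {X Y : Type*} [DecidableEq X] [DecidableEq Y] [Lattice X] [Lattice Y]
  [Fintype X] [Fintype Y]

/-- The column of `y`. -/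
def col (E : Finset (X × Y)) (y : Y) : Finset X := univ.filter fun x => (x, y) ∈ E

/-- The common neighbours of four elements of `X`. -/
def com (E : Finset (X × Y)) (x : Fin 4 → X) : Finset Y := univ.filter fun y => ∀ i, (x i, y) ∈ E

/-- The elements between `m` and `j` which occur. -/
noncomputable def btw (E : Finset (X × Y)) (m j : X) : Finset X := by
  classical exact univ.filter fun x => (∃ y, (x, y) ∈ E) ∧ m ≤ x ∧ x ≤ j

/-- The common neighbours of `m` and `j`. -/
def two (E : Finset (X × Y)) (m j : X) : Finset Y := univ.filter fun y => (m, y) ∈ E ∧ (j, y) ∈ E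

theorem count_com (E : Finset (X × Y)) : ∑ x : Fin 4 → X, #(com E x) = ∑ y : Y, #(col E y) ^ 4 := by
  classical
  have := sum_card_bipartiteAbove_eq_sum_card_bipartiteBelow (s := (univ : Finset (Fin 4 → X)))
    (t := (univ : Finset Y)) (r := fun x y => ∀ i, (x i, y) ∈ E)
  simp only [bipartiteAbove, bipartiteBelow] at this
  have h1 : ∀ x : Fin 4 → X, #(com E x) = #(univ.filter fun y : Y => ∀ i, (x i, y) ∈ E) := by
    intro x; rfl
  simp only [h1]
  rw [this]
  refine sum_congr rfl fun y _ => ?_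
  have h2 : (univ.filter fun x : Fin 4 → X => ∀ i, (x i, y) ∈ E) =
      Fintype.piFinset fun _ : Fin 4 => col E y := by
    ext x
    simp [col, Fintype.mem_piFinset]
  rw [h2, Fintype.card_piFinset]
  simp

theorem card_eq_sum_col (E : Finset (X × Y)) : #E = ∑ y, #(col E y) := by
  classical
  rw [card_eq_sum_card_fiberwise (f := Prod.snd) (t := univ) (fun _ _ => mem_coe.2 (mem_univ _))]
  refine sum_congr rfl fun y _ => ?_
  refine card_bij (fun e _ => e.1) ?_ ?_ ?_
  · intro e he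
    obtain ⟨he1, rfl⟩ := mem_filter.1 he
    simpa [col] using he1
  · intro e he e' he' h
    rw [mem_filter] at he he'
    exact Prod.ext h (he.2.trans he'.2.symm)
  · intro x hx
    rw [col, mem_filter] at hx
    exact ⟨(x, y), mem_filter.2 ⟨hx.2, rfl⟩, rfl⟩

theorem lower (E : Finset (X × Y)) :
    #E ^ 16 ≤ Fintype.card X ^ 12 * Fintype.card Y ^ 12 * ∑ x : Fin 4 → X, #(com E x) ^ 4 := by
  classical
  have h1 : #E ^ 4 ≤ Fintype.card Y ^ 3 * ∑ x : Fin 4 → X, #(com E x) := by
    rw [card_eq_sum_col, count_com]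
    have := pow_four_sum (univ : Finset Y) fun y => #(col E y)
    rwa [card_univ] at this
  have h2 : (∑ x : Fin 4 → X, #(com E x)) ^ 4 ≤
      (Fintype.card X ^ 4) ^ 3 * ∑ x : Fin 4 → X, #(com E x) ^ 4 := by
    have := pow_four_sum (univ : Finset (Fin 4 → X)) fun x => #(com E x)
    rwa [card_univ, Fintype.card_pi, prod_const, card_univ, Fintype.card_fin] at this
  calc #E ^ 16 = (#E ^ 4) ^ 4 := by ring
    _ ≤ (Fintype.card Y ^ 3 * ∑ x : Fin 4 → X, #(com E x)) ^ 4 := Nat.pow_le_pow_left h1 4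
    _ = Fintype.card Y ^ 12 * (∑ x : Fin 4 → X, #(com E x)) ^ 4 := by ring
    _ ≤ Fintype.card Y ^ 12 * ((Fintype.card X ^ 4) ^ 3 * ∑ x : Fin 4 → X, #(com E x) ^ 4) :=
        Nat.mul_le_mul_left _ h2
    _ = _ := by ring

/-- The meet of four elements. -/
def mt (x : Fin 4 → X) : X := (x 0 ⊓ x 1) ⊓ (x 2 ⊓ x 3)

/-- The join of four elements. -/
def jn (x : Fin 4 → X) : X := (x 0 ⊔ x 1) ⊔ (x 2 ⊔ x 3)

theorem mt_le (x : Fin 4 → X) (i : Fin 4) : mt x ≤ x i := by
  fin_cases i
  · exact inf_le_left.trans inf_le_left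
  · exact inf_le_left.trans inf_le_right
  · exact inf_le_right.trans inf_le_left
  · exact inf_le_right.trans inf_le_right

theorem le_jn (x : Fin 4 → X) (i : Fin 4) : x i ≤ jn x := by
  fin_cases i
  · exact le_sup_left.trans le_sup_left
  · exact le_sup_right.trans le_sup_left
  · exact le_sup_left.trans le_sup_right
  · exact le_sup_right.trans le_sup_right

theorem com_sub {E : Finset (X × Y)} (hE : Closed E) (x : Fin 4 → X) :
    com E x ⊆ two E (mt x) (jn x) := by
  intro y hy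
  rw [com, mem_filter] at hy
  rw [two, mem_filter]
  have hm : ∀ a b : X, (a, y) ∈ E → (b, y) ∈ E → (a ⊓ b, y) ∈ E := by
    intro a b ha hb
    have := hE.inf _ ha _ hb
    simpa using this
  have hj : ∀ a b : X, (a, y) ∈ E → (b, y) ∈ E → (a ⊔ b, y) ∈ E := by
    intro a b ha hb
    have := hE.sup _ ha _ hb
    simpa using this
  exact ⟨mem_univ _, hm _ _ (hm _ _ (hy.2 0) (hy.2 1)) (hm _ _ (hy.2 2) (hy.2 3)),
    hj _ _ (hj _ _ (hy.2 0) (hy.2 1)) (hj _ _ (hy.2 2) (hy.2 3))⟩

theorem rect {E : Finset (X × Y)} (hE : Closed E) (m j : X) :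
    ∀ x ∈ btw E m j, ∀ y ∈ two E m j, (x, y) ∈ E := by
  classical
  intro x hx y hy
  rw [btw, mem_filter] at hx
  rw [two, mem_filter] at hy
  obtain ⟨-, ⟨y', hy'⟩, h1, h2⟩ := hx
  have h3 := hE.inf _ (hE.sup _ hy.2.1 _ hy') _ hy.2.2
  have h4 : ((m, y) ⊔ (x, y')) ⊓ (j, y) = (x, y) := by
    ext
    · simp [sup_eq_right.2 h1, inf_eq_left.2 h2]
    · simp
  rwa [h4] at h3

theorem upper {E : Finset (X × Y)} (hE : Closed E) {A : ℕ}
    (hA : ∀ (S : Finset X) (T : Finset Y), (∀ x ∈ S, ∀ y ∈ T, (x, y) ∈ E) → #S * #T ≤ A) :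
    ∑ x : Fin 4 → X, #(com E x) ^ 4 ≤ Fintype.card X ^ 2 * A ^ 4 := by
  classical
  have h1 : ∑ x : Fin 4 → X, #(com E x) ^ 4 =
      ∑ p : X × X, ∑ x ∈ univ.filter (fun x : Fin 4 → X => (mt x, jn x) = p), #(com E x) ^ 4 :=
    (sum_fiberwise (s := univ) (g := fun x : Fin 4 → X => (mt x, jn x))
      (f := fun x => #(com E x) ^ 4)).symm
  rw [h1]
  calc _ ≤ ∑ _p : X × X, A ^ 4 := by
        refine sum_le_sum fun p _ => ?_
        have h2 : ∑ x ∈ univ.filter (fun x : Fin 4 → X => (mt x, jn x) = p), #(com E x) ^ 4 ≤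
            ∑ x ∈ (Fintype.piFinset fun _ : Fin 4 => btw E p.1 p.2), #(two E p.1 p.2) ^ 4 := by
          have h3 : ∑ x ∈ univ.filter (fun x : Fin 4 → X => (mt x, jn x) = p), #(com E x) ^ 4 =
              ∑ x ∈ (univ.filter (fun x : Fin 4 → X => (mt x, jn x) = p)).filter
                (fun x => (com E x).Nonempty), #(com E x) ^ 4 := by
            refine (sum_filter_of_ne ?_).symm
            intro x _ hx
            by_contra hcon
            rw [not_nonempty_iff_eq_empty] at hcon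
            rw [hcon] at hx
            simp at hx
          rw [h3]
          calc _ ≤ ∑ x ∈ (univ.filter (fun x : Fin 4 → X => (mt x, jn x) = p)).filter
                (fun x => (com E x).Nonempty), #(two E p.1 p.2) ^ 4 := by
                refine sum_le_sum fun x hx => ?_
                have h4 := (mem_filter.1 (mem_filter.1 hx).1).2
                have h5 := com_sub hE x
                rw [← h4]
                exact Nat.pow_le_pow_left (card_le_card h5) 4
            _ ≤ _ := by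
                refine sum_le_sum_of_subset fun x hx => ?_
                obtain ⟨hx1, y, hy⟩ := mem_filter.1 hx
                have h4 := (mem_filter.1 hx1).2
                rw [Fintype.mem_piFinset]
                intro i
                rw [btw, mem_filter, ← h4]
                rw [com, mem_filter] at hy
                exact ⟨mem_univ _, ⟨y, hy.2 i⟩, mt_le x i, le_jn x i⟩
        refine h2.trans ?_
        rw [sum_const, Fintype.card_piFinset, prod_const, card_univ, Fintype.card_fin, smul_eq_mul,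
          ← mul_pow]
        exact Nat.pow_le_pow_left (hA _ _ (rect hE p.1 p.2)) 4
    _ = Fintype.card X ^ 2 * A ^ 4 := by
        rw [sum_const, card_univ, Fintype.card_prod, smul_eq_mul, sq]

/-- If all rectangles contained in `E` have area at most `A`, then `E` is small. -/
theorem area {E : Finset (X × Y)} (hE : Closed E) {A : ℕ}
    (hA : ∀ (S : Finset X) (T : Finset Y), (∀ x ∈ S, ∀ y ∈ T, (x, y) ∈ E) → #S * #T ≤ A) :
    #E ^ 16 ≤ Fintype.card X ^ 14 * Fintype.card Y ^ 12 * A ^ 4 := by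
  refine (lower E).trans ((Nat.mul_le_mul_left _ (upper hE hA)).trans (le_of_eq ?_))
  ring

end Pool.Agent.R181.RectRel
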