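import Mathlib

/-!
# Relations without `K_{2,2}` closed under semilattice, Mal'tsev or majority operations
-/

set_option autoImplicit false

namespace Pool.Agent.R181.Thin

open Finset

variable {α β : Type*}

/-- `s` is the operation of a semilattice -/
def IsSemilattice (s : α → α → α) : Prop :=
  (∀ x, s x x = x) ∧ (∀ x y, s x y = s y x) ∧ ∀ x y z, s (s x y) z = s x (s y z)

/-- `m` is a Mal'tsev operation -/
def IsMaltsev (m : α → α → α → α) : Prop := ∀ x y, m x y y = x ∧ m x x y = y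

/-- `m` is a majority operation -/
def IsMajority (m : α → α → α → α) : Prop := ∀ x y, m x x y = x ∧ m x y x = x ∧ m y x x = x

/-- no `K_{2,2}` -/
def Thin (F : Set (α × β)) : Prop :=
  ∀ x x' y y', x ≠ x' → y ≠ y' → (x, y) ∈ F → (x, y') ∈ F → (x', y) ∈ F → (x', y') ∈ F → False

open Classical in
theorem card_le_of_split [DecidableEq α] [DecidableEq β] (E : Finset (α × β))
    (P Q : α × β → Prop) (h : ∀ e ∈ E, P e ∨ Q e)
    (hP : ∀ e ∈ E, ∀ e' ∈ E, P e → P e' → e.1 = e'.1 → e = e')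
    (hQ : ∀ e ∈ E, ∀ e' ∈ E, Q e → Q e' → e.2 = e'.2 → e = e') :
    #E ≤ #(E.image Prod.fst) + #(E.image Prod.snd) := by
  have h1 : E ⊆ E.filter P ∪ E.filter Q := by
    intro e he
    rw [mem_union, mem_filter, mem_filter]
    rcases h e he with h | h
    · exact Or.inl ⟨he, h⟩
    · exact Or.inr ⟨he, h⟩
  refine (card_le_card h1).trans ((card_union_le _ _).trans (Nat.add_le_add ?_ ?_))
  · refine card_le_card_of_injOn Prod.fst ?_ ?_
    · intro e he
      exact mem_image_of_mem _ (mem_filter.1 he).1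
    · intro e he e' he' hee
      have he1 := mem_filter.1 he
      have he2 := mem_filter.1 he'
      exact hP e he1.1 e' he2.1 he1.2 he2.2 hee
  · refine card_le_card_of_injOn Prod.snd ?_ ?_
    · intro e he
      exact mem_image_of_mem _ (mem_filter.1 he).1
    · intro e he e' he' hee
      have he1 := mem_filter.1 he
      have he2 := mem_filter.1 he'
      exact hQ e he1.1 e' he2.1 he1.2 he2.2 hee

theorem card_maltsev [DecidableEq α] [DecidableEq β] (E : Finset (α × β))
    (hE : Thin (E : Set (α × β))) (s : α → α → α → α) (t : β → β → β → β) (hs : IsMaltsev s)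
    (ht : IsMaltsev t)
    (hc : ∀ e ∈ E, ∀ e' ∈ E, ∀ e'' ∈ E, (s e.1 e'.1 e''.1, t e.2 e'.2 e''.2) ∈ E) :
    #E ≤ #(E.image Prod.fst) + #(E.image Prod.snd) := by
  refine card_le_of_split E (fun e => ∀ y', (e.1, y') ∈ E → y' = e.2)
    (fun e => ∀ x', (x', e.2) ∈ E → x' = e.1) ?_ ?_ ?_
  · rintro ⟨x, y⟩ he
    by_contra hcon
    rw [not_or] at hcon
    push Not at hcon
    obtain ⟨y', hy', hyy⟩ := hcon.1
    obtain ⟨x', hx', hxx⟩ := hcon.2
    have h1 := hc _ hx' _ he _ hy'
    simp only at h1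
    rw [(hs x' x).1, (ht y y').2] at h1
    exact hE x' x y' y hxx hyy h1 hx' hy' he
  · rintro ⟨x, y⟩ he ⟨x', y'⟩ he' h1 h2 hee
    simp only at hee h1 h2
    subst hee
    exact Prod.ext rfl (h1 _ he').symm
  · rintro ⟨x, y⟩ he ⟨x', y'⟩ he' h1 h2 hee
    simp only at hee h1 h2
    subst hee
    exact Prod.ext (h1 _ he').symm rfl

theorem card_semilattice [DecidableEq α] [DecidableEq β] (E : Finset (α × β))
    (hE : Thin (E : Set (α × β))) (s : α → α → α) (t : β → β → β) (hs : IsSemilattice s)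
    (ht : IsSemilattice t) (hc : ∀ e ∈ E, ∀ e' ∈ E, (s e.1 e'.1, t e.2 e'.2) ∈ E) :
    #E ≤ #(E.image Prod.fst) + #(E.image Prod.snd) := by
  refine card_le_of_split E (fun e => ∀ y', (e.1, y') ∈ E → t e.2 y' = y' → y' = e.2)
    (fun e => ∀ x', (x', e.2) ∈ E → s e.1 x' = x' → x' = e.1) ?_ ?_ ?_
  · rintro ⟨x, y⟩ he
    by_contra hcon
    rw [not_or] at hcon
    push Not at hcon
    obtain ⟨y', hy', h2, hyy⟩ := hcon.1
    obtain ⟨x', hx', h3, hxx⟩ := hcon.2
    have h4 := hc _ hx' _ hy'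
    simp only at h4 h2 h3
    rw [hs.2.1 x' x, h3, h2] at h4
    exact hE x' x y' y hxx hyy h4 hx' hy' he
  · rintro ⟨x, y⟩ he ⟨x2, y2⟩ he' h1 h2 hee
    simp only at hee h1 h2
    subst hee
    have h3 := hc _ he _ he'
    simp only at h3
    rw [hs.1] at h3
    have h4 : t y (t y y2) = t y y2 := by rw [← ht.2.2, ht.1]
    have h5 : t y2 (t y y2) = t y y2 := by rw [ht.2.1 y y2, ← ht.2.2, ht.1]
    exact Prod.ext rfl ((h1 _ h3 h4).symm.trans (h2 _ h3 h5))
  · rintro ⟨x, y⟩ he ⟨x2, y2⟩ he' h1 h2 hee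
    simp only at hee h1 h2
    subst hee
    have h3 := hc _ he _ he'
    simp only at h3
    rw [ht.1] at h3
    have h4 : s x (s x x2) = s x x2 := by rw [← hs.2.2, hs.1]
    have h5 : s x2 (s x x2) = s x x2 := by rw [hs.2.1 x x2, ← hs.2.2, hs.1]
    exact Prod.ext ((h1 _ h3 h4).symm.trans (h2 _ h3 h5)) rfl

/-- no cycle of length six -/
def NoHex (F : Set (α × β)) : Prop :=
  ∀ x₁ x₂ x₃ y₁ y₂ y₃, x₁ ≠ x₂ → x₂ ≠ x₃ → x₁ ≠ x₃ → y₁ ≠ y₂ → y₂ ≠ y₃ → y₁ ≠ y₃ →
    (x₁, y₁) ∈ F → (x₂, y₁) ∈ F → (x₂, y₂) ∈ F → (x₃, y₂) ∈ F → (x₃, y₃) ∈ F → (x₁, y₃) ∈ F → False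

theorem noHex_of_majority {F : Set (α × β)} (hE : Thin F) (s : α → α → α → α)
    (t : β → β → β → β) (hs : IsMajority s) (ht : IsMajority t)
    (hc : ∀ e ∈ F, ∀ e' ∈ F, ∀ e'' ∈ F, (s e.1 e'.1 e''.1, t e.2 e'.2 e''.2) ∈ F) : NoHex F := by
  intro x₁ x₂ x₃ y₁ y₂ y₃ h12 h23 h13 k12 k23 k13 e11 e21 e22 e32 e33 e13
  have h1 : (s x₁ x₂ x₃, y₁) ∈ F := by
    have := hc _ e11 _ e21 _ e32
    simpa only [(ht y₁ y₂).1] using this
  have h2 : (s x₁ x₂ x₃, y₂) ∈ F := by
    have := hc _ e11 _ e22 _ e32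
    simpa only [(ht y₂ y₁).2.2] using this
  have h3 : (s x₁ x₂ x₃, y₃) ∈ F := by
    have := hc _ e13 _ e21 _ e33
    simpa only [(ht y₃ y₁).2.1] using this
  have h4 : s x₁ x₂ x₃ = x₂ := by
    by_contra hne
    exact hE _ _ _ _ hne k12 h1 h2 e21 e22
  have h5 : s x₁ x₂ x₃ = x₃ := by
    by_contra hne
    exact hE _ _ _ _ hne k23 h2 h3 e32 e33
  exact h23 (h4.symm.trans h5)

/-- the neighbours of `x` -/
def row [DecidableEq α] [DecidableEq β] (E : Finset (α × β)) (x : α) : Finset β :=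
  (E.filter fun e => e.1 = x).image Prod.snd

/-- the neighbours of `y` -/
def col [DecidableEq α] [DecidableEq β] (E : Finset (α × β)) (y : β) : Finset α :=
  (E.filter fun e => e.2 = y).image Prod.fst

variable [DecidableEq α] [DecidableEq β]

theorem mem_row {E : Finset (α × β)} {x : α} {y : β} : y ∈ row E x ↔ (x, y) ∈ E := by
  simp [row]

theorem mem_col {E : Finset (α × β)} {x : α} {y : β} : x ∈ col E y ↔ (x, y) ∈ E := by
  simp [col]

theorem hex_count (E : Finset (α × β)) (h4 : Thin (E : Set (α × β)))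
    (h6 : NoHex (E : Set (α × β))) (a b : ℕ) :
    (#E - (a * #(E.image Prod.fst) + b * #(E.image Prod.snd))) * (a * b) ≤
      #(E.image Prod.fst) * #(E.image Prod.snd) := by
  set S := E.filter fun e => a < #(row E e.1) ∧ b < #(col E e.2) with hS
  -- many edges of `S`
  have hSc : #E - (a * #(E.image Prod.fst) + b * #(E.image Prod.snd)) ≤ #S := by
    have h1 : E ⊆ S ∪ ((E.filter fun e => #(row E e.1) ≤ a) ∪
        (E.filter fun e => #(col E e.2) ≤ b)) := by
      intro e he
      simp only [hS, mem_union, mem_filter]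
      by_cases h1 : #(row E e.1) ≤ a
      · exact Or.inr (Or.inl ⟨he, h1⟩)
      · by_cases h2 : #(col E e.2) ≤ b
        · exact Or.inr (Or.inr ⟨he, h2⟩)
        · exact Or.inl ⟨he, by omega, by omega⟩
    have h2 : #(E.filter fun e => #(row E e.1) ≤ a) ≤ a * #(E.image Prod.fst) := by
      refine card_le_mul_card_image_of_maps_to (f := Prod.fst) (fun e he =>
        mem_image_of_mem _ (mem_filter.1 he).1) a ?_
      intro x hx
      by_cases hxa : #(row E x) ≤ a
      · refine le_trans ?_ hxa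
        refine card_le_card_of_injOn Prod.snd ?_ ?_
        · intro e he
          have he' := mem_filter.1 he
          have he2 := (mem_filter.1 he'.1).1
          rw [mem_coe, mem_row, ← he'.2]
          exact he2
        · intro e he e' he' hee
          exact Prod.ext ((mem_filter.1 he).2.trans (mem_filter.1 he').2.symm) hee
      · rw [card_eq_zero.2]
        · exact Nat.zero_le _
        · rw [filter_eq_empty_iff]
          intro e he hex
          exact hxa (hex ▸ (mem_filter.1 he).2)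
    have h3 : #(E.filter fun e => #(col E e.2) ≤ b) ≤ b * #(E.image Prod.snd) := by
      refine card_le_mul_card_image_of_maps_to (f := Prod.snd) (fun e he =>
        mem_image_of_mem _ (mem_filter.1 he).1) b ?_
      intro y hy
      by_cases hyb : #(col E y) ≤ b
      · refine le_trans ?_ hyb
        refine card_le_card_of_injOn Prod.fst ?_ ?_
        · intro e he
          have he' := mem_filter.1 he
          have he2 := (mem_filter.1 he'.1).1
          rw [mem_coe, mem_col, ← he'.2]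
          exact he2
        · intro e he e' he' hee
          exact Prod.ext hee ((mem_filter.1 he).2.trans (mem_filter.1 he').2.symm)
      · rw [card_eq_zero.2]
        · exact Nat.zero_le _
        · rw [filter_eq_empty_iff]
          intro e he hex
          exact hyb (hex ▸ (mem_filter.1 he).2)
    have h4 := (card_le_card h1).trans ((card_union_le _ _).trans
      (Nat.add_le_add_left (card_union_le _ _) _))
    omega
  -- the paths of length three
  have hP : #(S.sigma fun e => (col E e.2).erase e.1 ×ˢ (row E e.1).erase e.2) ≤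
      #(E.image Prod.fst) * #(E.image Prod.snd) := by
    rw [← card_product]
    refine card_le_card_of_injOn (fun p => p.2) ?_ ?_
    · rintro ⟨⟨x, y⟩, ⟨x', y'⟩⟩ hp
      simp only [coe_sigma, Set.mem_sigma_iff, mem_coe, mem_product, mem_erase, mem_col,
        mem_row] at hp
      rw [mem_coe, mem_product]
      exact ⟨mem_image.2 ⟨(x', y), hp.2.1.2, rfl⟩, mem_image.2 ⟨(x, y'), hp.2.2.2, rfl⟩⟩
    · rintro ⟨⟨x₁, y₁⟩, ⟨x', y'⟩⟩ hp ⟨⟨x₂, y₂⟩, ⟨x'', y''⟩⟩ hq hpq
      simp only [coe_sigma, Set.mem_sigma_iff, mem_coe, mem_product, mem_erase, mem_col,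
        mem_row, hS, mem_filter] at hp hq hpq
      obtain ⟨rfl, rfl⟩ := Prod.mk.inj hpq
      obtain ⟨⟨e1, -⟩, ⟨hx1, f1⟩, hy1, g1⟩ := hp
      obtain ⟨⟨e2, -⟩, ⟨hx2, f2⟩, hy2, g2⟩ := hq
      have key : x₁ = x₂ ∧ y₁ = y₂ := by
        by_cases hx : x₁ = x₂
        · refine ⟨hx, ?_⟩
          by_contra hy
          subst hx
          exact h4 x₁ x' y₁ y₂ (Ne.symm hx1) hy e1 e2 f1 f2
        · by_cases hy : y₁ = y₂
          · exfalso
            subst hy
            exact h4 x₁ x₂ y₁ y' hx (Ne.symm hy1) e1 g1 e2 g2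
          · exfalso
            exact h6 x' x₁ x₂ y₁ y' y₂ hx1 hx hx2 (Ne.symm hy1) hy2 hy f1 e1 g1 g2 e2 f2
      obtain ⟨rfl, rfl⟩ := key
      rfl
  refine le_trans ?_ hP
  rw [card_sigma]
  calc (#E - (a * #(E.image Prod.fst) + b * #(E.image Prod.snd))) * (a * b)
      ≤ #S * (a * b) := Nat.mul_le_mul_right _ hSc
    _ = ∑ _e ∈ S, a * b := by rw [sum_const, smul_eq_mul]
    _ ≤ _ := by
      refine sum_le_sum fun e he => ?_
      rw [hS, mem_filter] at he
      have h1 : e.1 ∈ col E e.2 := mem_col.2 he.1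
      have h2 : e.2 ∈ row E e.1 := mem_row.2 he.1
      rw [card_product, card_erase_of_mem h1, card_erase_of_mem h2, mul_comm a b]
      exact Nat.mul_le_mul (by omega) (by omega)

/-- A relation without `K_{2,2}` and without cycles of length six between sets with `m` and `n`
elements has at most `max (4m) (4n)` elements or at most `(128 m² n²)^{1/3}`. -/
theorem hex_bound (E : Finset (α × β)) (h4 : Thin (E : Set (α × β)))
    (h6 : NoHex (E : Set (α × β))) :
    #E ≤ 4 * #(E.image Prod.fst) ∨ #E ≤ 4 * #(E.image Prod.snd) ∨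
      #E ^ 3 ≤ 128 * (#(E.image Prod.fst) * #(E.image Prod.snd)) ^ 2 := by
  set m := #(E.image Prod.fst) with hm
  set n := #(E.image Prod.snd) with hn
  by_cases h1 : #E ≤ 4 * m
  · exact Or.inl h1
  by_cases h2 : #E ≤ 4 * n
  · exact Or.inr (Or.inl h2)
  refine Or.inr (Or.inr ?_)
  have hE : E.Nonempty := by
    rw [← card_pos]
    omega
  have hm0 : 0 < m := by
    rw [hm, card_pos]
    exact hE.image _
  have hn0 : 0 < n := by
    rw [hn, card_pos]
    exact hE.image _
  set a := #E / (4 * m) with ha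
  set b := #E / (4 * n) with hb
  have hcount := hex_count E h4 h6 a b
  rw [← hm, ← hn] at hcount
  have ha1 : a * (4 * m) ≤ #E := Nat.div_mul_le_self _ _
  have hb1 : b * (4 * n) ≤ #E := Nat.div_mul_le_self _ _
  have ha3 : 1 ≤ a := (Nat.le_div_iff_mul_le (by omega)).2 (by omega)
  have hb3 : 1 ≤ b := (Nat.le_div_iff_mul_le (by omega)).2 (by omega)
  have ha2 : #E ≤ 8 * m * a := by
    have := Nat.lt_div_mul_add (a := #E) (b := 4 * m) (by omega)
    rw [← ha] at this
    nlinarith
  have hb2 : #E ≤ 8 * n * b := by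
    have := Nat.lt_div_mul_add (a := #E) (b := 4 * n) (by omega)
    rw [← hb] at this
    nlinarith
  set e := #E with he
  have h5 : e ≤ 2 * (e - (a * m + b * n)) := by
    have : 2 * (a * m + b * n) ≤ e := by nlinarith
    omega
  calc e ^ 3 = e * e * e := by ring
    _ ≤ (2 * (e - (a * m + b * n))) * (8 * m * a) * (8 * n * b) :=
        Nat.mul_le_mul (Nat.mul_le_mul h5 ha2) hb2
    _ = 128 * (m * n) * ((e - (a * m + b * n)) * (a * b)) := by ring
    _ ≤ 128 * (m * n) * (m * n) := Nat.mul_le_mul_left _ hcount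
    _ = _ := by ring

end Pool.Agent.R181.Thin
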